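import Mathlib

/-!
# Average discrepancy of lattice point sets: statements
-/

set_option autoImplicit false

namespace Pool.Agent.V8H55.LD

open Finset

/-- The `i`-th coordinate of the `n`-th point of the lattice point set `P_N(a)`. -/
noncomputable def pt {d N : ℕ} (a : Fin d → Fin N) (n : ℕ) (i : Fin d) : ℝ :=
  Int.fract ((n : ℝ) * ((a i : ℕ) : ℝ) / (N : ℝ))

/-- The box `∏ [u_i, v_i)` lies in `[0,1)^d`. -/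
def IsBox {d : ℕ} (u v : Fin d → ℝ) : Prop := ∀ i, 0 ≤ u i ∧ u i ≤ v i ∧ v i ≤ 1

open Classical in
/-- The number of points of `P_N(a)` in the box `∏ [u_i, v_i)`. -/
noncomputable def cnt {d N : ℕ} (a : Fin d → Fin N) (u v : Fin d → ℝ) : ℕ :=
  #{n ∈ range N | ∀ i, u i ≤ pt a n i ∧ pt a n i < v i}

/-- The discrepancy of `P_N(a)`. -/
noncomputable def disc {d N : ℕ} (a : Fin d → Fin N) : ℝ :=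
  sSup {x : ℝ | ∃ u v : Fin d → ℝ, IsBox u v ∧ x = |(cnt a u v : ℝ) / N - ∏ i, (v i - u i)|}

open Classical in
/-- The main theorem. -/
def Main : Prop := ∀ d : ℕ, 2 ≤ d → ∀ χ : ℝ, χ < 1 → ∃ C : ℝ, 0 < C ∧ ∀ N : ℕ,
  χ * (N : ℝ) ^ d ≤
    (#{a : Fin d → Fin N | C * (Real.log N ^ (d - 1) * Real.log (Real.log N)) / N ≤ disc a} : ℝ)

/-- `m` is a dual vector of `a`. -/
def Dual {d N : ℕ} (a : Fin d → Fin N) (m : Fin d → ℤ) : Prop :=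
  (N : ℤ) ∣ ∑ i, m i * ((a i : ℕ) : ℤ)

/-- A lacunary set of heavy dual vectors. -/
structure Good {d N : ℕ} (c : ℝ) (a : Fin d → Fin N) (H : Finset (Fin d → ℤ)) : Prop where
  dual : ∀ m ∈ H, Dual a m
  lo : ∀ m ∈ H, (N : ℝ) / Real.log N ^ d ≤ ∏ i, |(m i : ℝ)|
  hi : ∀ m ∈ H, ∏ i, |(m i : ℝ)| ≤ N
  sep : ∀ m ∈ H, ∀ n ∈ H, m ≠ n → ∀ i, Real.exp (Real.log N ^ (1 / 2 : ℝ)) * |(m i : ℝ)| ≤ |(n i : ℝ)| ∨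
    Real.exp (Real.log N ^ (1 / 2 : ℝ)) * |(n i : ℝ)| ≤ |(m i : ℝ)|
  card : (#H : ℝ) ≤ Real.log N ^ (1 / 4 : ℝ)
  sum : c * (Real.log N ^ (d - 1) * Real.log (Real.log N)) ≤ N * ∑ m ∈ H, 1 / ∏ i, |(m i : ℝ)|

open Classical in
/-- For most `a` there is a lacunary set of heavy dual vectors. -/
def Prob (d : ℕ) : Prop := ∀ ε : ℝ, 0 < ε → ∃ c : ℝ, 0 < c ∧ ∃ N0 : ℕ, ∀ N : ℕ, N0 ≤ N →
  (#{a : Fin d → Fin N | ¬ ∃ H : Finset (Fin d → ℤ), Good c a H} : ℝ) ≤ ε * (N : ℝ) ^ d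

/-- The Riesz product bound. -/
def Riesz : Prop := ∀ (d N : ℕ) (a : Fin d → Fin N) (H : Finset (Fin d → ℤ)) (W : ℝ), 1 ≤ d → 0 < N →
  (∀ m ∈ H, Dual a m) → (∀ m ∈ H, ∀ i, m i ≠ 0) →
  (∀ m ∈ H, ∀ n ∈ H, m ≠ n → ∀ i, 3 * |m i| ≤ |n i| ∨ 3 * |n i| ≤ |m i|) → 0 ≤ W →
  (∀ m ∈ H, ∀ n ∈ H, m ≠ n → 1 / ∏ i, max |(m i : ℝ)| |(n i : ℝ)| ≤ W) →
  (1 / (2 * Real.pi)) ^ d * ∑ m ∈ H, 1 / ∏ i, |(m i : ℝ)| - 3 ^ #H * W ≤ 2 ^ d * disc a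

/-- The distance form `|m'·x - p|` for `w = (m', p)`. -/
noncomputable def del {k : ℕ} (x : Fin k → ℝ) (w : (Fin k → ℤ) × ℤ) : ℝ :=
  |∑ i, (w.1 i : ℝ) * x i - (w.2 : ℝ)|

/-- The product `∏ |m'_i|`. -/
noncomputable def prd {k : ℕ} (w : (Fin k → ℤ) × ℤ) : ℝ := ∏ i, |(w.1 i : ℝ)|

/-- The real form of `Good` (`L = log N`, `g = gcd(a_0, N)`, `α` the other coordinates mod `g`). -/
structure GoodR {k : ℕ} (c L : ℝ) (g : ℕ) (α : Fin k → ℤ) (x : Fin k → ℝ)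
    (V : Finset ((Fin k → ℤ) × ℤ)) : Prop where
  dvd : ∀ w ∈ V, (g : ℤ) ∣ ∑ i, w.1 i * α i
  ne : ∀ w ∈ V, ∀ i, w.1 i ≠ 0
  size : ∀ w ∈ V, ∀ i, |(w.1 i : ℝ)| ≤ Real.exp (L / (8 * k))
  lo : ∀ w ∈ V, 2 * g / L ^ (k + 1) ≤ del x w * prd w
  hi : ∀ w ∈ V, del x w * prd w ≤ g / 2
  sep : ∀ w ∈ V, ∀ w' ∈ V, w ≠ w' → ∀ i,
    Real.exp (2 * L ^ (1 / 2 : ℝ)) * |(w.1 i : ℝ)| ≤ |(w'.1 i : ℝ)| ∨
    Real.exp (2 * L ^ (1 / 2 : ℝ)) * |(w'.1 i : ℝ)| ≤ |(w.1 i : ℝ)|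
  sep' : ∀ w ∈ V, ∀ w' ∈ V, w ≠ w' →
    Real.exp (2 * L ^ (1 / 2 : ℝ)) * del x w ≤ del x w' ∨
    Real.exp (2 * L ^ (1 / 2 : ℝ)) * del x w' ≤ del x w
  card : (#V : ℝ) ≤ L ^ (1 / 4 : ℝ)
  sum : c * (L ^ k * Real.log L) ≤ ∑ w ∈ V, g / (del x w * prd w)

/-- For most real points `x` of the cube there is a good set. -/
def RealStm (k : ℕ) : Prop := ∀ ε : ℝ, 0 < ε → ∀ Z : ℕ, ∃ c : ℝ, 0 < c ∧ ∃ L0 : ℝ, ∀ L : ℝ, L0 ≤ L →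
  ∀ g : ℕ, 1 ≤ g → (g : ℝ) ≤ Real.exp (L / (100 * k)) → ∀ α : Fin k → ℤ,
  (∀ h : ℕ, h ∣ g → (∀ i, (h : ℤ) ∣ α i) → h ≤ Z) →
  MeasureTheory.volume {x : Fin k → ℝ | (∀ i, x i ∈ Set.Icc (0 : ℝ) 1) ∧
    ¬ ∃ V : Finset ((Fin k → ℤ) × ℤ), GoodR c L g α x V} ≤ ENNReal.ofReal ε

/-- The transfer from real points to lattice point sets. -/
def Transfer : Prop := ∀ k : ℕ, 1 ≤ k → RealStm k → Prob (k + 1)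

end Pool.Agent.V8H55.LD
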