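import Pool.Agent.V8H55.LD.Stm

/-!
# Assembly
-/

set_option autoImplicit false

namespace Pool.Agent.V8H55.LD

open Finset Filter

theorem pt_mem {d N : ℕ} (a : Fin d → Fin N) (n : ℕ) (i : Fin d) : 0 ≤ pt a n i ∧ pt a n i < 1 :=
  ⟨Int.fract_nonneg _, Int.fract_lt_one _⟩

theorem cnt_le {d N : ℕ} (a : Fin d → Fin N) (u v : Fin d → ℝ) : cnt a u v ≤ N := by
  classical
  unfold cnt
  exact (Finset.card_filter_le _ _).trans (Finset.card_range N).le

theorem val_le {d N : ℕ} (hN : 0 < N) (a : Fin d → Fin N) {u v : Fin d → ℝ} (h : IsBox u v) :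
    |(cnt a u v : ℝ) / N - ∏ i, (v i - u i)| ≤ 1 := by
  have hNR : (0 : ℝ) < N := by exact_mod_cast hN
  have h1 : (cnt a u v : ℝ) / N ≤ 1 := by
    rw [div_le_one hNR]; exact_mod_cast cnt_le a u v
  have h2 : 0 ≤ (cnt a u v : ℝ) / N := by positivity
  have h3 : 0 ≤ ∏ i, (v i - u i) := Finset.prod_nonneg fun i _ => by linarith [(h i).2.1]
  have h4 : ∏ i, (v i - u i) ≤ 1 := Finset.prod_le_one (fun i _ => by linarith [(h i).2.1])
    fun i _ => by linarith [(h i).1, (h i).2.2]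
  rw [abs_le]
  constructor <;> linarith

theorem bdd {d N : ℕ} (hN : 0 < N) (a : Fin d → Fin N) :
    BddAbove {x : ℝ | ∃ u v : Fin d → ℝ, IsBox u v ∧ x = |(cnt a u v : ℝ) / N - ∏ i, (v i - u i)|} := by
  refine ⟨1, ?_⟩
  rintro x ⟨u, v, h, rfl⟩
  exact val_le hN a h

theorem le_disc {d N : ℕ} (hN : 0 < N) (a : Fin d → Fin N) {u v : Fin d → ℝ} (h : IsBox u v) :
    |(cnt a u v : ℝ) / N - ∏ i, (v i - u i)| ≤ disc a :=
  le_csSup (bdd hN a) ⟨u, v, h, rfl⟩

theorem disc_ge {d N : ℕ} (hd : 1 ≤ d) (hN : 0 < N) (a : Fin d → Fin N) : 1 / (N : ℝ) ≤ disc a := by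
  classical
  have hNR : (0 : ℝ) < N := by exact_mod_cast hN
  apply le_of_forall_pos_le_add
  intro δ hδ
  set η := min 1 δ with hη
  have hη0 : 0 < η := lt_min one_pos hδ
  have hη1 : η ≤ 1 := min_le_left _ _
  have hbox : IsBox (fun _ : Fin d => (0 : ℝ)) (fun _ => η) := fun i => ⟨le_rfl, hη0.le, hη1⟩
  have h1 := le_disc hN a hbox
  have h2 : 1 ≤ cnt a (fun _ => (0 : ℝ)) (fun _ => η) := by
    unfold cnt
    rw [Nat.one_le_iff_ne_zero, ← Nat.pos_iff_ne_zero, Finset.card_pos]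
    refine ⟨0, Finset.mem_filter.2 ⟨Finset.mem_range.2 hN, fun i => ?_⟩⟩
    unfold pt
    simp [hη0]
  have h3 : ∏ _i : Fin d, (η - 0) ≤ δ := by
    rw [Finset.prod_const, Finset.card_univ, Fintype.card_fin, sub_zero]
    calc η ^ d ≤ η ^ 1 := pow_le_pow_of_le_one hη0.le hη1 hd
      _ = η := pow_one _
      _ ≤ δ := min_le_right _ _
  have h4 : (1 : ℝ) / N ≤ (cnt a (fun _ => (0 : ℝ)) (fun _ => η) : ℝ) / N := by
    gcongr
    exact_mod_cast h2
  have h5 := le_abs_self ((cnt a (fun _ => (0 : ℝ)) (fun _ => η) : ℝ) / N - ∏ _i : Fin d, (η - 0))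
  linarith

theorem good_disc (hR : Riesz) {d N : ℕ} {c : ℝ} (hd : 2 ≤ d) (hN : 0 < N) (hc : 0 < c)
    (hL : 16 ≤ Real.log N)
    (hbig : Real.exp (2 * Real.log N ^ (1 / 4 : ℝ)) * Real.log N ^ d * Real.exp (-(Real.log N ^ (1 / 2 : ℝ))) ≤
      (1 / (2 * Real.pi)) ^ d * c / 2)
    {a : Fin d → Fin N} {H : Finset (Fin d → ℤ)} (h : Good c a H) :
    (1 / (2 * Real.pi)) ^ d * c / 2 / 2 ^ d * (Real.log N ^ (d - 1) * Real.log (Real.log N)) / N ≤ disc a := by
  have hNR : (0 : ℝ) < N := by exact_mod_cast hN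
  set L := Real.log N with hLd
  have hL0 : 0 < L := by linarith
  set R := Real.exp (L ^ (1 / 2 : ℝ)) with hRd
  have hR0 : 0 < R := Real.exp_pos _
  have hL2 : (2 : ℝ) ≤ L ^ (1 / 2 : ℝ) := by
    have : (4 : ℝ) = (16 : ℝ) ^ (1 / 2 : ℝ) := by
      rw [← Real.sqrt_eq_rpow]
      rw [show (16 : ℝ) = 4 ^ 2 by norm_num, Real.sqrt_sq (by norm_num)]
    have h1 : (16 : ℝ) ^ (1 / 2 : ℝ) ≤ L ^ (1 / 2 : ℝ) := Real.rpow_le_rpow (by norm_num) hL (by norm_num)
    linarith
  have hR3 : 3 ≤ R := by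
    have h1 : L ^ (1 / 2 : ℝ) + 1 ≤ R := Real.add_one_le_exp _
    linarith
  have hpos : ∀ m ∈ H, 0 < ∏ i, |(m i : ℝ)| := fun m hm => lt_of_lt_of_le (by positivity) (h.lo m hm)
  have hne : ∀ m ∈ H, ∀ i, m i ≠ 0 := by
    intro m hm i h0
    have := hpos m hm
    rw [Finset.prod_eq_zero (Finset.mem_univ i) (by rw [h0]; simp)] at this
    exact lt_irrefl _ this
  set W : ℝ := L ^ d / (N * R) with hW
  have hW0 : 0 ≤ W := by positivity
  have key := hR d N a H W (by omega) hN h.dual hne ?_ hW0 ?_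
  · have hsum := h.sum
    have hcard : (3 : ℝ) ^ #H ≤ Real.exp (2 * L ^ (1 / 4 : ℝ)) := by
      have h3 : (3 : ℝ) ≤ Real.exp 2 := by
        have := Real.add_one_le_exp (2 : ℝ); linarith
      calc (3 : ℝ) ^ #H ≤ Real.exp 2 ^ #H := by gcongr
        _ = Real.exp (2 * #H) := by rw [← Real.exp_nat_mul]; congr 1; ring
        _ ≤ _ := by
            apply Real.exp_le_exp.2
            have := h.card
            linarith
    have h1 : 3 ^ #H * W * N ≤ (1 / (2 * Real.pi)) ^ d * c / 2 := by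
      refine le_trans ?_ hbig
      calc 3 ^ #H * W * N ≤ Real.exp (2 * L ^ (1 / 4 : ℝ)) * W * N := by gcongr
        _ = _ := by
            rw [hW, Real.exp_neg, ← hRd]; field_simp
    have hlogL : 1 ≤ Real.log L := by
      have h2 : Real.log 16 ≤ Real.log L := Real.log_le_log (by norm_num) hL
      have h3 : Real.log 16 = 4 * Real.log 2 := by
        rw [show (16 : ℝ) = 2 ^ 4 by norm_num, Real.log_pow]; norm_num
      have h4 := Real.log_two_gt_d9
      linarith
    have hX : 1 ≤ L ^ (d - 1) * Real.log L := by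
      have : 1 ≤ L ^ (d - 1) := one_le_pow₀ (by linarith)
      nlinarith
    have hpi : 0 < (1 / (2 * Real.pi)) ^ d := by positivity
    rw [div_le_iff₀ hNR]
    set X := L ^ (d - 1) * Real.log L
    set S := ∑ m ∈ H, 1 / ∏ i, |(m i : ℝ)|
    set q := (1 / (2 * Real.pi)) ^ d
    have h5 : q * (c * X) ≤ q * (N * S) := by gcongr
    have h6 : q * c / 2 ≤ q * c / 2 * X := by
      have : 0 ≤ q * c / 2 := by positivity
      nlinarith
    have h7 : (q * S - 3 ^ #H * W) * N ≤ 2 ^ d * disc a * N := by gcongr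
    have h8 : q * c / 2 * X ≤ 2 ^ d * (disc a * N) := by nlinarith
    have h9 : (0 : ℝ) < 2 ^ d := by positivity
    calc q * c / 2 / 2 ^ d * X = (q * c / 2 * X) / 2 ^ d := by ring
      _ ≤ (2 ^ d * (disc a * N)) / 2 ^ d := by gcongr
      _ = disc a * N := by field_simp
  · intro m hm n hn hmn i
    have := h.sep m hm n hn hmn i
    rw [← hLd, ← hRd] at this
    have hc3 : ∀ p q : ℤ, R * |(p : ℝ)| ≤ |(q : ℝ)| → 3 * |p| ≤ |q| := by
      intro p q hpq
      have h1 : 3 * |(p : ℝ)| ≤ |(q : ℝ)| := by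
        have := abs_nonneg (p : ℝ)
        nlinarith
      exact_mod_cast h1
    rcases this with h1 | h1
    · left; exact hc3 _ _ h1
    · right; exact hc3 _ _ h1
  · intro m hm n hn hmn
    have key2 : ∀ m n : Fin d → ℤ, m ∈ H → R * |(m ⟨0, by omega⟩ : ℝ)| ≤ |(n ⟨0, by omega⟩ : ℝ)| →
        1 / ∏ i, max |(m i : ℝ)| |(n i : ℝ)| ≤ W := by
      intro m n hm h1
      have h2 : R * ∏ i, |(m i : ℝ)| ≤ ∏ i, max |(m i : ℝ)| |(n i : ℝ)| := by
        rw [← Finset.mul_prod_erase Finset.univ (fun i => |(m i : ℝ)|) (Finset.mem_univ (⟨0, by omega⟩ : Fin d)),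
          ← Finset.mul_prod_erase Finset.univ (fun i => max |(m i : ℝ)| |(n i : ℝ)|)
            (Finset.mem_univ (⟨0, by omega⟩ : Fin d)), ← mul_assoc]
        apply mul_le_mul (h1.trans (le_max_right _ _)) _ (Finset.prod_nonneg fun _ _ => abs_nonneg _)
          ((abs_nonneg _).trans (le_max_left _ _))
        exact Finset.prod_le_prod (fun _ _ => abs_nonneg _) fun _ _ => le_max_left _ _
      have h3 := h.lo m hm
      rw [← hLd] at h3
      have h4 : R * (N / L ^ d) ≤ ∏ i, max |(m i : ℝ)| |(n i : ℝ)| :=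
        (mul_le_mul_of_nonneg_left h3 hR0.le).trans h2
      calc 1 / ∏ i, max |(m i : ℝ)| |(n i : ℝ)| ≤ 1 / (R * (N / L ^ d)) :=
            one_div_le_one_div_of_le (by positivity) h4
        _ = W := by rw [hW]; field_simp
    rcases h.sep m hm n hn hmn ⟨0, by omega⟩ with h1 | h1
    · exact key2 m n hm h1
    · have := key2 n m hn h1
      simpa [max_comm] using this

theorem eventually_small (d : ℕ) {K : ℝ} (hK : 0 < K) : ∀ᶠ L : ℝ in atTop,
    Real.exp (2 * L ^ (1 / 4 : ℝ)) * L ^ d * Real.exp (-(L ^ (1 / 2 : ℝ))) ≤ K := by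
  have h1 : Tendsto (fun L : ℝ => L ^ (1 / 4 : ℝ)) atTop atTop := tendsto_rpow_atTop (by norm_num)
  have h2 := (Real.tendsto_pow_mul_exp_neg_atTop_nhds_zero (4 * d)).comp h1
  filter_upwards [h2.eventually (gt_mem_nhds hK), h1.eventually_ge_atTop 3, eventually_ge_atTop 1] with L e1 e2 e3
  have hL0 : 0 < L := by linarith
  set s := L ^ (1 / 4 : ℝ) with hs
  have hs2 : L ^ (1 / 2 : ℝ) = s ^ 2 := by
    rw [hs, ← Real.rpow_natCast, ← Real.rpow_mul hL0.le]; norm_num
  have hs4 : L ^ d = s ^ (4 * d) := by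
    rw [hs, ← Real.rpow_natCast (L ^ (1 / 4 : ℝ)), ← Real.rpow_mul hL0.le, ← Real.rpow_natCast]
    congr 1
    push_cast
    ring
  rw [hs2, hs4]
  simp only [Function.comp] at e1
  calc Real.exp (2 * s) * s ^ (4 * d) * Real.exp (-s ^ 2) = s ^ (4 * d) * Real.exp (2 * s + -s ^ 2) := by
        rw [Real.exp_add]; ring
    _ ≤ s ^ (4 * d) * Real.exp (-s) := by
        gcongr
        nlinarith
    _ ≤ K := e1.le

theorem main_of (hR : Riesz) (hP : ∀ d : ℕ, 2 ≤ d → Prob d) : Main := by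
  classical
  intro d hd χ hχ
  obtain ⟨c, hc, N0, hN0⟩ := hP d hd (1 - χ) (by linarith)
  have hlog : Tendsto (fun N : ℕ => Real.log N) atTop atTop :=
    Real.tendsto_log_atTop.comp tendsto_natCast_atTop_atTop
  have hK : 0 < (1 / (2 * Real.pi)) ^ d * c / 2 := by
    have := Real.pi_pos; positivity
  obtain ⟨N1, hN1⟩ := eventually_atTop.1 ((hlog.eventually (eventually_small d hK)).and
    ((hlog.eventually_ge_atTop 16).and (eventually_ge_atTop (max N0 1))))
  set C1 := (1 / (2 * Real.pi)) ^ d * c / 2 / 2 ^ d with hC1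
  have hC10 : 0 < C1 := by positivity
  set B : ℝ := ∑ N ∈ range N1, |Real.log N ^ (d - 1) * Real.log (Real.log N)| with hB
  have hB0 : 0 ≤ B := Finset.sum_nonneg fun _ _ => abs_nonneg _
  refine ⟨min C1 (1 / (B + 1)), by positivity, fun N => ?_⟩
  rcases Nat.eq_zero_or_pos N with rfl | hNp
  · rw [Nat.cast_zero, zero_pow (by omega), mul_zero]
    positivity
  have hNR : (0 : ℝ) < N := by exact_mod_cast hNp
  rcases lt_or_ge N N1 with hlt | hge
  · have hall : ({a : Fin d → Fin N | min C1 (1 / (B + 1)) * (Real.log N ^ (d - 1) * Real.log (Real.log N)) / N ≤ disc a} :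
        Finset (Fin d → Fin N)) = Finset.univ := by
      rw [Finset.filter_eq_self]
      intro a _
      refine le_trans ?_ (disc_ge (by omega) hNp a)
      gcongr
      have h1 : |Real.log N ^ (d - 1) * Real.log (Real.log N)| ≤ B :=
        Finset.single_le_sum (f := fun N : ℕ => |Real.log N ^ (d - 1) * Real.log (Real.log N)|)
          (fun _ _ => abs_nonneg _) (Finset.mem_range.2 hlt)
      calc min C1 (1 / (B + 1)) * (Real.log N ^ (d - 1) * Real.log (Real.log N))
          ≤ min C1 (1 / (B + 1)) * |Real.log N ^ (d - 1) * Real.log (Real.log N)| := by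
            gcongr
            exact le_abs_self _
        _ ≤ 1 / (B + 1) * B := by
            gcongr
            exact min_le_right _ _
        _ ≤ 1 := by
            rw [one_div_mul_eq_div, div_le_one (by positivity)]; linarith
    rw [hall, Finset.card_univ, Fintype.card_fun, Fintype.card_fin, Fintype.card_fin]
    push_cast
    have : (0 : ℝ) < (N : ℝ) ^ d := by positivity
    nlinarith
  · obtain ⟨e1, e2, e3⟩ := hN1 N hge
    have e4 := hN0 N ((le_max_left _ _).trans e3)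
    set S : Finset (Fin d → Fin N) := {a | min C1 (1 / (B + 1)) * (Real.log N ^ (d - 1) * Real.log (Real.log N)) / N ≤ disc a}
    have hsub : Sᶜ ⊆ ({a : Fin d → Fin N | ¬ ∃ H : Finset (Fin d → ℤ), Good c a H} : Finset (Fin d → Fin N)) := by
      intro a ha
      rw [Finset.mem_compl, Finset.mem_filter, not_and] at ha
      rw [Finset.mem_filter]
      refine ⟨Finset.mem_univ _, ?_⟩
      rintro ⟨H, hH⟩
      apply ha (Finset.mem_univ _)
      refine le_trans ?_ (good_disc hR hd hNp hc e2 e1 hH)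
      have hX : 0 ≤ Real.log N ^ (d - 1) * Real.log (Real.log N) := by
        have : 0 ≤ Real.log (Real.log N) := Real.log_nonneg (by linarith)
        positivity
      gcongr
      exact min_le_left _ _
    have h2 : (#(Sᶜ) : ℝ) ≤ (1 - χ) * (N : ℝ) ^ d := by
      refine le_trans ?_ e4
      exact_mod_cast Finset.card_le_card hsub
    have h3 : (#S : ℝ) + #(Sᶜ) = (N : ℝ) ^ d := by
      have := Finset.card_add_card_compl S
      rw [Fintype.card_fun, Fintype.card_fin, Fintype.card_fin] at this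
      exact_mod_cast this
    linarith

end Pool.Agent.V8H55.LD
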