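import Mathlib

/-!
# A second moment lemma
-/

set_option autoImplicit false
set_option linter.unusedSectionVars false

namespace Pool.Agent.V8H55.LD

open MeasureTheory Set

variable {Ω : Type*} [MeasurableSpace Ω] (μ : Measure Ω) [IsProbabilityMeasure μ] {ι : Type*}
  (I : Finset ι) (E : ι → Set Ω) (w : ι → ℝ)

open Classical in
/-- the weighted number of events -/
noncomputable def wsum (x : Ω) : ℝ := ∑ i ∈ I, w i * (E i).indicator (fun _ => (1 : ℝ)) x

theorem integrable_ind {s : Set Ω} (hs : MeasurableSet s) :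
    Integrable (s.indicator (fun _ => (1 : ℝ))) μ :=
  (integrable_const 1).indicator hs

theorem integral_ind {s : Set Ω} (hs : MeasurableSet s) :
    ∫ x, s.indicator (fun _ => (1 : ℝ)) x ∂μ = μ.real s := by
  rw [integral_indicator hs, setIntegral_const]; simp

theorem ind_mul (s t : Set Ω) (x : Ω) : s.indicator (fun _ => (1 : ℝ)) x * t.indicator (fun _ => (1 : ℝ)) x =
    (s ∩ t).indicator (fun _ => (1 : ℝ)) x := by
  by_cases h1 : x ∈ s <;> by_cases h2 : x ∈ t <;> simp [h1, h2]

variable {E}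

theorem wsum_integrable (hE : ∀ i ∈ I, MeasurableSet (E i)) : Integrable (wsum I E w) μ := by
  unfold wsum
  exact integrable_finsetSum _ fun i hi => (integrable_ind μ (hE i hi)).const_mul _

theorem wsum_integral (hE : ∀ i ∈ I, MeasurableSet (E i)) :
    ∫ x, wsum I E w x ∂μ = ∑ i ∈ I, w i * μ.real (E i) := by
  unfold wsum
  rw [integral_finsetSum _ fun i hi => (integrable_ind μ (hE i hi)).const_mul _]
  refine Finset.sum_congr rfl fun i hi => ?_
  rw [integral_const_mul, integral_ind μ (hE i hi)]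

theorem wsum_sq (x : Ω) : wsum I E w x ^ 2 =
    ∑ i ∈ I, ∑ j ∈ I, w i * w j * (E i ∩ E j).indicator (fun _ => (1 : ℝ)) x := by
  unfold wsum
  rw [sq, Finset.sum_mul_sum]
  refine Finset.sum_congr rfl fun i _ => Finset.sum_congr rfl fun j _ => ?_
  rw [← ind_mul]; ring

theorem sq_integrable (hE : ∀ i ∈ I, MeasurableSet (E i)) : Integrable (fun x => wsum I E w x ^ 2) μ := by
  simp only [wsum_sq]
  exact integrable_finsetSum _ fun i hi => integrable_finsetSum _ fun j hj =>
    (integrable_ind μ ((hE i hi).inter (hE j hj))).const_mul _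

theorem sq_integral (hE : ∀ i ∈ I, MeasurableSet (E i)) : ∫ x, wsum I E w x ^ 2 ∂μ =
    ∑ i ∈ I, ∑ j ∈ I, w i * w j * μ.real (E i ∩ E j) := by
  simp only [wsum_sq]
  rw [integral_finsetSum _ fun i hi => integrable_finsetSum _ fun j hj =>
    (integrable_ind μ ((hE i hi).inter (hE j hj))).const_mul _]
  refine Finset.sum_congr rfl fun i hi => ?_
  rw [integral_finsetSum _ fun j hj => (integrable_ind μ ((hE i hi).inter (hE j hj))).const_mul _]
  refine Finset.sum_congr rfl fun j hj => ?_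
  rw [integral_const_mul, integral_ind μ ((hE i hi).inter (hE j hj))]

theorem cheb (hE : ∀ i ∈ I, MeasurableSet (E i)) (hw : ∀ i ∈ I, 0 ≤ w i)
    (hp : ∀ i ∈ I, ∀ j ∈ I, i ≠ j → μ.real (E i ∩ E j) ≤ μ.real (E i) * μ.real (E j))
    {M : ℝ} (hM : 0 < M) (hMe : M ≤ ∑ i ∈ I, w i * μ.real (E i)) :
    μ.real {x | wsum I E w x ≤ M / 2} ≤ 4 * (∑ i ∈ I, w i ^ 2 * μ.real (E i)) / M ^ 2 := by
  classical
  set M' := ∑ i ∈ I, w i * μ.real (E i) with hM'
  have hM0 : 0 < M' := lt_of_lt_of_le hM hMe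
  set f : Ω → ℝ := fun x => (wsum I E w x - M') ^ 2 with hf
  have hfi : Integrable f μ := by
    have : f = fun x => wsum I E w x ^ 2 - 2 * M' * wsum I E w x + M' ^ 2 := by
      funext x; simp only [hf]; ring
    rw [this]
    exact ((sq_integrable μ I w hE).sub ((wsum_integrable μ I w hE).const_mul _)).add (integrable_const _)
  have hfint : ∫ x, f x ∂μ ≤ ∑ i ∈ I, w i ^ 2 * μ.real (E i) := by
    have h1 : ∫ x, f x ∂μ = ∫ x, wsum I E w x ^ 2 ∂μ - M' ^ 2 := by
      have h8 : ∀ x, f x = (wsum I E w x ^ 2 - 2 * M' * wsum I E w x) + M' ^ 2 := by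
        intro x; simp only [hf]; ring
      have hi1 : Integrable (fun x => wsum I E w x ^ 2 - 2 * M' * wsum I E w x) μ :=
        (sq_integrable μ I w hE).sub ((wsum_integrable μ I w hE).const_mul _)
      have h9 : ∫ x, f x ∂μ = ∫ x, (wsum I E w x ^ 2 - 2 * M' * wsum I E w x) ∂μ + ∫ _x, M' ^ 2 ∂μ := by
        rw [← integral_add hi1 (integrable_const _)]
        exact integral_congr_ae (Filter.Eventually.of_forall h8)
      have h10 : ∫ x, (wsum I E w x ^ 2 - 2 * M' * wsum I E w x) ∂μ =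
          ∫ x, wsum I E w x ^ 2 ∂μ - ∫ x, 2 * M' * wsum I E w x ∂μ :=
        integral_sub (sq_integrable μ I w hE) ((wsum_integrable μ I w hE).const_mul _)
      rw [h9, h10, integral_const_mul, wsum_integral μ I w hE, ← hM']
      simp; ring
    rw [h1, sq_integral μ I w hE]
    have h2 : ∀ i ∈ I, ∑ j ∈ I, w i * w j * μ.real (E i ∩ E j) ≤
        w i ^ 2 * μ.real (E i) + ∑ j ∈ I, w i * w j * (μ.real (E i) * μ.real (E j)) := by
      intro i hi
      rw [← Finset.add_sum_erase _ _ hi, ← Finset.add_sum_erase I (fun j => w i * w j * (μ.real (E i) * μ.real (E j))) hi]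
      have h3 : w i * w i * μ.real (E i ∩ E i) = w i ^ 2 * μ.real (E i) := by rw [inter_self]; ring
      have h4 : 0 ≤ w i * w i * (μ.real (E i) * μ.real (E i)) := by
        have := hw i hi
        positivity
      have h5 : ∑ j ∈ I.erase i, w i * w j * μ.real (E i ∩ E j) ≤
          ∑ j ∈ I.erase i, w i * w j * (μ.real (E i) * μ.real (E j)) := by
        refine Finset.sum_le_sum fun j hj => ?_
        have hj' := Finset.mem_of_mem_erase hj
        exact mul_le_mul_of_nonneg_left (hp i hi j hj' (Finset.ne_of_mem_erase hj).symm)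
          (mul_nonneg (hw i hi) (hw j hj'))
      linarith
    have h6 := Finset.sum_le_sum h2
    rw [Finset.sum_add_distrib] at h6
    have h7 : ∑ i ∈ I, ∑ j ∈ I, w i * w j * (μ.real (E i) * μ.real (E j)) = M' ^ 2 := by
      rw [hM', sq, Finset.sum_mul_sum]
      refine Finset.sum_congr rfl fun i _ => Finset.sum_congr rfl fun j _ => ?_
      ring
    linarith
  have hmk := mul_meas_ge_le_integral_of_nonneg (Filter.Eventually.of_forall fun x => sq_nonneg _) hfi ((M / 2) ^ 2)
  have hsub : {x | wsum I E w x ≤ M / 2} ⊆ {x | (M / 2) ^ 2 ≤ f x} := by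
    intro x hx
    simp only [mem_ofPred_eq, hf] at hx ⊢
    nlinarith
  have hle : μ.real {x | wsum I E w x ≤ M / 2} ≤ μ.real {x | (M / 2) ^ 2 ≤ f x} := measureReal_mono hsub
  rw [le_div_iff₀ (by positivity)]
  have hM2 : 0 < (M / 2) ^ 2 := by positivity
  nlinarith [mul_le_mul_of_nonneg_left hle hM2.le]

theorem markov (hE : ∀ i ∈ I, MeasurableSet (E i)) {B : ℝ} (hB : 0 < B) :
    μ.real {x | B ≤ wsum I E (fun _ => 1) x} ≤ (∑ i ∈ I, μ.real (E i)) / B := by
  have h0 : ∀ x, 0 ≤ wsum I E (fun _ => 1) x := by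
    intro x
    unfold wsum
    refine Finset.sum_nonneg fun i _ => ?_
    rw [one_mul]
    exact indicator_nonneg (fun _ _ => zero_le_one) _
  have hmk := mul_meas_ge_le_integral_of_nonneg (Filter.Eventually.of_forall h0)
    (wsum_integrable μ I (fun _ => 1) hE) B
  rw [wsum_integral μ I _ hE] at hmk
  rw [le_div_iff₀ hB, mul_comm]
  simpa using hmk

end Pool.Agent.V8H55.LD
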