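import Pool.Agent.V8H55.LD.Fam

/-!
# Close pairs
-/

set_option autoImplicit false

namespace Pool.Agent.V8H55.LD

open Finset MeasureTheory

variable {k : ℕ}

theorem cntS {n D : ℕ} (T : Finset (Fin k → ℕ)) (hT : T ⊆ shapes k n) (i : Fin k)
    (h : ∀ s ∈ T, ∀ s' ∈ T, (∀ j, j ≠ i → s j = s' j) → s i < s' i + 2 * D) :
    #T ≤ 2 * D * n ^ (k - 1) := by
  classical
  set t : Finset (Fin k → ℕ) := Fintype.piFinset fun j => if j = i then {n} else Finset.Ico n (2 * n) with ht
  have hct : #t = n ^ (k - 1) := by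
    rw [ht, Fintype.card_piFinset]
    have : ∀ j : Fin k, #(if j = i then ({n} : Finset ℕ) else Finset.Ico n (2 * n)) = if j = i then 1 else n := by
      intro j
      split_ifs
      · simp
      · rw [Nat.card_Ico]; omega
    rw [Finset.prod_congr rfl fun j _ => this j, Finset.prod_ite, Finset.prod_const_one, one_mul,
      Finset.prod_const]
    congr 1
    have : (Finset.univ.filter fun j : Fin k => ¬ j = i) = Finset.univ.erase i := by
      ext j; simp
    rw [this, Finset.card_erase_of_mem (Finset.mem_univ _), Finset.card_univ, Fintype.card_fin]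
  rw [← hct]
  apply Finset.card_le_mul_card_image_of_maps_to (f := fun s => Function.update s i n)
  · intro s hs
    have h1 := hT hs
    unfold shapes at h1
    rw [Fintype.mem_piFinset] at h1
    rw [ht, Fintype.mem_piFinset]
    intro j
    by_cases hj : j = i
    · subst hj; simp
    · simp only [hj, if_false, ne_eq, not_false_eq_true, Function.update_of_ne]
      exact h1 j
  · intro b _
    rcases (T.filter fun s => Function.update s i n = b).eq_empty_or_nonempty with he | he
    · rw [he]; simp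
    · obtain ⟨s0, hs0, hmin⟩ := Finset.exists_min_image _ (fun s : Fin k → ℕ => s i) he
      rw [Finset.mem_filter] at hs0
      have hag : ∀ s ∈ T.filter (fun s => Function.update s i n = b), ∀ j, j ≠ i → s j = s0 j := by
        intro s hs j hj
        rw [Finset.mem_filter] at hs
        have e := hs.2.trans hs0.2.symm
        have := congrFun e j
        simpa [hj] using this
      calc #(T.filter fun s => Function.update s i n = b) ≤ #(Finset.Ico (s0 i) (s0 i + 2 * D)) := by
            apply Finset.card_le_card_of_injOn (fun s => s i)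
            · intro s hs
              rw [Finset.mem_coe] at hs
              rw [Finset.mem_coe, Finset.mem_Ico]
              exact ⟨hmin s hs, h s (Finset.mem_filter.1 hs).1 s0 hs0.1 (hag s hs)⟩
            · intro s hs s' hs' he'
              rw [Finset.mem_coe] at hs hs'
              funext j
              by_cases hj : j = i
              · subst hj; exact he'
              · rw [hag s hs j hj, hag s' hs' j hj]
        _ = 2 * D := by rw [Nat.card_Ico]; omega

/-- near numbers -/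
def near (D a b : ℕ) : Prop := a < b + D ∧ b < a + D

/-- close shapes -/
def close (D : ℕ) (s : Fin k → ℕ) (l : ℕ) (s' : Fin k → ℕ) (l' : ℕ) : Prop :=
  (∃ i, near D (s i) (s' i)) ∨ near D (l + ∑ i, s i) (l' + ∑ i, s' i)

open Classical in
theorem card_close (hk : 2 ≤ k) (n D : ℕ) (s : Fin k → ℕ) (l l' : ℕ) :
    #((shapes k n).filter fun s' => close D s l s' l') ≤ (k + 1) * (2 * D * n ^ (k - 1)) := by
  have h1 : ((shapes k n).filter fun s' => close D s l s' l') ⊆
      (Finset.univ.biUnion fun i : Fin k => (shapes k n).filter fun s' => near D (s i) (s' i)) ∪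
      ((shapes k n).filter fun s' => near D (l + ∑ i, s i) (l' + ∑ i, s' i)) := by
    intro s' hs'
    rw [Finset.mem_filter] at hs'
    rw [Finset.mem_union, Finset.mem_biUnion]
    rcases hs'.2 with ⟨i, hi⟩ | h
    · left; exact ⟨i, Finset.mem_univ _, Finset.mem_filter.2 ⟨hs'.1, hi⟩⟩
    · right; exact Finset.mem_filter.2 ⟨hs'.1, h⟩
  refine (Finset.card_le_card h1).trans ((Finset.card_union_le _ _).trans ?_)
  have h2 : #(Finset.univ.biUnion fun i : Fin k => (shapes k n).filter fun s' => near D (s i) (s' i)) ≤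
      k * (2 * D * n ^ (k - 1)) := by
    refine Finset.card_biUnion_le.trans ?_
    calc ∑ i : Fin k, #((shapes k n).filter fun s' => near D (s i) (s' i))
        ≤ ∑ _i : Fin k, 2 * D * n ^ (k - 1) := by
          refine Finset.sum_le_sum fun i _ => ?_
          apply cntS _ (Finset.filter_subset _ _) i
          intro a ha b hb _
          rw [Finset.mem_filter] at ha hb
          have h3 := ha.2
          have h4 := hb.2
          unfold near at h3 h4
          omega
      _ = k * (2 * D * n ^ (k - 1)) := by simp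
  have h3 : #((shapes k n).filter fun s' => near D (l + ∑ i, s i) (l' + ∑ i, s' i)) ≤ 2 * D * n ^ (k - 1) := by
    apply cntS _ (Finset.filter_subset _ _) (⟨0, by omega⟩ : Fin k)
    intro a ha b hb hab
    rw [Finset.mem_filter] at ha hb
    have h3 := ha.2
    have h4 := hb.2
    have ea := Finset.add_sum_erase Finset.univ a (Finset.mem_univ (⟨0, by omega⟩ : Fin k))
    have eb := Finset.add_sum_erase Finset.univ b (Finset.mem_univ (⟨0, by omega⟩ : Fin k))
    have ec : ∑ j ∈ Finset.univ.erase (⟨0, by omega⟩ : Fin k), a j =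
        ∑ j ∈ Finset.univ.erase (⟨0, by omega⟩ : Fin k), b j :=
      Finset.sum_congr rfl fun j hj => hab j (Finset.ne_of_mem_erase hj)
    unfold near at h3 h4
    omega
  calc _ ≤ k * (2 * D * n ^ (k - 1)) + 2 * D * n ^ (k - 1) := Nat.add_le_add h2 h3
    _ = (k + 1) * (2 * D * n ^ (k - 1)) := by ring

theorem geom (l0 l1 : ℕ) : ∑ l ∈ Finset.Ico l0 l1, (1 : ℝ) / 2 ^ l ≤ 2 / 2 ^ l0 := by
  rcases le_or_gt l1 l0 with h | h
  · rw [Finset.Ico_eq_empty_of_le h, Finset.sum_empty]; positivity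
  · obtain ⟨q, rfl⟩ := Nat.exists_eq_add_of_le h.le
    clear h
    have : ∑ l ∈ Finset.Ico l0 (l0 + q), (1 : ℝ) / 2 ^ l = 2 / 2 ^ l0 - 2 / 2 ^ (l0 + q) := by
      induction q with
      | zero => simp
      | succ q ih =>
        rw [← add_assoc, Finset.sum_Ico_succ_top (by omega), ih, pow_succ]
        field_simp
        ring
    rw [this]
    have : (0 : ℝ) < 2 / 2 ^ (l0 + q) := by positivity
    linarith

namespace Fam

variable {g n l0 l1 : ℕ} {α : Fin k → ℤ} (A : Fam k g n l0 l1 α)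

/-- the bad pairs -/
def bad3 (D : ℕ) : Set (Fin k → ℝ) := {x | ∃ t ∈ A.idx, ∃ t' ∈ A.idx, t.2.1 ≠ t'.2.1 ∧
  close D t.1 t.2.2 t'.1 t'.2.2 ∧ x ∈ evi g t ∧ x ∈ evi g t'}

theorem bad3_le (hk : 2 ≤ k) (hg : 0 < g) (hl : 1 ≤ l0) (D : ℕ) :
    (cube k).real (A.bad3 D) ≤ (k + 1) * (2 * D) * n ^ (2 * k - 1) / (16 * 4 ^ l0) := by
  classical
  set P := (A.idx ×ˢ A.idx).filter fun p => p.1.2.1 ≠ p.2.2.1 ∧ close D p.1.1 p.1.2.2 p.2.1 p.2.2.2 with hP
  have h1 : A.bad3 D ⊆ ⋃ p ∈ P, (evi g p.1 ∩ evi g p.2) := by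
    rintro x ⟨t, ht, t', ht', hm, hc, hx, hx'⟩
    rw [Set.mem_iUnion₂]
    exact ⟨(t, t'), Finset.mem_filter.2 ⟨Finset.mem_product.2 ⟨ht, ht'⟩, hm, hc⟩, hx, hx'⟩
  have h2 : (cube k).real (A.bad3 D) ≤ ∑ p ∈ P, (cube k).real (evi g p.1 ∩ evi g p.2) :=
    (measureReal_mono h1 (measure_ne_top _ _)).trans (measureReal_biUnion_finset_le _ _)
  have h3 : ∑ p ∈ P, (cube k).real (evi g p.1 ∩ evi g p.2) ≤
      ∑ t ∈ A.idx, ∑ t' ∈ A.idx, if close D t.1 t.2.2 t'.1 t'.2.2 then dl g t.1 t.2.2 * dl g t'.1 t'.2.2 else 0 := by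
    rw [← Finset.sum_product', hP, Finset.sum_filter]
    refine Finset.sum_le_sum fun p hp => ?_
    rw [Finset.mem_product] at hp
    have hp1 := dl_pos hg p.1.1 p.1.2.2
    have hp2 := dl_pos hg p.2.1 p.2.2.2
    split_ifs with h5 h6
    · have hne : p.1 ≠ p.2 := fun he => h5.1 (by rw [he])
      have := A.pair hk hg hl hp.1 hp.2 hne
      rwa [A.prob hk hg hl hp.1, A.prob hk hg hl hp.2] at this
    · exact absurd h5.2 h6
    · positivity
    · exact le_rfl
  have hG := geom l0 l1
  set G := ∑ l ∈ Finset.Ico l0 l1, (1 : ℝ) / 2 ^ l with hGd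
  have hG0 : 0 ≤ G := Finset.sum_nonneg fun _ _ => by positivity
  have h4 : ∀ t ∈ A.idx, (∑ t' ∈ A.idx, if close D t.1 t.2.2 t'.1 t'.2.2 then dl g t.1 t.2.2 * dl g t'.1 t'.2.2 else 0) ≤
      dl g t.1 t.2.2 * (G / 8 * ((k + 1) * (2 * D * n ^ (k - 1)))) := by
    intro t _
    have e1 : (∑ t' ∈ A.idx, if close D t.1 t.2.2 t'.1 t'.2.2 then dl g t.1 t.2.2 * dl g t'.1 t'.2.2 else 0) =
        dl g t.1 t.2.2 * ∑ t' ∈ A.idx, if close D t.1 t.2.2 t'.1 t'.2.2 then dl g t'.1 t'.2.2 else 0 := by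
      rw [Finset.mul_sum]
      refine Finset.sum_congr rfl fun t' _ => ?_
      split_ifs <;> simp
    rw [e1]
    refine mul_le_mul_of_nonneg_left ?_ (dl_pos hg _ _).le
    rw [A.sum_idx]
    have e2 : ∀ s ∈ shapes k n, (∑ m ∈ A.F s, ∑ l ∈ Finset.Ico l0 l1,
        if close D t.1 t.2.2 s l then dl g s l else 0) =
        ∑ l ∈ Finset.Ico l0 l1, if close D t.1 t.2.2 s l then 1 / (8 * 2 ^ l) else (0 : ℝ) := by
      intro s hs
      rw [Finset.sum_const, nsmul_eq_mul, Finset.mul_sum]
      refine Finset.sum_congr rfl fun l _ => ?_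
      split_ifs
      · exact A.card_F hg hs l
      · simp
    rw [Finset.sum_congr rfl e2, Finset.sum_comm]
    have e3 : ∀ l ∈ Finset.Ico l0 l1, (∑ s ∈ shapes k n, if close D t.1 t.2.2 s l then 1 / (8 * 2 ^ l) else (0 : ℝ)) ≤
        (1 / 2 ^ l) * (1 / 8 * ((k + 1) * (2 * D * n ^ (k - 1)))) := by
      intro l _
      rw [← Finset.sum_filter, Finset.sum_const, nsmul_eq_mul]
      have := card_close hk n D t.1 t.2.2 l
      have h6 : ((#((shapes k n).filter fun s' => close D t.1 t.2.2 s' l) : ℕ) : ℝ) ≤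
          (k + 1) * (2 * D * n ^ (k - 1)) := by exact_mod_cast this
      calc _ ≤ ((k : ℝ) + 1) * (2 * D * n ^ (k - 1)) * (1 / (8 * 2 ^ l)) := by gcongr
        _ = _ := by field_simp
    refine (Finset.sum_le_sum e3).trans ?_
    rw [← Finset.sum_mul, ← hGd]
    apply le_of_eq
    ring
  have h5 : ∑ t ∈ A.idx, dl g t.1 t.2.2 = n ^ k * (G / 8) := by
    have := A.sum_w hk hg hl (fun _ => 1)
    rw [hGd, Finset.sum_div]
    calc ∑ t ∈ A.idx, dl g t.1 t.2.2 = ∑ t ∈ A.idx, 1 * (cube k).real (evi g t) :=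
          Finset.sum_congr rfl fun t ht => by rw [A.prob hk hg hl ht, one_mul]
      _ = _ := this
      _ = _ := by
          congr 1
          refine Finset.sum_congr rfl fun l _ => ?_
          field_simp
  calc (cube k).real (A.bad3 D) ≤ _ := h2
    _ ≤ _ := h3
    _ ≤ ∑ t ∈ A.idx, dl g t.1 t.2.2 * (G / 8 * ((k + 1) * (2 * D * n ^ (k - 1)))) := Finset.sum_le_sum h4
    _ = n ^ k * (G / 8) * (G / 8 * ((k + 1) * (2 * D * n ^ (k - 1)))) := by rw [← Finset.sum_mul, h5]
    _ ≤ n ^ k * ((2 / 2 ^ l0) / 8) * ((2 / 2 ^ l0) / 8 * ((k + 1) * (2 * D * n ^ (k - 1)))) := by gcongr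
    _ = _ := by
        have e1 : (n : ℝ) ^ (2 * k - 1) = n ^ k * n ^ (k - 1) := by
          rw [← pow_add]; congr 1; omega
        have e2 : (4 : ℝ) ^ l0 = 2 ^ l0 * 2 ^ l0 := by rw [← mul_pow]; norm_num
        rw [e1, e2]
        field_simp
        ring

end Fam

end Pool.Agent.V8H55.LD
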