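import Pool.Agent.V8H55.LD.Close

/-!
# The good set of a typical point
-/

set_option autoImplicit false

namespace Pool.Agent.V8H55.LD

open Finset MeasureTheory

variable {k : ℕ}

/-- the vector with its nearest integer below -/
noncomputable def wv (x : Fin k → ℝ) (t : (Fin k → ℕ) × (Fin k → ℕ) × ℕ) : (Fin k → ℤ) × ℤ :=
  (zv t.2.1, ⌊∑ i, ((zv t.2.1 i : ℤ) : ℝ) * x i⌋)

theorem prd_wv (x : Fin k → ℝ) (t : (Fin k → ℕ) × (Fin k → ℕ) × ℕ) : prd (wv x t) = ∏ i, (t.2.1 i : ℝ) := by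
  unfold prd wv zv
  refine Finset.prod_congr rfl fun i _ => ?_
  simp

theorem del_wv (x : Fin k → ℝ) (t : (Fin k → ℕ) × (Fin k → ℕ) × ℕ) :
    del x (wv x t) = Int.fract (∑ i, ((zv t.2.1 i : ℤ) : ℝ) * x i) := by
  unfold del wv
  simp only
  rw [← Int.fract, abs_of_nonneg (Int.fract_nonneg _)]

theorem prod_two (s : Fin k → ℕ) : (0 : ℝ) < ∏ i, (2 : ℝ) ^ s i := Finset.prod_pos fun _ _ => by positivity

theorem prd_bounds {g : ℕ} {s m : Fin k → ℕ} (h : m ∈ box g s) :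
    (g : ℝ) ^ k * ∏ i, (2 : ℝ) ^ s i ≤ ∏ i, (m i : ℝ) ∧
      ∏ i, (m i : ℝ) ≤ 2 ^ k * ((g : ℝ) ^ k * ∏ i, (2 : ℝ) ^ s i) := by
  rw [mem_box] at h
  constructor
  · calc (g : ℝ) ^ k * ∏ i, (2 : ℝ) ^ s i = ∏ i, ((g : ℝ) * 2 ^ s i) := by
          rw [Finset.prod_mul_distrib, Finset.prod_const, Finset.card_univ, Fintype.card_fin]
      _ ≤ _ := Finset.prod_le_prod (fun _ _ => by positivity) fun i _ => by exact_mod_cast (h i).1
  · calc ∏ i, (m i : ℝ) ≤ ∏ i, (2 * ((g : ℝ) * 2 ^ s i)) :=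
          Finset.prod_le_prod (fun _ _ => by positivity) fun i _ => by exact_mod_cast (h i).2.le
      _ = _ := by
          rw [Finset.prod_mul_distrib, Finset.prod_mul_distrib, Finset.prod_const, Finset.prod_const,
            Finset.card_univ, Fintype.card_fin]

theorem dl_mul {g : ℕ} (hg : 0 < g) (hk : 2 ≤ k) (s : Fin k → ℕ) (l : ℕ) :
    dl g s l * ((g : ℝ) ^ k * ∏ i, (2 : ℝ) ^ s i) = g / 2 ^ l := by
  unfold dl
  have h1 := prod_two s
  have h2 : (0 : ℝ) < g := by exact_mod_cast hg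
  have h3 : (g : ℝ) ^ k = g ^ (k - 1) * g := by rw [← pow_succ]; congr 1; omega
  rw [h3]
  field_simp

namespace Fam

variable {g n l0 l1 : ℕ} {α : Fin k → ℤ} (A : Fam k g n l0 l1 α)

open Classical in
/-- the active indices -/
noncomputable def act (x : Fin k → ℝ) : Finset ((Fin k → ℕ) × (Fin k → ℕ) × ℕ) :=
  A.idx.filter fun t => x ∈ evi g t

theorem mem_act {x : Fin k → ℝ} {t : (Fin k → ℕ) × (Fin k → ℕ) × ℕ} : t ∈ A.act x ↔ t ∈ A.idx ∧ x ∈ evi g t := by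
  classical
  simp [act]

theorem wsum_act (f : ℕ → ℝ) (x : Fin k → ℝ) :
    wsum A.idx (evi g) (fun t => f t.2.2) x = ∑ t ∈ A.act x, f t.2.2 := by
  classical
  unfold wsum act
  rw [Finset.sum_filter]
  refine Finset.sum_congr rfl fun t _ => ?_
  by_cases h : x ∈ evi g t <;> simp [h]

variable (hk : 2 ≤ k) (hg : 0 < g) (hl : 1 ≤ l0)
include hk hg hl

theorem act_inj (x : Fin k → ℝ) : Set.InjOn (fun t => t.2.1) (A.act x : Set ((Fin k → ℕ) × (Fin k → ℕ) × ℕ)) := by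
  intro t ht t' ht' h
  rw [Finset.mem_coe, A.mem_act] at ht ht'
  by_contra hne
  exact (Set.disjoint_left.1 (A.same_m hk hg hl ht.1 ht'.1 h hne)) ht.2 ht'.2

omit hl in
theorem bounds {x : Fin k → ℝ} {t : (Fin k → ℕ) × (Fin k → ℕ) × ℕ} (h : t ∈ A.act x) :
    (g : ℝ) / 2 ^ t.2.2 ≤ del x (wv x t) * prd (wv x t) ∧
      del x (wv x t) * prd (wv x t) ≤ 2 ^ (k + 1) * (g / 2 ^ t.2.2) := by
  rw [A.mem_act] at h
  have hb := prd_bounds (A.box_of h.1).1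
  have hd := dl_mul hg hk t.1 t.2.2
  have hx := h.2
  unfold evi ev at hx
  rw [Set.mem_ofPred_eq, Set.mem_Ico] at hx
  have hp := dl_pos hg t.1 t.2.2
  have hP : (0 : ℝ) < (g : ℝ) ^ k * ∏ i, (2 : ℝ) ^ t.1 i := by
    have := prod_two t.1
    have : (0 : ℝ) < g := by exact_mod_cast hg
    positivity
  rw [prd_wv, del_wv, ← hd]
  constructor
  · exact mul_le_mul hx.1 hb.1 hP.le (hp.le.trans hx.1)
  · calc Int.fract (∑ i, ((zv t.2.1 i : ℤ) : ℝ) * x i) * ∏ i, (t.2.1 i : ℝ)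
        ≤ (2 * dl g t.1 t.2.2) * (2 ^ k * ((g : ℝ) ^ k * ∏ i, (2 : ℝ) ^ t.1 i)) :=
          mul_le_mul hx.2.le hb.2 (hP.le.trans hb.1) (by positivity)
      _ = _ := by rw [pow_succ]; ring

theorem good {c L : ℝ} {D : ℕ} {x : Fin k → ℝ} (hL : 2 ≤ L)
    (H2 : (2 : ℝ) ^ l1 ≤ L ^ k) (H3 : k + 2 ≤ l0)
    (H4 : (g : ℝ) * 2 ^ (2 * n) ≤ Real.exp (L / (8 * k)))
    (H5 : 2 * Real.exp (2 * L ^ (1 / 2 : ℝ)) ≤ 2 ^ D)
    (H6 : c * (L ^ k * Real.log L) ≤ (n : ℝ) ^ k * (l1 - l0 : ℕ) / 2 ^ (k + 5))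
    (h1 : (n : ℝ) ^ k * (l1 - l0 : ℕ) / 8 / 2 ≤ wsum A.idx (evi g) (fun t => 2 ^ t.2.2) x)
    (h2 : wsum A.idx (evi g) (fun _ => 1) x ≤ L ^ (1 / 4 : ℝ))
    (h3 : x ∉ A.bad3 D) :
    ∃ V : Finset ((Fin k → ℤ) × ℤ), GoodR c L g α x V := by
  classical
  have hgR : (0 : ℝ) < g := by exact_mod_cast hg
  refine ⟨(A.act x).image (wv x), ?_⟩
  have hmem : ∀ w ∈ (A.act x).image (wv x), ∃ t ∈ A.act x, wv x t = w := fun w hw => Finset.mem_image.1 hw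
  have hsp : ∀ t ∈ A.act x, ∀ t' ∈ A.act x, wv x t ≠ wv x t' → ¬ close D t.1 t.2.2 t'.1 t'.2.2 := by
    intro t ht t' ht' hne hc
    rw [A.mem_act] at ht ht'
    apply h3
    refine ⟨t, ht.1, t', ht'.1, fun he => hne ?_, hc, ht.2, ht'.2⟩
    unfold wv
    rw [he]
  have hinj : Set.InjOn (wv x) (A.act x : Set ((Fin k → ℕ) × (Fin k → ℕ) × ℕ)) := by
    intro t ht t' ht' h
    apply A.act_inj hk hg hl x ht ht'
    have := congrArg Prod.fst h
    unfold wv zv at this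
    simp only at this
    funext i
    have := congrFun this i
    exact_mod_cast this
  constructor
  · intro w hw
    obtain ⟨t, ht, rfl⟩ := hmem w hw
    rw [A.mem_act] at ht
    have := (A.box_of ht.1).2.1
    unfold inL at this
    exact this
  · intro w hw i
    obtain ⟨t, ht, rfl⟩ := hmem w hw
    rw [A.mem_act] at ht
    have := A.pos_of hg ht.1 i
    unfold wv zv
    simp only
    omega
  · intro w hw i
    obtain ⟨t, ht, rfl⟩ := hmem w hw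
    rw [A.mem_act] at ht
    have h5 := (mem_box.1 (A.box_of ht.1).1 i).2
    have h6 := (A.mem_idx.1 ht.1).1
    unfold shapes at h6
    rw [Fintype.mem_piFinset] at h6
    have h7 := Finset.mem_Ico.1 (h6 i)
    have h8 : 2 * (g * 2 ^ t.1 i) ≤ g * 2 ^ (2 * n) := by
      have : 2 ^ (t.1 i + 1) ≤ 2 ^ (2 * n) := Nat.pow_le_pow_right (by norm_num) (by omega)
      calc 2 * (g * 2 ^ t.1 i) = g * 2 ^ (t.1 i + 1) := by rw [pow_succ]; ring
        _ ≤ _ := Nat.mul_le_mul_left _ this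
    have h9 : ((t.2.1 i : ℕ) : ℝ) ≤ (g : ℝ) * 2 ^ (2 * n) := by exact_mod_cast (h5.le.trans h8)
    have e : |((wv x t).1 i : ℝ)| = (t.2.1 i : ℝ) := by unfold wv zv; simp
    rw [e]
    exact h9.trans H4
  · intro w hw
    obtain ⟨t, ht, rfl⟩ := hmem w hw
    refine le_trans ?_ (A.bounds hk hg ht).1
    rw [A.mem_act] at ht
    have h5 := (A.mem_idx.1 ht.1).2.2.2
    have h6 : (2 : ℝ) ^ t.2.2 ≤ L ^ k := (pow_le_pow_right₀ (by norm_num) h5.le).trans H2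
    have h7 : (0 : ℝ) < L := by linarith
    rw [div_le_div_iff₀ (by positivity) (by positivity), pow_succ]
    calc 2 * (g : ℝ) * 2 ^ t.2.2 ≤ 2 * g * L ^ k := by gcongr
      _ = g * (L ^ k * 2) := by ring
      _ ≤ g * (L ^ k * L) := by gcongr
  · intro w hw
    obtain ⟨t, ht, rfl⟩ := hmem w hw
    refine (A.bounds hk hg ht).2.trans ?_
    rw [A.mem_act] at ht
    have h5 := (A.mem_idx.1 ht.1).2.2.1
    have h6 : (2 : ℝ) ^ (k + 2) ≤ 2 ^ t.2.2 := pow_le_pow_right₀ (by norm_num) (H3.trans h5)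
    rw [mul_div_assoc', div_le_div_iff₀ (by positivity) (by norm_num)]
    calc (2 : ℝ) ^ (k + 1) * g * 2 = g * 2 ^ (k + 2) := by ring
      _ ≤ g * 2 ^ t.2.2 := by gcongr
  · intro w hw w' hw' hne i
    obtain ⟨t, ht, rfl⟩ := hmem w hw
    obtain ⟨t', ht', rfl⟩ := hmem w' hw'
    have hnc := hsp t ht t' ht' hne
    rw [A.mem_act] at ht ht'
    have hi : ¬ near D (t.1 i) (t'.1 i) := fun h => hnc (Or.inl ⟨i, h⟩)
    have e : ∀ t : (Fin k → ℕ) × (Fin k → ℕ) × ℕ, |((wv x t).1 i : ℝ)| = (t.2.1 i : ℝ) := by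
      intro t; unfold wv zv; simp
    rw [e, e]
    have key : ∀ t t' : (Fin k → ℕ) × (Fin k → ℕ) × ℕ, t ∈ A.idx → t' ∈ A.idx → t.1 i + D ≤ t'.1 i →
        Real.exp (2 * L ^ (1 / 2 : ℝ)) * (t.2.1 i : ℝ) ≤ (t'.2.1 i : ℝ) := by
      intro t t' ht ht' hD
      have h5 := (mem_box.1 (A.box_of ht).1 i).2
      have h6 := (mem_box.1 (A.box_of ht').1 i).1
      have h7 : (t.2.1 i : ℝ) ≤ 2 * (g * 2 ^ t.1 i) := by exact_mod_cast h5.le
      have h8 : (g : ℝ) * 2 ^ t'.1 i ≤ t'.2.1 i := by exact_mod_cast h6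
      calc Real.exp (2 * L ^ (1 / 2 : ℝ)) * (t.2.1 i : ℝ)
          ≤ Real.exp (2 * L ^ (1 / 2 : ℝ)) * (2 * (g * 2 ^ t.1 i)) := by gcongr
        _ = (2 * Real.exp (2 * L ^ (1 / 2 : ℝ))) * (g * 2 ^ t.1 i) := by ring
        _ ≤ 2 ^ D * (g * 2 ^ t.1 i) := by gcongr
        _ = g * 2 ^ (t.1 i + D) := by rw [pow_add]; ring
        _ ≤ g * 2 ^ t'.1 i := by
            gcongr
            · norm_num
        _ ≤ _ := h8
    unfold near at hi
    rcases le_or_gt (t.1 i + D) (t'.1 i) with h5 | h5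
    · left; exact key t t' ht.1 ht'.1 h5
    · right
      apply key t' t ht'.1 ht.1
      omega
  · intro w hw w' hw' hne
    obtain ⟨t, ht, rfl⟩ := hmem w hw
    obtain ⟨t', ht', rfl⟩ := hmem w' hw'
    have hnc := hsp t ht t' ht' hne
    rw [A.mem_act] at ht ht'
    have hi : ¬ near D (t.2.2 + ∑ i, t.1 i) (t'.2.2 + ∑ i, t'.1 i) := fun h => hnc (Or.inr h)
    have key : ∀ t t' : (Fin k → ℕ) × (Fin k → ℕ) × ℕ, x ∈ evi g t → x ∈ evi g t' →
        t.2.2 + ∑ i, t.1 i + D ≤ t'.2.2 + ∑ i, t'.1 i →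
        Real.exp (2 * L ^ (1 / 2 : ℝ)) * del x (wv x t') ≤ del x (wv x t) := by
      intro t t' hx hx' hD
      unfold evi ev at hx hx'
      rw [Set.mem_ofPred_eq, Set.mem_Ico] at hx hx'
      rw [del_wv, del_wv]
      have e5 : ∀ t : (Fin k → ℕ) × (Fin k → ℕ) × ℕ, dl g t.1 t.2.2 =
          1 / (2 ^ (t.2.2 + ∑ i, t.1 i) * (g : ℝ) ^ (k - 1)) := by
        intro t
        unfold dl
        rw [pow_add, ← Finset.prod_pow_eq_pow_sum]
      have h9 : 2 ^ D * dl g t'.1 t'.2.2 ≤ dl g t.1 t.2.2 := by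
        rw [e5, e5, mul_one_div, div_le_div_iff₀ (by positivity) (by positivity), one_mul]
        have : (2 : ℝ) ^ D * 2 ^ (t.2.2 + ∑ i, t.1 i) ≤ 2 ^ (t'.2.2 + ∑ i, t'.1 i) := by
          rw [← pow_add]
          exact pow_le_pow_right₀ (by norm_num) (by omega)
        calc (2 : ℝ) ^ D * (2 ^ (t.2.2 + ∑ i, t.1 i) * (g : ℝ) ^ (k - 1))
            = 2 ^ D * 2 ^ (t.2.2 + ∑ i, t.1 i) * (g : ℝ) ^ (k - 1) := by ring
          _ ≤ _ := by gcongr
      have hp := dl_pos hg t'.1 t'.2.2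
      calc Real.exp (2 * L ^ (1 / 2 : ℝ)) * Int.fract (∑ i, ((zv t'.2.1 i : ℤ) : ℝ) * x i)
          ≤ Real.exp (2 * L ^ (1 / 2 : ℝ)) * (2 * dl g t'.1 t'.2.2) := by
            gcongr
            exact hx'.2.le
        _ = (2 * Real.exp (2 * L ^ (1 / 2 : ℝ))) * dl g t'.1 t'.2.2 := by ring
        _ ≤ 2 ^ D * dl g t'.1 t'.2.2 := by gcongr
        _ ≤ _ := h9.trans hx.1
    unfold near at hi
    rcases le_or_gt (t.2.2 + ∑ i, t.1 i + D) (t'.2.2 + ∑ i, t'.1 i) with h5 | h5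
    · right; exact key t t' ht.2 ht'.2 h5
    · left
      apply key t' t ht'.2 ht.2
      omega
  · have h5 := A.wsum_act (fun _ => 1) x
    rw [h5] at h2
    simp only [Finset.sum_const, nsmul_eq_mul, mul_one] at h2
    exact (by exact_mod_cast Finset.card_image_le : ((#((A.act x).image (wv x)) : ℕ) : ℝ) ≤ #(A.act x)).trans h2
  · rw [Finset.sum_image (fun t ht t' ht' h => hinj ht ht' h)]
    have h5 := A.wsum_act (fun l => 2 ^ l) x
    rw [h5] at h1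
    have h6 : ∀ t ∈ A.act x, (2 : ℝ) ^ t.2.2 / 2 ^ (k + 1) ≤ g / (del x (wv x t) * prd (wv x t)) := by
      intro t ht
      have hb := A.bounds hk hg ht
      have hpos : 0 < del x (wv x t) * prd (wv x t) := lt_of_lt_of_le (by positivity) hb.1
      rw [div_le_div_iff₀ (by positivity) hpos]
      calc (2 : ℝ) ^ t.2.2 * (del x (wv x t) * prd (wv x t)) ≤ 2 ^ t.2.2 * (2 ^ (k + 1) * (g / 2 ^ t.2.2)) :=
            mul_le_mul_of_nonneg_left hb.2 (by positivity)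
        _ = _ := by field_simp
    calc c * (L ^ k * Real.log L) ≤ (n : ℝ) ^ k * (l1 - l0 : ℕ) / 2 ^ (k + 5) := H6
      _ = ((n : ℝ) ^ k * (l1 - l0 : ℕ) / 8 / 2) / 2 ^ (k + 1) := by
          rw [pow_add, pow_add]; field_simp; norm_num
      _ ≤ (∑ t ∈ A.act x, (2 : ℝ) ^ t.2.2) / 2 ^ (k + 1) := by gcongr
      _ = ∑ t ∈ A.act x, (2 : ℝ) ^ t.2.2 / 2 ^ (k + 1) := by rw [Finset.sum_div]
      _ ≤ _ := Finset.sum_le_sum h6

omit hk hg hl in
theorem geom2 (a b : ℕ) : ∑ l ∈ Finset.Ico a b, (2 : ℝ) ^ l ≤ 2 ^ b := by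
  rcases le_or_gt b a with h | h
  · rw [Finset.Ico_eq_empty_of_le h, Finset.sum_empty]; positivity
  · obtain ⟨q, rfl⟩ := Nat.exists_eq_add_of_le h.le
    clear h
    have : ∑ l ∈ Finset.Ico a (a + q), (2 : ℝ) ^ l = 2 ^ (a + q) - 2 ^ a := by
      induction q with
      | zero => simp
      | succ q ih =>
        rw [← add_assoc, Finset.sum_Ico_succ_top (by omega), ih, pow_succ]
        ring
    rw [this]
    have : (0 : ℝ) < 2 ^ a := by positivity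
    linarith

include A in
theorem prob_bad {c L : ℝ} {D : ℕ} (hL : 2 ≤ L) (hn : 0 < n) (hll : l0 < l1)
    (H2 : (2 : ℝ) ^ l1 ≤ L ^ k) (H3 : k + 2 ≤ l0)
    (H4 : (g : ℝ) * 2 ^ (2 * n) ≤ Real.exp (L / (8 * k)))
    (H5 : 2 * Real.exp (2 * L ^ (1 / 2 : ℝ)) ≤ 2 ^ D)
    (H6 : c * (L ^ k * Real.log L) ≤ (n : ℝ) ^ k * (l1 - l0 : ℕ) / 2 ^ (k + 5)) :
    (cube k).real {x | ¬ ∃ V : Finset ((Fin k → ℤ) × ℤ), GoodR c L g α x V} ≤
      32 * L ^ k / ((n : ℝ) ^ k * (l1 - l0 : ℕ) ^ 2) + (n : ℝ) ^ k / (4 * 2 ^ l0) / L ^ (1 / 4 : ℝ) +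
        (k + 1) * (2 * D) * n ^ (2 * k - 1) / (16 * 4 ^ l0) := by
  classical
  have hLp : (0 : ℝ) < L := by linarith
  have hnR : (0 : ℝ) < n := by exact_mod_cast hn
  have hdR : (0 : ℝ) < (l1 - l0 : ℕ) := by exact_mod_cast (Nat.sub_pos_of_lt hll)
  set M : ℝ := (n : ℝ) ^ k * (l1 - l0 : ℕ) / 8 with hM
  have hMp : 0 < M := by positivity
  have hE : ∀ t ∈ A.idx, MeasurableSet (evi g t) := fun t _ => measurable_ev _ _ _
  have hsub : {x | ¬ ∃ V : Finset ((Fin k → ℤ) × ℤ), GoodR c L g α x V} ⊆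
      ({x | wsum A.idx (evi g) (fun t => 2 ^ t.2.2) x ≤ M / 2} ∪
        {x | L ^ (1 / 4 : ℝ) ≤ wsum A.idx (evi g) (fun _ => 1) x}) ∪ A.bad3 D := by
    intro x hx
    by_contra hcon
    simp only [Set.mem_union, Set.mem_ofPred_eq, not_or, not_le] at hcon
    exact hx (A.good hk hg hl hL H2 H3 H4 H5 H6 hcon.1.1.le hcon.1.2.le hcon.2)
  have h1 := measureReal_mono (μ := cube k) hsub (measure_ne_top _ _)
  have h2 := measureReal_union_le (μ := cube k) ({x | wsum A.idx (evi g) (fun t => 2 ^ t.2.2) x ≤ M / 2} ∪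
        {x | L ^ (1 / 4 : ℝ) ≤ wsum A.idx (evi g) (fun _ => 1) x}) (A.bad3 D)
  have h3 := measureReal_union_le (μ := cube k) {x | wsum A.idx (evi g) (fun t => 2 ^ t.2.2) x ≤ M / 2}
        {x | L ^ (1 / 4 : ℝ) ≤ wsum A.idx (evi g) (fun _ => 1) x}
  have hmean : M ≤ ∑ t ∈ A.idx, (2 : ℝ) ^ t.2.2 * (cube k).real (evi g t) := by
    have := A.sum_w hk hg hl (fun l => 2 ^ l)
    rw [this]
    have e : ∀ l ∈ Finset.Ico l0 l1, (2 : ℝ) ^ l / (8 * 2 ^ l) = 1 / 8 := by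
      intro l _; field_simp
    rw [Finset.sum_congr rfl e, Finset.sum_const, Nat.card_Ico, nsmul_eq_mul, hM]
    apply le_of_eq; ring
  have h4 := cheb (cube k) A.idx (fun t => (2 : ℝ) ^ t.2.2) hE (fun _ _ => by positivity)
    (fun t ht t' ht' hne => A.pair hk hg hl ht ht' hne) hMp hmean
  have hsq : ∑ t ∈ A.idx, ((2 : ℝ) ^ t.2.2) ^ 2 * (cube k).real (evi g t) ≤ n ^ k * (L ^ k / 8) := by
    have := A.sum_w hk hg hl (fun l => ((2 : ℝ) ^ l) ^ 2)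
    rw [this]
    have e : ∀ l ∈ Finset.Ico l0 l1, ((2 : ℝ) ^ l) ^ 2 / (8 * 2 ^ l) = 2 ^ l / 8 := by
      intro l _; field_simp
    rw [Finset.sum_congr rfl e, ← Finset.sum_div]
    have := geom2 l0 l1
    gcongr
    exact this.trans H2
  have h5 := markov (cube k) A.idx hE (B := L ^ (1 / 4 : ℝ)) (by positivity)
  have hone : ∑ t ∈ A.idx, (cube k).real (evi g t) ≤ n ^ k / (4 * 2 ^ l0) := by
    have := A.sum_w hk hg hl (fun _ => 1)
    simp only [one_mul] at this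
    rw [this]
    have e : ∀ l ∈ Finset.Ico l0 l1, (1 : ℝ) / (8 * 2 ^ l) = (1 / 2 ^ l) / 8 := by
      intro l _; field_simp
    rw [Finset.sum_congr rfl e, ← Finset.sum_div]
    calc (n : ℝ) ^ k * ((∑ l ∈ Finset.Ico l0 l1, (1 : ℝ) / 2 ^ l) / 8) ≤ n ^ k * ((2 / 2 ^ l0) / 8) := by
          gcongr
          exact geom l0 l1
      _ = _ := by field_simp; ring
  have h6 := A.bad3_le hk hg hl D
  have h7 : 4 * (∑ t ∈ A.idx, ((2 : ℝ) ^ t.2.2) ^ 2 * (cube k).real (evi g t)) / M ^ 2 ≤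
      32 * L ^ k / ((n : ℝ) ^ k * (l1 - l0 : ℕ) ^ 2) := by
    calc 4 * (∑ t ∈ A.idx, ((2 : ℝ) ^ t.2.2) ^ 2 * (cube k).real (evi g t)) / M ^ 2
        ≤ 4 * (n ^ k * (L ^ k / 8)) / M ^ 2 := by gcongr
      _ = _ := by rw [hM]; field_simp; ring
  have h8 : (∑ t ∈ A.idx, (cube k).real (evi g t)) / L ^ (1 / 4 : ℝ) ≤ n ^ k / (4 * 2 ^ l0) / L ^ (1 / 4 : ℝ) := by
    gcongr
  linarith

end Fam

end Pool.Agent.V8H55.LD
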