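import Mathlib

/-!
# Independence of linear forms on the torus
-/

set_option autoImplicit false

namespace Pool.Agent.V8H55.LD

open MeasureTheory Set

/-- the arc -/
def arc (a b : ℝ) : Set UnitAddCircle := {t | ((AddCircle.equivIco (1 : ℝ) 0 t : Ico (0:ℝ) (0+1)) : ℝ) ∈ Ico a b}

theorem mem_arc (a b y : ℝ) : ((y : ℝ) : UnitAddCircle) ∈ arc a b ↔ Int.fract y ∈ Ico a b := by
  have := AddCircle.coe_equivIco_mk_apply (p := (1:ℝ)) y
  unfold arc
  rw [mem_ofPred_eq]
  have h2 : (((AddCircle.equivIco (1 : ℝ) 0) ((y : ℝ) : UnitAddCircle) : Ico (0:ℝ) (0+1)) : ℝ) = Int.fract y := by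
    rw [this]; simp
  rw [h2]

theorem measurable_arc (a b : ℝ) : MeasurableSet (arc a b) := by
  have h : Measurable (fun t : UnitAddCircle => ((AddCircle.equivIco (1 : ℝ) 0 t : Ico (0:ℝ) (0+1)) : ℝ)) :=
    measurable_subtype_coe.comp (AddCircle.measurableEquivIco (1:ℝ) 0).measurable
  exact h measurableSet_Ico

theorem volume_arc {a b : ℝ} (ha : 0 ≤ a) (hb : b ≤ 1) : volume (arc a b) = ENNReal.ofReal (b - a) := by
  rw [← (UnitAddCircle.measurePreserving_mk 0).measure_preimage (measurable_arc a b).nullMeasurableSet]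
  rw [Measure.restrict_apply (measurable_arc a b |>.preimage (UnitAddCircle.measurePreserving_mk 0).measurable)]
  rw [← Real.volume_Ico]
  apply measure_congr
  have h1 : ((fun y : ℝ => (y : UnitAddCircle)) ⁻¹' arc a b ∩ Ioc 0 (0 + 1) : Set ℝ) =ᵐ[volume] (Ico a b ∩ Ico 0 1 : Set ℝ) := by
    have h0 : (Ioc (0:ℝ) (0+1)) =ᵐ[volume] (Ico 0 1 : Set ℝ) := by
      rw [zero_add]
      exact (Ioo_ae_eq_Ioc.symm.trans Ioo_ae_eq_Ico)
    refine (Filter.EventuallyEq.inter (Filter.EventuallyEq.refl _ _) h0).trans ?_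
    have : ((fun y : ℝ => (y : UnitAddCircle)) ⁻¹' arc a b ∩ Ico 0 1 : Set ℝ) = Ico a b ∩ Ico 0 1 := by
      ext y
      simp only [mem_inter_iff, mem_preimage, mem_arc, and_congr_left_iff]
      intro hy
      rw [Int.fract_eq_self.2 ⟨hy.1, hy.2⟩]
    rw [this]
  refine h1.trans ?_
  rw [inter_eq_left.2 (Ico_subset_Ico ha hb)]

variable {k : ℕ}

/-- the uniform measure on the cube -/
noncomputable abbrev cube (k : ℕ) : Measure (Fin k → ℝ) :=
  Measure.pi fun _ : Fin k => (volume : Measure ℝ).restrict (Ioc 0 1)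

instance : IsProbabilityMeasure ((volume : Measure ℝ).restrict (Ioc 0 1)) :=
  ⟨by simp⟩

/-- the quotient map -/
noncomputable def quo (x : Fin k → ℝ) : Fin k → UnitAddCircle := fun i => (x i : UnitAddCircle)

theorem quo_mp : MeasurePreserving (quo (k := k)) (cube k) volume := by
  have h : MeasurePreserving ((↑) : ℝ → UnitAddCircle) ((volume : Measure ℝ).restrict (Ioc 0 1)) volume := by
    have := UnitAddCircle.measurePreserving_mk 0
    rwa [zero_add] at this
  exact measurePreserving_pi (fun _ : Fin k => (volume : Measure ℝ).restrict (Ioc 0 1))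
    (fun _ : Fin k => (volume : Measure UnitAddCircle)) (fun _ => h)

/-- the linear form on the torus -/
noncomputable def lin (m : Fin k → ℤ) : (Fin k → UnitAddCircle) →+ UnitAddCircle where
  toFun z := ∑ i, m i • z i
  map_zero' := by simp
  map_add' z w := by simp [Finset.sum_add_distrib]

theorem lin_cont (m : Fin k → ℤ) : Continuous (lin m) := by
  show Continuous fun z : Fin k → UnitAddCircle => ∑ i, m i • z i
  exact continuous_finsetSum _ fun i _ => (continuous_zsmul (m i)).comp
    (show Continuous fun z : Fin k → UnitAddCircle => z i from continuous_apply i)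

theorem lin_quo (m : Fin k → ℤ) (x : Fin k → ℝ) :
    lin m (quo x) = ((∑ i, (m i : ℝ) * x i : ℝ) : UnitAddCircle) := by
  have : ((∑ i, (m i : ℝ) * x i : ℝ) : UnitAddCircle) = ∑ i, (((m i : ℝ) * x i : ℝ) : UnitAddCircle) := by
    exact map_sum (QuotientAddGroup.mk' (AddSubgroup.zmultiples (1:ℝ))) _ _
  rw [this]
  unfold lin quo
  simp only [AddMonoidHom.coe_mk, ZeroHom.coe_mk]
  refine Finset.sum_congr rfl fun i _ => ?_
  rw [← zsmul_eq_mul]
  exact (AddCircle.coe_zsmul (p := (1:ℝ))).symm

/-- the pair of forms -/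
noncomputable def lin2 (m n : Fin k → ℤ) : (Fin k → UnitAddCircle) →+ UnitAddCircle × UnitAddCircle :=
  (lin m).prod (lin n)

theorem lin2_surj (m n : Fin k → ℤ) {i j : Fin k} (h : m i * n j - m j * n i ≠ 0) :
    Function.Surjective (lin2 m n) := by
  rintro ⟨y, z⟩
  obtain ⟨y, rfl⟩ := QuotientAddGroup.mk_surjective y
  obtain ⟨z, rfl⟩ := QuotientAddGroup.mk_surjective z
  have hij : i ≠ j := by rintro rfl; apply h; ring
  set D : ℝ := ((m i * n j - m j * n i : ℤ) : ℝ) with hD
  have hD0 : D ≠ 0 := by rw [hD]; exact_mod_cast h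
  set x : Fin k → ℝ := fun l => if l = i then (n j * y - m j * z) / D else if l = j then
    (m i * z - n i * y) / D else 0 with hx
  have key : ∀ q : Fin k → ℤ, ∑ l, (q l : ℝ) * x l =
      q i * ((n j * y - m j * z) / D) + q j * ((m i * z - n i * y) / D) := by
    intro q
    have : ∑ l, (q l : ℝ) * x l = ∑ l ∈ ({i, j} : Finset (Fin k)), (q l : ℝ) * x l := by
      symm
      apply Finset.sum_subset (Finset.subset_univ _)
      intro l _ hl
      simp only [Finset.mem_insert, Finset.mem_singleton, not_or] at hl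
      simp [hx, hl.1, hl.2]
    rw [this, Finset.sum_pair hij]
    simp [hx, hij.symm]
  refine ⟨quo x, ?_⟩
  unfold lin2
  rw [AddMonoidHom.prod_apply, lin_quo, lin_quo, key, key]
  have e1 : (m i : ℝ) * ((n j * y - m j * z) / D) + m j * ((m i * z - n i * y) / D) = y := by
    have : (m i : ℝ) * ((n j * y - m j * z) / D) + m j * ((m i * z - n i * y) / D) = y * D / D := by
      rw [hD]; push_cast; ring
    rw [this, mul_div_cancel_right₀ _ hD0]
  have e2 : (n i : ℝ) * ((n j * y - m j * z) / D) + n j * ((m i * z - n i * y) / D) = z := by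
    have : (n i : ℝ) * ((n j * y - m j * z) / D) + n j * ((m i * z - n i * y) / D) = z * D / D := by
      rw [hD]; push_cast; ring
    rw [this, mul_div_cancel_right₀ _ hD0]
  rw [e1, e2]

/-- the event -/
def ev (m : Fin k → ℤ) (a b : ℝ) : Set (Fin k → ℝ) := {x | Int.fract (∑ i, (m i : ℝ) * x i) ∈ Ico a b}

theorem measurable_ev (m : Fin k → ℤ) (a b : ℝ) : MeasurableSet (ev m a b) := by
  have h : Measurable fun x : Fin k → ℝ => Int.fract (∑ i, (m i : ℝ) * x i) := by fun_prop
  exact h measurableSet_Ico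

theorem ev_eq (m : Fin k → ℤ) (a b : ℝ) : ev m a b = quo ⁻¹' (lin m ⁻¹' arc a b) := by
  ext x
  simp only [ev, mem_ofPred_eq, mem_preimage, lin_quo, mem_arc]

instance haar2 : (volume : Measure (UnitAddCircle × UnitAddCircle)).IsAddHaarMeasure := by
  have : (volume : Measure (UnitAddCircle × UnitAddCircle)) = (volume : Measure UnitAddCircle).prod volume := rfl
  rw [this]
  infer_instance

theorem univ_pi : (volume : Measure (Fin k → UnitAddCircle)) univ = 1 := by
  rw [volume_pi, Measure.pi_univ]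
  simp

theorem univ_two : (volume : Measure (UnitAddCircle × UnitAddCircle)) univ = 1 := by
  have : (volume : Measure (UnitAddCircle × UnitAddCircle)) = (volume : Measure UnitAddCircle).prod volume := rfl
  rw [this, ← Set.univ_prod_univ, Measure.prod_prod]
  simp

theorem cube_ev2 (m n : Fin k → ℤ) {i j : Fin k} (h : m i * n j - m j * n i ≠ 0) {a b a' b' : ℝ}
    (ha : 0 ≤ a) (hb : b ≤ 1) (ha' : 0 ≤ a') (hb' : b' ≤ 1) :
    cube k (ev m a b ∩ ev n a' b') = ENNReal.ofReal (b - a) * ENNReal.ofReal (b' - a') := by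
  have h1 : ev m a b ∩ ev n a' b' = quo ⁻¹' (lin2 m n ⁻¹' (arc a b ×ˢ arc a' b')) := by
    rw [ev_eq, ev_eq]
    ext x
    simp [lin2]
  have hm : MeasurableSet (arc a b ×ˢ arc a' b') := (measurable_arc a b).prod (measurable_arc a' b')
  have hc : Continuous (lin2 m n) := by
    unfold lin2
    exact (lin_cont m).prodMk (lin_cont n)
  have hmp : MeasurePreserving (lin2 m n) volume volume :=
    AddMonoidHom.measurePreserving hc (lin2_surj m n h) (by rw [univ_pi, univ_two])
  rw [h1, quo_mp.measure_preimage (hc.measurable hm).nullMeasurableSet,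
    hmp.measure_preimage hm.nullMeasurableSet]
  have : (volume : Measure (UnitAddCircle × UnitAddCircle)) = (volume : Measure UnitAddCircle).prod volume := rfl
  rw [this, Measure.prod_prod, volume_arc ha hb, volume_arc ha' hb']

theorem lin_surj (m : Fin k → ℤ) {i : Fin k} (h : m i ≠ 0) : Function.Surjective (lin m) := by
  intro y
  obtain ⟨y, rfl⟩ := QuotientAddGroup.mk_surjective y
  have h' : (m i : ℝ) ≠ 0 := by exact_mod_cast h
  refine ⟨quo (fun l => if l = i then y / m i else 0), ?_⟩
  rw [lin_quo]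
  have : ∑ l, (m l : ℝ) * (if l = i then y / m i else 0) = y := by
    rw [Finset.sum_eq_single i]
    · simp only [if_true]; field_simp
    · intro l _ hl; simp [hl]
    · simp
  rw [this]

theorem cube_ev (m : Fin k → ℤ) {i : Fin k} (h : m i ≠ 0) {a b : ℝ}
    (ha : 0 ≤ a) (hb : b ≤ 1) : cube k (ev m a b) = ENNReal.ofReal (b - a) := by
  have hmp : MeasurePreserving (lin m) volume volume :=
    AddMonoidHom.measurePreserving (lin_cont m) (lin_surj m h) (by rw [univ_pi]; simp)
  rw [ev_eq, quo_mp.measure_preimage ((lin_cont m).measurable (measurable_arc a b)).nullMeasurableSet,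
    hmp.measure_preimage (measurable_arc a b).nullMeasurableSet, volume_arc ha hb]

theorem cube_eq (s : Set (Fin k → ℝ)) :
    volume {x : Fin k → ℝ | (∀ i, x i ∈ Icc (0 : ℝ) 1) ∧ x ∈ s} = cube k s := by
  have h1 : cube k = (volume : Measure (Fin k → ℝ)).restrict (Set.pi univ fun _ => Ioc 0 1) := by
    unfold cube
    rw [← Measure.restrict_pi_pi]; rfl
  have h2 : (Set.pi univ fun _ : Fin k => Ioc (0:ℝ) 1) =ᵐ[volume] Icc (fun _ => 0) (fun _ => 1) :=
    Measure.univ_pi_Ioc_ae_eq_Icc
  rw [h1, Measure.restrict_congr_set h2, Measure.restrict_apply' measurableSet_Icc]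
  congr 1
  ext x
  simp only [mem_ofPred_eq, mem_inter_iff, mem_Icc, Pi.le_def]
  constructor
  · rintro ⟨h, hs⟩; exact ⟨hs, fun i => (h i).1, fun i => (h i).2⟩
  · rintro ⟨hs, h, h'⟩; exact ⟨fun i => ⟨h i, h' i⟩, hs⟩

end Pool.Agent.V8H55.LD
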