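import Pool.Agent.V8H55.LD.Prim2
import Pool.Agent.V8H55.LD.Tor
import Pool.Agent.V8H55.LD.Cheb
import Pool.Agent.V8H55.LD.Stm

/-!
# The family of events
-/

set_option autoImplicit false

namespace Pool.Agent.V8H55.LD

open Finset MeasureTheory

variable {k : ℕ}

/-- the length of the interval -/
noncomputable def dl (g : ℕ) (s : Fin k → ℕ) (l : ℕ) : ℝ := 1 / (2 ^ l * (∏ i, (2 : ℝ) ^ s i) * (g : ℝ) ^ (k - 1))

/-- a vector with integer entries -/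
def zv (m : Fin k → ℕ) : Fin k → ℤ := fun i => (m i : ℤ)

/-- the event -/
def evi (g : ℕ) (t : (Fin k → ℕ) × (Fin k → ℕ) × ℕ) : Set (Fin k → ℝ) :=
  ev (zv t.2.1) (dl g t.1 t.2.2) (2 * dl g t.1 t.2.2)

theorem dl_pos {g : ℕ} (hg : 0 < g) (s : Fin k → ℕ) (l : ℕ) : 0 < dl g s l := by
  unfold dl
  have : (0 : ℝ) < ∏ i, (2 : ℝ) ^ s i := Finset.prod_pos fun _ _ => by positivity
  have : (0 : ℝ) < g := by exact_mod_cast hg
  positivity

theorem one_le_prod (s : Fin k → ℕ) : (1 : ℝ) ≤ ∏ i, (2 : ℝ) ^ s i := by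
  rw [← Finset.prod_const_one (s := (Finset.univ : Finset (Fin k)))]
  exact Finset.prod_le_prod (fun _ _ => zero_le_one) fun i _ => one_le_pow₀ (by norm_num)

theorem dl_le {g : ℕ} (hg : 0 < g) (s : Fin k → ℕ) {l : ℕ} (hl : 1 ≤ l) : 2 * dl g s l ≤ 1 := by
  unfold dl
  have h1 := one_le_prod s
  have h2 : (1 : ℝ) ≤ (g : ℝ) ^ (k - 1) := one_le_pow₀ (by exact_mod_cast hg)
  have h3 : (2 : ℝ) ≤ 2 ^ l := by
    calc (2 : ℝ) = 2 ^ 1 := by norm_num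
      _ ≤ 2 ^ l := pow_le_pow_right₀ (by norm_num) hl
  rw [mul_one_div, div_le_one (by positivity)]
  calc (2 : ℝ) ≤ 2 ^ l * 1 * 1 := by linarith
    _ ≤ 2 ^ l * (∏ i, (2 : ℝ) ^ s i) * (g : ℝ) ^ (k - 1) := by gcongr

theorem shape_unique {g : ℕ} {s s' m : Fin k → ℕ} (h : m ∈ box g s) (h' : m ∈ box g s') : s = s' := by
  rw [mem_box] at h h'
  funext i
  have h1 := h i
  have h2 := h' i
  rcases lt_trichotomy (s i) (s' i) with hlt | heq | hlt
  · have : 2 ^ (s i + 1) ≤ 2 ^ s' i := Nat.pow_le_pow_right (by norm_num) hlt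
    rw [pow_succ] at this
    have : g * (2 ^ s i * 2) ≤ g * 2 ^ s' i := Nat.mul_le_mul_left _ this
    nlinarith
  · exact heq
  · have : 2 ^ (s' i + 1) ≤ 2 ^ s i := Nat.pow_le_pow_right (by norm_num) hlt
    rw [pow_succ] at this
    have : g * (2 ^ s' i * 2) ≤ g * 2 ^ s i := Nat.mul_le_mul_left _ this
    nlinarith

theorem dl_two {g : ℕ} (hg : 0 < g) (s : Fin k → ℕ) {l l' : ℕ} (h : l < l') : 2 * dl g s l' ≤ dl g s l := by
  unfold dl
  have h1 := one_le_prod s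
  have h2 : (0 : ℝ) < (g : ℝ) ^ (k - 1) := pow_pos (by exact_mod_cast hg) _
  have h3 : (2 : ℝ) ^ l * 2 ≤ 2 ^ l' := by
    rw [← pow_succ]; exact pow_le_pow_right₀ (by norm_num) h
  rw [mul_one_div, div_le_div_iff₀ (by positivity) (by positivity), one_mul]
  calc 2 * (2 ^ l * (∏ i, (2 : ℝ) ^ s i) * (g : ℝ) ^ (k - 1))
      = (2 ^ l * 2) * (∏ i, (2 : ℝ) ^ s i) * (g : ℝ) ^ (k - 1) := by ring
    _ ≤ 2 ^ l' * (∏ i, (2 : ℝ) ^ s i) * (g : ℝ) ^ (k - 1) := by gcongr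

/-- The data of the family. -/
structure Fam (k g n l0 l1 : ℕ) (α : Fin k → ℤ) where
  F : (Fin k → ℕ) → Finset (Fin k → ℕ)
  hF : ∀ s ∈ Fintype.piFinset (fun _ : Fin k => Finset.Ico n (2 * n)), ∀ m ∈ F s, m ∈ box g s ∧ prim g α m
  hc : ∀ s ∈ Fintype.piFinset (fun _ : Fin k => Finset.Ico n (2 * n)), 8 * #(F s) = g ^ (k - 1) * ∏ i, 2 ^ s i

/-- the shapes -/
def shapes (k n : ℕ) : Finset (Fin k → ℕ) := Fintype.piFinset (fun _ : Fin k => Finset.Ico n (2 * n))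

theorem card_shapes (k n : ℕ) : #(shapes k n) = n ^ k := by
  unfold shapes
  rw [Fintype.card_piFinset]
  simp [Nat.card_Ico, two_mul]

theorem exists_Fam {g n : ℕ} (l0 l1 : ℕ) (hg : 0 < g) (hk : 2 ≤ k) (α : Fin k → ℤ) (h440 : 440 * g ≤ 2 ^ n) :
    Nonempty (Fam k g n l0 l1 α) := by
  classical
  have h : ∀ s : Fin k → ℕ, s ∈ Fintype.piFinset (fun _ : Fin k => Finset.Ico n (2 * n)) →
      ∃ F : Finset (Fin k → ℕ), (∀ m ∈ F, m ∈ box g s ∧ prim g α m) ∧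
      8 * #F = g ^ (k - 1) * ∏ i, 2 ^ s i := by
    intro s hs
    rw [Fintype.mem_piFinset] at hs
    refine exists_fam hg hk α s fun i => h440.trans ?_
    exact Nat.pow_le_pow_right (by norm_num) (Finset.mem_Ico.1 (hs i)).1
  choose! F h1 h2 using h
  exact ⟨⟨F, h1, h2⟩⟩

namespace Fam

variable {g n l0 l1 : ℕ} {α : Fin k → ℤ} (A : Fam k g n l0 l1 α)

open Classical in
/-- the index set -/
noncomputable def idx : Finset ((Fin k → ℕ) × (Fin k → ℕ) × ℕ) :=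
  (shapes k n).biUnion fun s => (A.F s ×ˢ Finset.Ico l0 l1).image fun p => (s, p.1, p.2)

theorem mem_idx {t : (Fin k → ℕ) × (Fin k → ℕ) × ℕ} :
    t ∈ A.idx ↔ t.1 ∈ shapes k n ∧ t.2.1 ∈ A.F t.1 ∧ l0 ≤ t.2.2 ∧ t.2.2 < l1 := by
  classical
  unfold idx
  rw [Finset.mem_biUnion]
  constructor
  · rintro ⟨s, hs, h⟩
    rw [Finset.mem_image] at h
    obtain ⟨p, hp, rfl⟩ := h
    rw [Finset.mem_product, Finset.mem_Ico] at hp
    exact ⟨hs, hp.1, hp.2.1, hp.2.2⟩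
  · rintro ⟨h1, h2, h3, h4⟩
    refine ⟨t.1, h1, ?_⟩
    rw [Finset.mem_image]
    exact ⟨(t.2.1, t.2.2), by rw [Finset.mem_product, Finset.mem_Ico]; exact ⟨h2, h3, h4⟩, rfl⟩

theorem sum_idx (f : (Fin k → ℕ) × (Fin k → ℕ) × ℕ → ℝ) :
    ∑ t ∈ A.idx, f t = ∑ s ∈ shapes k n, ∑ m ∈ A.F s, ∑ l ∈ Finset.Ico l0 l1, f (s, m, l) := by
  classical
  unfold idx
  rw [Finset.sum_biUnion]
  · refine Finset.sum_congr rfl fun s _ => ?_
    rw [Finset.sum_image, Finset.sum_product]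
    rintro ⟨a, b⟩ _ ⟨a', b'⟩ _ h
    simp only [Prod.mk.injEq, true_and] at h ⊢
    exact h
  · intro s _ s' _ hne
    rw [Function.onFun, Finset.disjoint_left]
    intro t ht ht'
    rw [Finset.mem_image] at ht ht'
    obtain ⟨p, -, rfl⟩ := ht
    obtain ⟨p', -, h⟩ := ht'
    exact hne (congrArg Prod.fst h).symm

theorem box_of {t : (Fin k → ℕ) × (Fin k → ℕ) × ℕ} (h : t ∈ A.idx) : t.2.1 ∈ box g t.1 ∧ prim g α t.2.1 := by
  obtain ⟨h1, h2, -, -⟩ := A.mem_idx.1 h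
  exact A.hF _ h1 _ h2

theorem pos_of (hg : 0 < g) {t : (Fin k → ℕ) × (Fin k → ℕ) × ℕ} (h : t ∈ A.idx) (i : Fin k) : 0 < t.2.1 i := by
  have := (mem_box.1 (A.box_of h).1 i).1
  have : 0 < g * 2 ^ t.1 i := by positivity
  omega

variable (hk : 2 ≤ k) (hg : 0 < g) (hl : 1 ≤ l0)
include hk hg hl

theorem prob {t : (Fin k → ℕ) × (Fin k → ℕ) × ℕ} (h : t ∈ A.idx) : (cube k).real (evi g t) = dl g t.1 t.2.2 := by
  have hm : (zv t.2.1) (⟨0, by omega⟩ : Fin k) ≠ 0 := by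
    have := A.pos_of hg h (⟨0, by omega⟩ : Fin k)
    unfold zv
    omega
  have h1 := dl_pos hg t.1 t.2.2
  have h2 := dl_le hg t.1 (hl.trans (A.mem_idx.1 h).2.2.1)
  unfold evi
  rw [measureReal_def, cube_ev _ hm h1.le h2, ENNReal.toReal_ofReal (by linarith)]
  ring

theorem same_m {t t' : (Fin k → ℕ) × (Fin k → ℕ) × ℕ} (h : t ∈ A.idx) (h' : t' ∈ A.idx)
    (hm : t.2.1 = t'.2.1) (hne : t ≠ t') : Disjoint (evi g t) (evi g t') := by
  have hs : t.1 = t'.1 := shape_unique (A.box_of h).1 (hm ▸ (A.box_of h').1)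
  have hl' : t.2.2 ≠ t'.2.2 := by
    intro he
    apply hne
    obtain ⟨a, b, c⟩ := t
    obtain ⟨a', b', c'⟩ := t'
    simp only at hs hm he
    rw [hs, hm, he]
  rw [Set.disjoint_left]
  intro x hx hx'
  unfold evi ev at hx hx'
  rw [Set.mem_ofPred_eq, Set.mem_Ico] at hx hx'
  rw [hm, hs] at hx
  rcases lt_or_gt_of_ne hl' with hlt | hlt
  · have := dl_two hg t'.1 hlt
    linarith [hx.1, hx'.2]
  · have := dl_two hg t'.1 hlt
    linarith [hx'.1, hx.2]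

theorem pair {t t' : (Fin k → ℕ) × (Fin k → ℕ) × ℕ} (h : t ∈ A.idx) (h' : t' ∈ A.idx)
    (hne : t ≠ t') : (cube k).real (evi g t ∩ evi g t') ≤ (cube k).real (evi g t) * (cube k).real (evi g t') := by
  by_cases hm : t.2.1 = t'.2.1
  · have := A.same_m hk hg hl h h' hm hne
    rw [Set.disjoint_iff_inter_eq_empty.1 this]
    simp only [measureReal_empty]
    positivity
  · have hnp : ∃ j : Fin k, t.2.1 ⟨0, by omega⟩ * t'.2.1 j ≠ t.2.1 j * t'.2.1 ⟨0, by omega⟩ := by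
      by_contra hcon
      push Not at hcon
      exact hm (nonpar (A.box_of h).2 (A.box_of h').2 (A.pos_of hg h) (A.pos_of hg h') _ hcon)
    obtain ⟨j, hj⟩ := hnp
    have hj' : (zv t.2.1) (⟨0, by omega⟩ : Fin k) * (zv t'.2.1) j -
        (zv t.2.1) j * (zv t'.2.1) (⟨0, by omega⟩ : Fin k) ≠ 0 := by
      unfold zv
      intro h0
      apply hj
      have : (t.2.1 ⟨0, by omega⟩ : ℤ) * (t'.2.1 j : ℤ) = (t.2.1 j : ℤ) * (t'.2.1 ⟨0, by omega⟩ : ℤ) := by linarith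
      exact_mod_cast this
    rw [A.prob hk hg hl h, A.prob hk hg hl h']
    have h1 := dl_pos hg t.1 t.2.2
    have h2 := dl_le hg t.1 (hl.trans (A.mem_idx.1 h).2.2.1)
    have h1' := dl_pos hg t'.1 t'.2.2
    have h2' := dl_le hg t'.1 (hl.trans (A.mem_idx.1 h').2.2.1)
    unfold evi
    rw [measureReal_def, cube_ev2 _ _ hj' h1.le h2 h1'.le h2', ENNReal.toReal_mul,
      ENNReal.toReal_ofReal (by linarith), ENNReal.toReal_ofReal (by linarith)]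
    apply le_of_eq
    ring

omit hk hl in
theorem card_F {s : Fin k → ℕ} (hs : s ∈ shapes k n) (l : ℕ) : (#(A.F s) : ℝ) * dl g s l = 1 / (8 * 2 ^ l) := by
  have h := A.hc s hs
  have h' : (8 : ℝ) * #(A.F s) = (g : ℝ) ^ (k - 1) * ∏ i, (2 : ℝ) ^ s i := by exact_mod_cast h
  unfold dl
  have h1 : (0 : ℝ) < ∏ i, (2 : ℝ) ^ s i := Finset.prod_pos fun _ _ => by positivity
  have h2 : (0 : ℝ) < (g : ℝ) ^ (k - 1) := pow_pos (by exact_mod_cast hg) _
  rw [mul_one_div, div_eq_div_iff (by positivity) (by positivity)]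
  calc (#(A.F s) : ℝ) * (8 * 2 ^ l) = (8 * #(A.F s)) * 2 ^ l := by ring
    _ = _ := by rw [h']; ring

theorem sum_w (f : ℕ → ℝ) : ∑ t ∈ A.idx, f t.2.2 * (cube k).real (evi g t) =
    n ^ k * ∑ l ∈ Finset.Ico l0 l1, f l / (8 * 2 ^ l) := by
  rw [Finset.sum_congr rfl fun t ht => by rw [A.prob hk hg hl ht], A.sum_idx]
  have h1 : ∀ s ∈ shapes k n, ∑ m ∈ A.F s, ∑ l ∈ Finset.Ico l0 l1, f l * dl g s l =
      ∑ l ∈ Finset.Ico l0 l1, f l / (8 * 2 ^ l) := by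
    intro s hs
    rw [Finset.sum_const, nsmul_eq_mul, Finset.mul_sum]
    refine Finset.sum_congr rfl fun l _ => ?_
    have := A.card_F hg hs l
    rw [div_eq_mul_one_div, ← this]; ring
  rw [Finset.sum_congr rfl h1, Finset.sum_const, card_shapes, nsmul_eq_mul]
  push_cast
  rfl

end Fam

end Pool.Agent.V8H55.LD
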