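import Pool.Agent.V8H55.LD.Core

/-!
# The real statement for `k ≥ 2`
-/

set_option autoImplicit false

namespace Pool.Agent.V8H55.LD

open Finset MeasureTheory Filter

theorem tend_rpow_neg (a : ℝ) (ha : 0 < a) (C : ℝ) {δ : ℝ} (hδ : 0 < δ) : ∀ᶠ L : ℝ in atTop, C * L ^ (-a) ≤ δ := by
  have h : Tendsto (fun L : ℝ => C * L ^ (-a)) atTop (nhds (C * 0)) :=
    (tendsto_rpow_neg_atTop ha).const_mul C
  rw [mul_zero] at h
  exact (h.eventually (gt_mem_nhds hδ)).mono fun _ h => h.le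

theorem tend_log (C : ℝ) {δ : ℝ} (hδ : 0 < δ) : ∀ᶠ L : ℝ in atTop, C / Real.log L ^ 2 ≤ δ := by
  have h : Tendsto (fun L : ℝ => C / Real.log L ^ 2) atTop (nhds 0) := by
    apply Tendsto.div_atTop tendsto_const_nhds
    exact (tendsto_pow_atTop (by norm_num)).comp Real.tendsto_log_atTop
  exact (h.eventually (gt_mem_nhds hδ)).mono fun _ h => h.le

theorem two_pow_exp (n : ℕ) : (2 : ℝ) ^ n = Real.exp (n * Real.log 2) := by
  rw [mul_comm, Real.exp_mul, Real.exp_log (by norm_num), Real.rpow_natCast]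

theorem exp7 : (440 : ℝ) ≤ Real.exp 7 := by
  have h := Real.exp_one_gt_d9
  have : Real.exp 7 = Real.exp 1 ^ 7 := by rw [← Real.exp_nat_mul]; norm_num
  rw [this]
  calc (440 : ℝ) ≤ 2.7 ^ 7 := by norm_num
    _ ≤ Real.exp 1 ^ 7 := by gcongr; linarith

theorem realStm_ge_two (k : ℕ) (hk : 2 ≤ k) : RealStm k := by
  intro ε hε _Z
  have hkR : (2 : ℝ) ≤ k := by exact_mod_cast hk
  have hk0 : (0 : ℝ) < k := by linarith
  set Q : ℝ := (64 * (k : ℝ)) ^ k with hQ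
  have hQ0 : 0 < Q := by positivity
  refine ⟨1 / (40 * Q * 2 ^ (k + 5)), by positivity, ?_⟩
  have ev1 := tend_log (32 * Q * 1600) (δ := ε / 3) (by positivity)
  have ev2 := tend_rpow_neg (1 / 5) (by norm_num) (1 / 4) (δ := ε / 3) (by positivity)
  have ev3 := tend_rpow_neg (1 / 20) (by norm_num) ((k + 1) / 8) (δ := ε / 3) (by positivity)
  have ev4 : ∀ᶠ L : ℝ in atTop, 10 ≤ L ^ (7 / 20 : ℝ) := (tendsto_rpow_atTop (by norm_num)).eventually_ge_atTop 10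
  have ev5 : ∀ᶠ L : ℝ in atTop, 80 ≤ Real.log L := Real.tendsto_log_atTop.eventually_ge_atTop 80
  have ev6 : ∀ᶠ L : ℝ in atTop, 1000 * (k : ℝ) ≤ L := eventually_ge_atTop _
  obtain ⟨L0, hL0⟩ := eventually_atTop.1 (ev1.and (ev2.and (ev3.and (ev4.and (ev5.and ev6)))))
  refine ⟨L0, fun L hL g hg1 hgL α _ => ?_⟩
  obtain ⟨e1, e2, e3, e4, e5, e6⟩ := hL0 L hL
  have hg : 0 < g := hg1
  have hL1 : (2000 : ℝ) ≤ L := by linarith
  have hL0' : (0 : ℝ) < L := by linarith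
  set y : ℝ := L / k with hy
  have hy1000 : 1000 ≤ y := by rw [hy, le_div_iff₀ hk0]; exact e6
  have hLy : L = y * k := by rw [hy]; field_simp
  set n := ⌊y / 32⌋₊ with hn
  set l1 := ⌊k * Real.logb 2 L⌋₊ with hl1
  set l0 := ⌈(k - 1 / 20) * Real.logb 2 L⌉₊ with hl0
  set D := ⌊L ^ (17 / 20 : ℝ)⌋₊ with hD
  have hl2 : 0.6931 < Real.log 2 := by have := Real.log_two_gt_d9; linarith
  have hl2' : Real.log 2 < 0.6932 := by have := Real.log_two_lt_d9; linarith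
  have hlogb : Real.log L ≤ Real.logb 2 L := by
    rw [Real.logb, le_div_iff₀ (by linarith)]
    nlinarith
  have hn1 : (n : ℝ) ≤ y / 32 := Nat.floor_le (by positivity)
  have hn2 : y / 32 - 1 < n := Nat.sub_one_lt_floor _
  have hn0 : 0 < n := by
    have : (0 : ℝ) < n := by linarith
    exact_mod_cast this
  have hnL : L / (64 * k) ≤ n := by
    have : L / (64 * k) = y / 64 := by rw [hy]; field_simp
    rw [this]; linarith
  have h440 : 440 * g ≤ 2 ^ n := by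
    have h1 : (440 : ℝ) * g ≤ 2 ^ n := by
      have hg' : (g : ℝ) ≤ Real.exp (y / 100) := by
        refine hgL.trans (le_of_eq ?_)
        rw [hy]; congr 1; field_simp
      calc (440 : ℝ) * g ≤ Real.exp 7 * Real.exp (y / 100) := mul_le_mul exp7 hg' (by positivity) (by positivity)
        _ = Real.exp (7 + y / 100) := by rw [Real.exp_add]
        _ ≤ Real.exp (n * Real.log 2) := by
            apply Real.exp_le_exp.2
            nlinarith
        _ = 2 ^ n := (two_pow_exp n).symm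
    exact_mod_cast h1
  have hlb : 0 ≤ Real.logb 2 L := by linarith
  have hb1 : (l1 : ℝ) ≤ k * Real.logb 2 L := Nat.floor_le (by positivity)
  have hb2 : k * Real.logb 2 L - 1 < l1 := Nat.sub_one_lt_floor _
  have hb3 : (k - 1 / 20) * Real.logb 2 L ≤ l0 := Nat.le_ceil _
  have hb4 : (l0 : ℝ) < (k - 1 / 20) * Real.logb 2 L + 1 := by
    apply Nat.ceil_lt_add_one
    have : (0 : ℝ) ≤ k - 1 / 20 := by linarith
    positivity
  have hdiff : Real.log L / 40 ≤ (l1 : ℝ) - l0 := by nlinarith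
  have hll : l0 < l1 := by
    have : (l0 : ℝ) < l1 := by linarith
    exact_mod_cast this
  have hsub : ((l1 - l0 : ℕ) : ℝ) = (l1 : ℝ) - l0 := Nat.cast_sub hll.le
  have hpow : ∀ z : ℝ, (2 : ℝ) ^ (z * Real.logb 2 L) = L ^ z := by
    intro z
    rw [mul_comm, Real.rpow_mul (by norm_num), Real.rpow_logb (by norm_num) (by norm_num) hL0']
  have H2 : (2 : ℝ) ^ l1 ≤ L ^ k := by
    calc (2 : ℝ) ^ l1 = (2 : ℝ) ^ (l1 : ℝ) := (Real.rpow_natCast _ _).symm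
      _ ≤ (2 : ℝ) ^ ((k : ℝ) * Real.logb 2 L) := Real.rpow_le_rpow_of_exponent_le (by norm_num) hb1
      _ = L ^ k := by rw [hpow, Real.rpow_natCast]
  have H2' : L ^ ((k : ℝ) - 1 / 20) ≤ 2 ^ l0 := by
    calc L ^ ((k : ℝ) - 1 / 20) = (2 : ℝ) ^ (((k : ℝ) - 1 / 20) * Real.logb 2 L) := (hpow _).symm
      _ ≤ (2 : ℝ) ^ (l0 : ℝ) := Real.rpow_le_rpow_of_exponent_le (by norm_num) hb3
      _ = 2 ^ l0 := Real.rpow_natCast _ _
  have H3 : k + 2 ≤ l0 := by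
    have : (k : ℝ) + 2 ≤ l0 := by nlinarith
    exact_mod_cast this
  have H4 : (g : ℝ) * 2 ^ (2 * n) ≤ Real.exp (L / (8 * k)) := by
    have hg' : (g : ℝ) ≤ Real.exp (y / 100) := by
      refine hgL.trans (le_of_eq ?_)
      rw [hy]; congr 1; field_simp
    have e : L / (8 * k) = y / 8 := by rw [hy]; field_simp
    rw [e]
    calc (g : ℝ) * 2 ^ (2 * n) ≤ Real.exp (y / 100) * Real.exp (((2 * n : ℕ) : ℝ) * Real.log 2) := by
          rw [← two_pow_exp]; gcongr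
      _ = Real.exp (y / 100 + ((2 * n : ℕ) : ℝ) * Real.log 2) := by rw [Real.exp_add]
      _ ≤ Real.exp (y / 8) := by
          apply Real.exp_le_exp.2
          push_cast
          nlinarith
  have hsq : L ^ (17 / 20 : ℝ) = L ^ (1 / 2 : ℝ) * L ^ (7 / 20 : ℝ) := by
    rw [← Real.rpow_add hL0']; norm_num
  have hD1 : (D : ℝ) ≤ L ^ (17 / 20 : ℝ) := Nat.floor_le (by positivity)
  have hD2 : L ^ (17 / 20 : ℝ) - 1 < D := Nat.sub_one_lt_floor _
  have hs1 : (1 : ℝ) ≤ L ^ (1 / 2 : ℝ) := Real.one_le_rpow (by linarith) (by norm_num)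
  have H5 : 2 * Real.exp (2 * L ^ (1 / 2 : ℝ)) ≤ 2 ^ D := by
    have h1 : (2 : ℝ) ≤ Real.exp 1 := by have := Real.exp_one_gt_d9; linarith
    calc 2 * Real.exp (2 * L ^ (1 / 2 : ℝ)) ≤ Real.exp 1 * Real.exp (2 * L ^ (1 / 2 : ℝ)) := by gcongr
      _ = Real.exp (1 + 2 * L ^ (1 / 2 : ℝ)) := by rw [Real.exp_add]
      _ ≤ Real.exp (D * Real.log 2) := by
          apply Real.exp_le_exp.2
          have h2 : 10 * L ^ (1 / 2 : ℝ) ≤ L ^ (17 / 20 : ℝ) := by rw [hsq]; nlinarith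
          nlinarith
      _ = 2 ^ D := (two_pow_exp D).symm
  have hnk : L ^ k / Q ≤ (n : ℝ) ^ k := by
    rw [hQ, ← div_pow]
    exact pow_le_pow_left₀ (by positivity) hnL k
  have H6 : 1 / (40 * Q * 2 ^ (k + 5)) * (L ^ k * Real.log L) ≤ (n : ℝ) ^ k * (l1 - l0 : ℕ) / 2 ^ (k + 5) := by
    rw [hsub]
    calc 1 / (40 * Q * 2 ^ (k + 5)) * (L ^ k * Real.log L) = (L ^ k / Q) * (Real.log L / 40) / 2 ^ (k + 5) := by
          field_simp
      _ ≤ (n : ℝ) ^ k * ((l1 : ℝ) - l0) / 2 ^ (k + 5) := by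
          gcongr
  obtain ⟨A⟩ := exists_Fam l0 l1 hg hk α h440
  have hmain := A.prob_bad hk hg (by omega) (by linarith) hn0 hll H2 H3 H4 H5 H6
  have hset : {x : Fin k → ℝ | (∀ i, x i ∈ Set.Icc (0 : ℝ) 1) ∧
      ¬ ∃ V : Finset ((Fin k → ℤ) × ℤ), GoodR (1 / (40 * Q * 2 ^ (k + 5))) L g α x V} =
      {x : Fin k → ℝ | (∀ i, x i ∈ Set.Icc (0 : ℝ) 1) ∧
      x ∈ {x | ¬ ∃ V : Finset ((Fin k → ℤ) × ℤ), GoodR (1 / (40 * Q * 2 ^ (k + 5))) L g α x V}} := rfl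
  rw [hset, cube_eq]
  rw [ENNReal.le_ofReal_iff_toReal_le (measure_ne_top _ _) hε.le]
  change (cube k).real _ ≤ ε
  refine hmain.trans ?_
  have hnL2 : (n : ℝ) ≤ L := by
    have : y ≤ L := by rw [hLy]; nlinarith
    linarith
  have hlogp : 0 < Real.log L := by linarith
  have T1 : 32 * L ^ k / ((n : ℝ) ^ k * (l1 - l0 : ℕ) ^ 2) ≤ 32 * Q * 1600 / Real.log L ^ 2 := by
    rw [hsub]
    have hd : 0 < (l1 : ℝ) - l0 := by linarith [hdiff]
    have hnp : (0 : ℝ) < n := by exact_mod_cast hn0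
    rw [div_le_div_iff₀ (by positivity) (by positivity)]
    have h1 : Real.log L ^ 2 ≤ 1600 * ((l1 : ℝ) - l0) ^ 2 := by nlinarith
    have h2 : L ^ k ≤ Q * (n : ℝ) ^ k := by
      rw [div_le_iff₀ hQ0] at hnk; linarith
    calc 32 * L ^ k * Real.log L ^ 2 ≤ 32 * (Q * (n : ℝ) ^ k) * (1600 * ((l1 : ℝ) - l0) ^ 2) := by gcongr
      _ = _ := by ring
  have T2 : (n : ℝ) ^ k / (4 * 2 ^ l0) / L ^ (1 / 4 : ℝ) ≤ 1 / 4 * L ^ (-(1 / 5) : ℝ) := by
    calc (n : ℝ) ^ k / (4 * 2 ^ l0) / L ^ (1 / 4 : ℝ) ≤ L ^ k / (4 * L ^ ((k : ℝ) - 1 / 20)) / L ^ (1 / 4 : ℝ) := by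
          gcongr
      _ = 1 / 4 * L ^ (-(1 / 5) : ℝ) := by
          rw [← Real.rpow_natCast L k]
          have : L ^ (-(1 / 5) : ℝ) = L ^ (k : ℝ) / L ^ ((k : ℝ) - 1 / 20) / L ^ (1 / 4 : ℝ) := by
            rw [← Real.rpow_sub hL0', ← Real.rpow_sub hL0']; norm_num
          rw [this]; field_simp
  have T3 : (k + 1) * (2 * D) * (n : ℝ) ^ (2 * k - 1) / (16 * 4 ^ l0) ≤ (k + 1) / 8 * L ^ (-(1 / 20) : ℝ) := by
    have h4 : L ^ (2 * ((k : ℝ) - 1 / 20)) ≤ 4 ^ l0 := by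
      have : (4 : ℝ) ^ l0 = (2 ^ l0) ^ 2 := by rw [← pow_mul, mul_comm, pow_mul]; norm_num
      rw [this, mul_comm, Real.rpow_mul hL0'.le]
      have h5 := pow_le_pow_left₀ (by positivity) H2' 2
      rw [← Real.rpow_natCast (L ^ ((k : ℝ) - 1 / 20)) 2] at h5
      exact_mod_cast h5
    calc (k + 1) * (2 * D) * (n : ℝ) ^ (2 * k - 1) / (16 * 4 ^ l0)
        ≤ (k + 1) * (2 * L ^ (17 / 20 : ℝ)) * L ^ (2 * k - 1) / (16 * L ^ (2 * ((k : ℝ) - 1 / 20))) := by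
          gcongr
      _ = (k + 1) / 8 * L ^ (-(1 / 20) : ℝ) := by
          have h6 : L ^ (-(1 / 20) : ℝ) = L ^ (17 / 20 : ℝ) * L ^ (2 * k - 1) / L ^ (2 * ((k : ℝ) - 1 / 20)) := by
            rw [← Real.rpow_natCast L (2 * k - 1), ← Real.rpow_add hL0', ← Real.rpow_sub hL0']
            congr 1
            rw [Nat.cast_sub (by omega)]
            push_cast
            ring
          rw [h6]; field_simp; ring
  linarith

end Pool.Agent.V8H55.LD
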