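import Pool.Agent.V8H55.LD.TrA

/-!
# The transfer
-/

set_option autoImplicit false

namespace Pool.Agent.V8H55.LD

open Finset MeasureTheory

/-- the gcd condition -/
def Zc (g Z : ℕ) {k : ℕ} (b : Fin k → ℕ) : Prop := ∀ h : ℕ, h ∣ g → (∀ i, h ∣ b i) → h ≤ Z

open Classical in
theorem count_g {k N g Z : ℕ} {c L ε : ℝ} (hk : 1 ≤ k) (hgN : g ∣ N) (hg : 0 < g) (hN : 0 < N)
    (hL : L = Real.log N) (hL1 : 1 ≤ L) (hc : 0 < c) (hε : 0 < ε)
    (hbig : 8 * k * Real.exp (L / 4) * L ^ (k + 1) ≤ Real.exp L)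
    (hvol : ∀ α : Fin k → ℤ, (∀ h : ℕ, h ∣ g → (∀ i, (h : ℤ) ∣ α i) → h ≤ Z) →
      volume {x : Fin k → ℝ | (∀ i, x i ∈ Set.Icc (0 : ℝ) 1) ∧
      ¬ ∃ V : Finset ((Fin k → ℤ) × ℤ), GoodR c L g α x V} ≤ ENNReal.ofReal ε) :
    (#{b : Fin k → Fin N | Zc g Z (fun i => (b i : ℕ)) ∧ ¬ PB N g k (c / 2) (fun i => (b i : ℕ))} : ℝ) ≤
      ε * (N : ℝ) ^ k := by
  set S : Finset (Fin k → Fin N) :=
    {b : Fin k → Fin N | Zc g Z (fun i => (b i : ℕ)) ∧ ¬ PB N g k (c / 2) (fun i => (b i : ℕ))} with hS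
  have hgR : (0 : ℝ) < g := by exact_mod_cast hg
  set f : (Fin k → Fin N) → (Fin k → Fin g) := fun b i => ⟨(b i : ℕ) % g, Nat.mod_lt _ hg⟩ with hf
  have h1 : #S = ∑ α : Fin k → Fin g, #{b ∈ S | f b = α} :=
    Finset.card_eq_sum_card_fiberwise fun _ _ => Finset.mem_univ _
  have h2 : ∀ α : Fin k → Fin g, (#{b ∈ S | f b = α} : ℝ) ≤ ε * ((N : ℝ) / g) ^ k := by
    intro α
    rcases ({b ∈ S | f b = α} : Finset (Fin k → Fin N)).eq_empty_or_nonempty with he | ⟨b0, hb0⟩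
    · rw [he, Finset.card_empty, Nat.cast_zero]; positivity
    · rw [Finset.mem_filter, hS, Finset.mem_filter] at hb0
      have hα : ∀ b : Fin k → Fin N, f b = α ↔ ∀ i, (b i : ℕ) % g = α i := by
        intro b
        constructor
        · intro h i; rw [← h]
        · intro h; funext i; exact Fin.ext (h i)
      have hz : ∀ h : ℕ, h ∣ g → (∀ i, (h : ℤ) ∣ (((α i : ℕ) : ℤ))) → h ≤ Z := by
        intro h hh hi
        apply hb0.1.2.1 h hh
        intro i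
        have e1 := (hα b0).1 hb0.2 i
        have e2 : h ∣ (α i : ℕ) := by exact_mod_cast hi i
        rw [← e1] at e2
        show h ∣ (b0 i : ℕ)
        rw [← Nat.div_add_mod (b0 i : ℕ) g]
        exact dvd_add (Dvd.dvd.mul_right hh _) e2
      have h3 := count_alpha hk hgN hg hN hL hL1 hc hε hbig α (hvol _ hz)
      refine le_trans ?_ h3
      have : ({b ∈ S | f b = α} : Finset (Fin k → Fin N)) ⊆
          ({b : Fin k → Fin N | (∀ i, (b i : ℕ) % g = α i) ∧ ¬ PB N g k (c / 2) (fun i => (b i : ℕ))} :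
            Finset (Fin k → Fin N)) := by
        intro b hb
        rw [Finset.mem_filter, hS, Finset.mem_filter] at hb
        rw [Finset.mem_filter]
        exact ⟨Finset.mem_univ _, (hα b).1 hb.2, hb.1.2.2⟩
      exact_mod_cast Finset.card_le_card this
  rw [h1]
  push_cast
  calc ∑ α : Fin k → Fin g, (#{b ∈ S | f b = α} : ℝ) ≤ ∑ _α : Fin k → Fin g, ε * ((N : ℝ) / g) ^ k :=
        Finset.sum_le_sum fun α _ => h2 α
    _ = (g : ℝ) ^ k * (ε * ((N : ℝ) / g) ^ k) := by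
        rw [Finset.sum_const, Finset.card_univ, nsmul_eq_mul]
        simp
    _ = ε * (N : ℝ) ^ k := by
        rw [div_pow]; field_simp

theorem unit_div {N : ℕ} (hN : 0 < N) (a : ℕ) : ∃ (g : ℕ) (u : (ZMod N)ˣ), g ∣ N ∧ 0 < g ∧ g ∣ a ∧
    (a : ZMod N) = u * g := by
  obtain ⟨g, hg, u, ⟨v, rfl⟩, h⟩ := ZMod.eq_unit_mul_divisor (a : ZMod N)
  have : NeZero N := ⟨hN.ne'⟩
  refine ⟨g, v, hg, Nat.pos_of_dvd_of_pos hg hN, ?_, h⟩
  have h1 : (a : ZMod N) = (((v : ZMod N).val * g : ℕ) : ZMod N) := by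
    rw [h]; push_cast; rw [ZMod.natCast_zmod_val]
  rw [ZMod.natCast_eq_natCast_iff] at h1
  exact (h1.dvd_iff hg).2 (Dvd.intro_left _ rfl)

/-- the twisted vector -/
noncomputable def twist {N k : ℕ} [NeZero N] (u : (ZMod N)ˣ) (a : Fin (k + 1) → Fin N) : Fin k → Fin N :=
  fun i => ⟨((u⁻¹ : (ZMod N)ˣ) * ((a i.succ : ℕ) : ZMod N) : ZMod N).val, ZMod.val_lt _⟩

theorem twist_eq {N k : ℕ} [NeZero N] (u : (ZMod N)ˣ) (a : Fin (k + 1) → Fin N) (i : Fin k) :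
    ((a i.succ : ℕ) : ZMod N) = u * (((twist u a i : Fin N) : ℕ) : ZMod N) := by
  unfold twist
  simp only
  rw [ZMod.natCast_zmod_val, Units.mul_inv_cancel_left]

theorem twist_inj {N k : ℕ} [NeZero N] (u : (ZMod N)ˣ) {a b : Fin (k + 1) → Fin N} (h0 : a 0 = b 0)
    (h : twist u a = twist u b) : a = b := by
  funext i
  refine Fin.cases h0 (fun j => ?_) i
  have h1 := twist_eq u a j
  rw [h, ← twist_eq u b j, ZMod.natCast_eq_natCast_iff] at h1
  exact Fin.ext (Nat.ModEq.eq_of_lt_of_lt h1 (a j.succ).2 (b j.succ).2)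

theorem dual_twist {N k g : ℕ} [NeZero N] (u : (ZMod N)ˣ) {a : Fin (k + 1) → Fin N}
    (ha : ((a 0 : ℕ) : ZMod N) = u * g) {m : Fin (k + 1) → ℤ}
    (hm : (N : ℤ) ∣ m 0 * g + ∑ i, m (Fin.succ i) * ((twist u a i : ℕ) : ℤ)) : Dual a m := by
  unfold Dual
  rw [← ZMod.intCast_zmod_eq_zero_iff_dvd] at hm ⊢
  rw [Fin.sum_univ_succ]
  push_cast at hm ⊢
  rw [ha]
  have : ∀ i : Fin k, ((m i.succ : ℤ) : ZMod N) * ((a i.succ : ℕ) : ZMod N) =
      u * (((m i.succ : ℤ) : ZMod N) * ((twist u a i : ℕ) : ZMod N)) := by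
    intro i; rw [twist_eq u a i]; ring
  rw [Finset.sum_congr rfl fun i _ => this i, ← Finset.mul_sum]
  calc ((m 0 : ℤ) : ZMod N) * (u * g) + u * ∑ i, ((m (Fin.succ i) : ℤ) : ZMod N) * ((twist u a i : ℕ) : ZMod N)
      = u * (((m 0 : ℤ) : ZMod N) * g + ∑ i, ((m (Fin.succ i) : ℤ) : ZMod N) * ((twist u a i : ℕ) : ZMod N)) := by ring
    _ = 0 := by rw [hm, mul_zero]

theorem dvd_twist {N k h : ℕ} [NeZero N] (u : (ZMod N)ˣ) {a : Fin (k + 1) → Fin N} (hN : h ∣ N) (i : Fin k)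
    (hd : h ∣ (twist u a i : ℕ)) : h ∣ (a i.succ : ℕ) := by
  have h1 : ((a i.succ : ℕ) : ZMod N) = (((u : ZMod N).val * (twist u a i : ℕ) : ℕ) : ZMod N) := by
    rw [twist_eq u a i]; push_cast; rw [ZMod.natCast_zmod_val]
  rw [ZMod.natCast_eq_natCast_iff] at h1
  exact (h1.dvd_iff hN).2 (Dvd.dvd.mul_left hd _)

open Classical in
theorem card_head {N k : ℕ} (p : Fin N → Prop) :
    #{a : Fin (k + 1) → Fin N | p (a 0)} ≤ #{a : Fin N | p a} * N ^ k := by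
  have h1 : #{a : Fin (k + 1) → Fin N | p (a 0)} ≤
      #((({a : Fin N | p a} : Finset (Fin N)) ×ˢ (Finset.univ : Finset (Fin k → Fin N)))) := by
    apply Finset.card_le_card_of_injOn (fun a => (a 0, fun i => a i.succ))
    · intro a ha
      rw [Finset.mem_coe, Finset.mem_filter] at ha
      rw [Finset.mem_coe, Finset.mem_product]
      exact ⟨Finset.mem_filter.2 ⟨Finset.mem_univ _, ha.2⟩, Finset.mem_univ _⟩
    · intro a _ b _ h
      simp only [Prod.mk.injEq] at h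
      funext i
      exact Fin.cases h.1 (fun j => congrFun h.2 j) i
  refine h1.trans ?_
  rw [Finset.card_product, Finset.card_univ]
  simp

open Classical in
theorem card_three {k N Z : ℕ} {c L ε : ℝ} (hk : 1 ≤ k) (hN : 0 < N)
    (hL : L = Real.log N) (hL1 : 1 ≤ L) (hc : 0 < c) (hε : 0 < ε)
    (hbig : 8 * k * Real.exp (L / 4) * L ^ (k + 1) ≤ Real.exp L)
    (hvol : ∀ g : ℕ, 1 ≤ g → (g : ℝ) ≤ Real.exp (L / (100 * k)) →
      ∀ α : Fin k → ℤ, (∀ h : ℕ, h ∣ g → (∀ i, (h : ℤ) ∣ α i) → h ≤ Z) →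
      volume {x : Fin k → ℝ | (∀ i, x i ∈ Set.Icc (0 : ℝ) 1) ∧
      ¬ ∃ V : Finset ((Fin k → ℤ) × ℤ), GoodR c L g α x V} ≤ ENNReal.ofReal ε) :
    (#{a : Fin (k + 1) → Fin N | (¬ ∃ h : ℕ, h ∣ N ∧ Real.exp (L / (100 * k)) < h ∧ h ∣ (a 0 : ℕ)) ∧
      (¬ ∃ h : ℕ, h ∣ N ∧ Z < h ∧ ∀ i, h ∣ (a i : ℕ)) ∧
      ¬ ∃ H : Finset (Fin (k + 1) → ℤ), Good (c / 2) a H} : ℝ) ≤ ε * (N : ℝ) ^ (k + 1) := by
  have : NeZero N := ⟨hN.ne'⟩
  set S : Finset (Fin (k + 1) → Fin N) :=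
    {a : Fin (k + 1) → Fin N | (¬ ∃ h : ℕ, h ∣ N ∧ Real.exp (L / (100 * k)) < h ∧ h ∣ (a 0 : ℕ)) ∧
      (¬ ∃ h : ℕ, h ∣ N ∧ Z < h ∧ ∀ i, h ∣ (a i : ℕ)) ∧
      ¬ ∃ H : Finset (Fin (k + 1) → ℤ), Good (c / 2) a H} with hS
  have h1 : #S = ∑ a0 : Fin N, #{a ∈ S | a 0 = a0} :=
    Finset.card_eq_sum_card_fiberwise fun _ _ => Finset.mem_univ _
  have h2 : ∀ a0 : Fin N, (#{a ∈ S | a 0 = a0} : ℝ) ≤ ε * (N : ℝ) ^ k := by
    intro a0
    rcases ({a ∈ S | a 0 = a0} : Finset (Fin (k + 1) → Fin N)).eq_empty_or_nonempty with he | ⟨a1, ha1⟩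
    · rw [he, Finset.card_empty, Nat.cast_zero]; positivity
    · obtain ⟨g, u, hgN, hg, hga, hu⟩ := unit_div hN (a0 : ℕ)
      rw [Finset.mem_filter, hS, Finset.mem_filter] at ha1
      have hgle : (g : ℝ) ≤ Real.exp (L / (100 * k)) := by
        by_contra hcon
        push Not at hcon
        exact ha1.1.2.1 ⟨g, hgN, hcon, by rw [ha1.2]; exact hga⟩
      refine le_trans ?_ (count_g hk hgN hg hN hL hL1 hc hε hbig (hvol g hg hgle))
      have : #{a ∈ S | a 0 = a0} ≤ #{b : Fin k → Fin N | Zc g Z (fun i => (b i : ℕ)) ∧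
          ¬ PB N g k (c / 2) (fun i => (b i : ℕ))} := by
        apply Finset.card_le_card_of_injOn (twist u)
        · intro a ha
          rw [Finset.mem_coe, Finset.mem_filter, hS, Finset.mem_filter] at ha
          rw [Finset.mem_coe, Finset.mem_filter]
          refine ⟨Finset.mem_univ _, ?_, ?_⟩
          · intro h hh hi
            by_contra hcon
            push Not at hcon
            apply ha.1.2.2.1
            refine ⟨h, hh.trans hgN, hcon, fun i => ?_⟩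
            refine Fin.cases ?_ (fun j => ?_) i
            · rw [ha.2]; exact hh.trans hga
            · exact dvd_twist u (hh.trans hgN) j (hi j)
          · rintro ⟨H, hH1, hH2⟩
            apply ha.1.2.2.2
            refine ⟨H, hH2 a fun m hm => dual_twist u ?_ (hH1 m hm)⟩
            rw [ha.2]; exact hu
        · intro a ha b hb h
          rw [Finset.mem_coe, Finset.mem_filter] at ha hb
          exact twist_inj u (ha.2.trans hb.2.symm) h
      exact_mod_cast this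
  rw [h1]
  push_cast
  calc ∑ a0 : Fin N, (#{a ∈ S | a 0 = a0} : ℝ) ≤ ∑ _a0 : Fin N, ε * (N : ℝ) ^ k :=
        Finset.sum_le_sum fun a0 _ => h2 a0
    _ = ε * (N : ℝ) ^ (k + 1) := by
        rw [Finset.sum_const, Finset.card_univ, nsmul_eq_mul, Fintype.card_fin]
        ring

open Filter in
theorem transfer : Transfer := by
  classical
  intro k hk hR ε hε
  obtain ⟨Z, hZ⟩ := exists_nat_ge (3 / ε)
  have hZ1 : 1 ≤ Z + 1 := by omega
  obtain ⟨c, hc, L0, hL0⟩ := hR (ε / 3) (by positivity) (Z + 1)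
  have hkR : (1 : ℝ) ≤ k := by exact_mod_cast hk
  obtain ⟨C, hC, hdiv⟩ := H353.divisor_bound_real (1 / (200 * k)) (by positivity)
  refine ⟨c / 2, by positivity, ?_⟩
  have hlog : Tendsto (fun N : ℕ => Real.log N) atTop atTop :=
    Real.tendsto_log_atTop.comp tendsto_natCast_atTop_atTop
  have ev1 : ∀ᶠ L : ℝ in atTop, 8 * k * Real.exp (L / 4) * L ^ (k + 1) ≤ Real.exp L := by
    have h0 : Tendsto (fun L : ℝ => L ^ (k + 1) * Real.exp (-(3 / 4) * L)) atTop (nhds 0) := by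
      refine (tendsto_rpow_mul_exp_neg_mul_atTop_nhds_zero ((k + 1 : ℕ) : ℝ) (3 / 4) (by norm_num)).congr fun L => ?_
      rw [Real.rpow_natCast]
    have h1 : Tendsto (fun L : ℝ => (8 * k) * (L ^ (k + 1) * Real.exp (-(3 / 4) * L))) atTop (nhds ((8 * k) * 0)) :=
      h0.const_mul _
    rw [mul_zero] at h1
    filter_upwards [h1.eventually (gt_mem_nhds (zero_lt_one' ℝ))] with L hL
    have h2 : Real.exp (L / 4) = Real.exp L * Real.exp (-(3 / 4) * L) := by rw [← Real.exp_add]; congr 1; ring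
    rw [h2]
    have hp := Real.exp_pos L
    calc 8 * k * (Real.exp L * Real.exp (-(3 / 4) * L)) * L ^ (k + 1) =
          Real.exp L * ((8 * k) * (L ^ (k + 1) * Real.exp (-(3 / 4) * L))) := by ring
      _ ≤ Real.exp L * 1 := by gcongr
      _ = _ := mul_one _
  have ev2 : ∀ᶠ L : ℝ in atTop, C * Real.exp (-(1 / (200 * k)) * L) ≤ ε / 3 := by
    have h1 : Tendsto (fun L : ℝ => C * Real.exp (-(1 / (200 * k)) * L)) atTop (nhds (C * 0)) := by
      apply Tendsto.const_mul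
      apply Real.tendsto_exp_atBot.comp
      exact Tendsto.const_mul_atTop_of_neg (by
        have : (0 : ℝ) < 1 / (200 * k) := by positivity
        linarith) tendsto_id
    rw [mul_zero] at h1
    exact (h1.eventually (gt_mem_nhds (by positivity : (0 : ℝ) < ε / 3))).mono fun _ h => h.le
  obtain ⟨N0, hN0⟩ := eventually_atTop.1 ((hlog.eventually ev1).and ((hlog.eventually ev2).and
    ((hlog.eventually_ge_atTop (max L0 1)).and (eventually_ge_atTop 1))))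
  refine ⟨N0, fun N hN => ?_⟩
  obtain ⟨h1, h2, h3, h4⟩ := hN0 N hN
  have hNp : 0 < N := h4
  have hNR : (0 : ℝ) < N := by exact_mod_cast hNp
  set L := Real.log N with hL
  have hL1 : 1 ≤ L := (le_max_right _ _).trans h3
  have hLL : L0 ≤ L := (le_max_left _ _).trans h3
  have hexp : Real.exp L = N := Real.exp_log hNR
  set T : Finset (Fin (k + 1) → Fin N) := {a | ¬ ∃ H : Finset (Fin (k + 1) → ℤ), Good (c / 2) a H} with hT
  set B1 : Finset (Fin (k + 1) → Fin N) :=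
    {a | ∃ h : ℕ, h ∣ N ∧ Real.exp (L / (100 * k)) < h ∧ h ∣ (a 0 : ℕ)} with hB1
  set B2 : Finset (Fin (k + 1) → Fin N) := {a | ∃ h : ℕ, h ∣ N ∧ Z + 1 < h ∧ ∀ i, h ∣ (a i : ℕ)} with hB2
  set B3 : Finset (Fin (k + 1) → Fin N) :=
    {a | (¬ ∃ h : ℕ, h ∣ N ∧ Real.exp (L / (100 * k)) < h ∧ h ∣ (a 0 : ℕ)) ∧
      (¬ ∃ h : ℕ, h ∣ N ∧ Z + 1 < h ∧ ∀ i, h ∣ (a i : ℕ)) ∧
      ¬ ∃ H : Finset (Fin (k + 1) → ℤ), Good (c / 2) a H} with hB3
  have hsub : T ⊆ (B1 ∪ B2) ∪ B3 := by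
    intro a ha
    rw [hT, Finset.mem_filter] at ha
    rw [Finset.mem_union, Finset.mem_union, hB1, hB2, hB3, Finset.mem_filter, Finset.mem_filter, Finset.mem_filter]
    by_cases p1 : ∃ h : ℕ, h ∣ N ∧ Real.exp (L / (100 * k)) < h ∧ h ∣ (a 0 : ℕ)
    · left; left; exact ⟨Finset.mem_univ _, p1⟩
    · by_cases p2 : ∃ h : ℕ, h ∣ N ∧ Z + 1 < h ∧ ∀ i, h ∣ (a i : ℕ)
      · left; right; exact ⟨Finset.mem_univ _, p2⟩
      · right; exact ⟨Finset.mem_univ _, p1, p2, ha.2⟩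
  have hcard : (#T : ℝ) ≤ #B1 + #B2 + #B3 := by
    have := (Finset.card_le_card hsub).trans ((Finset.card_union_le _ _).trans
      (Nat.add_le_add_right (Finset.card_union_le _ _) _))
    exact_mod_cast this
  have c3 : (#B3 : ℝ) ≤ ε / 3 * (N : ℝ) ^ (k + 1) :=
    card_three hk hNp rfl hL1 hc (by positivity) h1 fun g hg hgL α hα => hL0 L hLL g hg hgL α hα
  have c2 : (#B2 : ℝ) ≤ ε / 3 * (N : ℝ) ^ (k + 1) := by
    refine (cntB hNp (by omega) hZ1).trans ?_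
    rw [div_eq_mul_inv, mul_comm]
    gcongr
    rw [inv_le_comm₀ (by positivity) (by positivity)]
    push_cast
    have : (ε / 3)⁻¹ = 3 / ε := by rw [inv_div]
    rw [this]; linarith
  have c1 : (#B1 : ℝ) ≤ ε / 3 * (N : ℝ) ^ (k + 1) := by
    have d1 : (#B1 : ℝ) ≤ (#{a : Fin N | ∃ h : ℕ, h ∣ N ∧ Real.exp (L / (100 * k)) < h ∧ h ∣ (a : ℕ)} : ℝ) * (N : ℝ) ^ k := by
      rw [← Nat.cast_pow, ← Nat.cast_mul]
      exact Nat.cast_le.2 (card_head (k := k) fun a : Fin N => ∃ h : ℕ, h ∣ N ∧ Real.exp (L / (100 * k)) < h ∧ h ∣ (a : ℕ))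
    have d2 := cntA hNp (Real.exp_pos (L / (100 * k)))
    have d3 := hdiv N hNp.ne'
    have d4 : (N : ℝ) ^ (1 / (200 * (k : ℝ))) = Real.exp (L / (200 * k)) := by
      rw [Real.rpow_def_of_pos hNR, ← hL]; congr 1; ring
    rw [d4] at d3
    calc (#B1 : ℝ) ≤ _ := d1
      _ ≤ (N.divisors.card * (N / Real.exp (L / (100 * k)))) * (N : ℝ) ^ k := by gcongr
      _ ≤ ((C * Real.exp (L / (200 * k))) * (N / Real.exp (L / (100 * k)))) * (N : ℝ) ^ k := by gcongr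
      _ = (C * Real.exp (-(1 / (200 * k)) * L)) * (N : ℝ) ^ (k + 1) := by
          have e : Real.exp (-(1 / (200 * k)) * L) = Real.exp (L / (200 * k)) / Real.exp (L / (100 * k)) := by
            rw [← Real.exp_sub]; congr 1; field_simp; ring
          rw [e, pow_succ]; field_simp
      _ ≤ _ := by gcongr
  linarith

end Pool.Agent.V8H55.LD
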