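import Pool.Agent.V8H55.LD.Rz4
import Pool.Agent.V8H55.LD.Asm
import Pool.Agent.V8H55.LD.TrB
import Pool.Agent.V8H55.LD.RealK

/-!
# The average discrepancy of lattice point sets: the main theorem
-/

set_option autoImplicit false

namespace Pool.Agent.V8H55.LD

theorem prob_all (h1 : RealStm 1) : ∀ d, 2 ≤ d → Prob d := by
  intro d hd
  obtain ⟨k, rfl⟩ : ∃ k, d = k + 1 := ⟨d - 1, by omega⟩
  rcases Nat.lt_or_ge k 2 with h | h
  · have : k = 1 := by omega
    subst this
    exact transfer 1 le_rfl h1
  · exact transfer k (by omega) (realStm_ge_two k h)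

theorem main_full (h1 : RealStm 1) : Main := main_of riesz (prob_all h1)

end Pool.Agent.V8H55.LD
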