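import Mathlib

/-!
# Primitive vectors of a lattice in a dyadic box
-/

set_option autoImplicit false

namespace Pool.Agent.V8H55.LD

open Finset

variable {k : ℕ}

/-- the lattice -/
def inL (g : ℕ) (α : Fin k → ℤ) (m : Fin k → ℕ) : Prop := (g : ℤ) ∣ ∑ i, (m i : ℤ) * α i

/-- primitive vectors -/
def prim (g : ℕ) (α : Fin k → ℤ) (m : Fin k → ℕ) : Prop :=
  inL g α m ∧ ∀ c : ℕ, 2 ≤ c → ∀ v : Fin k → ℕ, (∀ i, m i = c * v i) → ¬ inL g α v

theorem inL_smul {_g : ℕ} {α : Fin k → ℤ} {m v : Fin k → ℕ} {c : ℕ} (h : ∀ i, m i = c * v i) :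
    ∑ i, (m i : ℤ) * α i = c * ∑ i, (v i : ℤ) * α i := by
  rw [Finset.mul_sum]
  refine Finset.sum_congr rfl fun i _ => ?_
  rw [h i]; push_cast; ring

theorem nonpar {g : ℕ} {α : Fin k → ℤ} {m n : Fin k → ℕ} (hm : prim g α m) (hn : prim g α n)
    (pm : ∀ i, 0 < m i) (pn : ∀ i, 0 < n i) (i0 : Fin k) (hpar : ∀ j, m i0 * n j = m j * n i0) : m = n := by
  obtain ⟨e, β, γ, he, hcop, hβ, hγ⟩ : ∃ e β γ : ℕ, 0 < e ∧ Nat.Coprime β γ ∧ m i0 = e * β ∧ n i0 = e * γ := by
    have hg : 0 < Nat.gcd (m i0) (n i0) := Nat.gcd_pos_of_pos_left _ (pm i0)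
    refine ⟨Nat.gcd (m i0) (n i0), m i0 / Nat.gcd (m i0) (n i0), n i0 / Nat.gcd (m i0) (n i0), hg,
      Nat.coprime_div_gcd_div_gcd hg, ?_, ?_⟩
    · exact (Nat.mul_div_cancel' (Nat.gcd_dvd_left _ _)).symm
    · exact (Nat.mul_div_cancel' (Nat.gcd_dvd_right _ _)).symm
  have hβ0 : 0 < β := by
    rcases Nat.eq_zero_or_pos β with h | h
    · rw [h] at hβ; have := pm i0; omega
    · exact h
  have hγ0 : 0 < γ := by
    rcases Nat.eq_zero_or_pos γ with h | h
    · rw [h] at hγ; have := pn i0; omega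
    · exact h
  have h1 : ∀ j, β * n j = γ * m j := by
    intro j
    have := hpar j
    rw [hβ, hγ] at this
    apply Nat.eq_of_mul_eq_mul_left he
    calc e * (β * n j) = e * β * n j := by ring
      _ = m j * (e * γ) := this
      _ = e * (γ * m j) := by ring
  have h2 : ∀ j, β ∣ m j := fun j => hcop.dvd_of_dvd_mul_left (Dvd.intro _ (h1 j))
  choose t ht using h2
  have ht' : ∀ j, n j = γ * t j := by
    intro j
    have := h1 j
    rw [ht j] at this
    apply Nat.eq_of_mul_eq_mul_left hβ0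
    rw [this]; ring
  have htL : inL g α t := by
    have a1 := hm.1
    have a2 := hn.1
    unfold inL at a1 a2 ⊢
    rw [inL_smul (_g := g) ht] at a1
    rw [inL_smul (_g := g) ht'] at a2
    obtain ⟨x, y, hxy⟩ := Nat.isCoprime_iff_coprime.2 hcop
    have : ∑ i, (t i : ℤ) * α i = x * (β * ∑ i, (t i : ℤ) * α i) + y * (γ * ∑ i, (t i : ℤ) * α i) := by
      calc ∑ i, (t i : ℤ) * α i = 1 * ∑ i, (t i : ℤ) * α i := by ring
        _ = _ := by rw [← hxy]; ring
    rw [this]
    exact dvd_add (Dvd.dvd.mul_left a1 _) (Dvd.dvd.mul_left a2 _)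
  have b1 : β = 1 := by
    by_contra h
    exact hm.2 β (by omega) t ht htL
  have c1 : γ = 1 := by
    by_contra h
    exact hn.2 γ (by omega) t ht' htL
  funext j
  rw [ht j, ht' j, b1, c1]

open Classical in
/-- residues -/
noncomputable def resd (g : ℕ) (α : Fin k → ℤ) : Finset (Fin k → ℕ) :=
  (Fintype.piFinset fun _ : Fin k => range g).filter (inL g α)

theorem mem_resd {g : ℕ} {α : Fin k → ℤ} {v : Fin k → ℕ} : v ∈ resd g α ↔ (∀ i, v i < g) ∧ inL g α v := by
  classical
  simp [resd]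

theorem inL_congr {g : ℕ} {α : Fin k → ℤ} {m v : Fin k → ℕ} (h : ∀ i, (g : ℤ) ∣ (m i : ℤ) - v i) :
    inL g α m ↔ inL g α v := by
  unfold inL
  have : (g : ℤ) ∣ ∑ i, (m i : ℤ) * α i - ∑ i, (v i : ℤ) * α i := by
    rw [← Finset.sum_sub_distrib]
    refine Finset.dvd_sum fun i _ => ?_
    rw [← sub_mul]
    exact Dvd.dvd.mul_right (h i) _
  exact dvd_iff_dvd_of_dvd_sub this

theorem card_resd {g : ℕ} (hg : 0 < g) (α : Fin k → ℤ) (hk : 1 ≤ k) : g ^ (k - 1) ≤ #(resd g α) := by
  classical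
  set s : Finset (Fin k → ℕ) := Fintype.piFinset fun _ : Fin k => range g with hs
  set φ : (Fin k → ℕ) → ℤ := fun v => (∑ i, (v i : ℤ) * α i) % g with hφ
  have hcard : #s = g ^ k := by simp [hs]
  have hg' : (0 : ℤ) < g := by exact_mod_cast hg
  obtain ⟨y, -, hy⟩ := Finset.exists_le_card_fiber_of_mul_le_card_of_maps_to (s := s)
    (t := (Finset.Ico (0:ℤ) g)) (f := φ) (n := g ^ (k - 1))
    (fun v _ => Finset.mem_Ico.2 ⟨Int.emod_nonneg _ hg'.ne', Int.emod_lt_of_pos _ hg'⟩)
    ⟨0, Finset.mem_Ico.2 ⟨le_rfl, hg'⟩⟩ (by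
      rw [Int.card_Ico, hcard]
      simp only [sub_zero, Int.toNat_natCast]
      rw [← pow_succ', Nat.sub_add_cancel hk])
  have hne : ({x ∈ s | φ x = y}).Nonempty := by
    rw [← Finset.card_pos]
    exact lt_of_lt_of_le (pow_pos hg _) hy
  obtain ⟨v0, hv0⟩ := hne
  rw [Finset.mem_filter] at hv0
  have hv0' : ∀ i, v0 i < g := by
    intro i
    have := hv0.1
    rw [hs, Fintype.mem_piFinset] at this
    exact Finset.mem_range.1 (this i)
  refine hy.trans ?_
  apply Finset.card_le_card_of_injOn (fun v i => (v i + (g - v0 i)) % g)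
  · intro v hv
    rw [Finset.mem_coe, Finset.mem_filter] at hv
    rw [Finset.mem_coe, mem_resd]
    refine ⟨fun i => Nat.mod_lt _ hg, ?_⟩
    have h1 : (g : ℤ) ∣ ∑ i, (v i : ℤ) * α i - ∑ i, (v0 i : ℤ) * α i := by
      apply Int.dvd_of_emod_eq_zero
      rw [Int.sub_emod]
      have e1 : (∑ i, (v i : ℤ) * α i) % g = y := hv.2
      have e2 : (∑ i, (v0 i : ℤ) * α i) % g = y := hv0.2
      rw [e1, e2]; simp
    unfold inL
    have h2 : (g : ℤ) ∣ ∑ i, (((v i + (g - v0 i)) % g : ℕ) : ℤ) * α i -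
        (∑ i, (v i : ℤ) * α i - ∑ i, (v0 i : ℤ) * α i) := by
      rw [← Finset.sum_sub_distrib, ← Finset.sum_sub_distrib]
      refine Finset.dvd_sum fun i _ => ?_
      rw [← sub_mul, ← sub_mul]
      refine Dvd.dvd.mul_right ?_ _
      push_cast [Nat.cast_sub (hv0' i).le]
      have h3 := Int.emod_add_mul_ediv ((v i : ℤ) + (g - v0 i)) g
      have : ((v i : ℤ) + (g - v0 i)) % g = (v i : ℤ) + (g - v0 i) - g * (((v i : ℤ) + (g - v0 i)) / g) := by linarith
      rw [this]
      exact ⟨1 - ((v i : ℤ) + (g - v0 i)) / g, by ring⟩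
    exact (dvd_iff_dvd_of_dvd_sub h2).2 h1
  · intro v hv w hw h
    rw [Finset.mem_coe, Finset.mem_filter, hs, Fintype.mem_piFinset] at hv hw
    funext i
    have h1 := congrFun h i
    simp only at h1
    have hvi := Finset.mem_range.1 (hv.1 i)
    have hwi := Finset.mem_range.1 (hw.1 i)
    have h2 : (v i + (g - v0 i)) ≡ (w i + (g - v0 i)) [MOD g] := h1
    have h3 : v i ≡ w i [MOD g] := Nat.ModEq.add_right_cancel' _ h2
    exact Nat.ModEq.eq_of_lt_of_lt h3 hvi hwi

/-- the dyadic box -/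
noncomputable def box (g : ℕ) (s : Fin k → ℕ) : Finset (Fin k → ℕ) :=
  Fintype.piFinset fun i => Finset.Ico (g * 2 ^ s i) (2 * (g * 2 ^ s i))

theorem mem_box {g : ℕ} {s m : Fin k → ℕ} : m ∈ box g s ↔ ∀ i, g * 2 ^ s i ≤ m i ∧ m i < 2 * (g * 2 ^ s i) := by
  simp [box]

open Classical in
theorem card_inL {g : ℕ} (hg : 0 < g) (α : Fin k → ℤ) (s : Fin k → ℕ) :
    #(resd g α) * ∏ i, 2 ^ s i ≤ #((box g s).filter (inL g α)) := by
  have h1 : ∏ i, 2 ^ s i = #(Fintype.piFinset fun i => Finset.Ico (2 ^ s i) (2 * 2 ^ s i)) := by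
    rw [Fintype.card_piFinset]
    refine Finset.prod_congr rfl fun i _ => ?_
    rw [Nat.card_Ico]; omega
  rw [h1, ← Finset.card_product]
  apply Finset.card_le_card_of_injOn (fun p i => g * p.2 i + p.1 i)
  · rintro ⟨r, b⟩ h
    rw [Finset.mem_coe, Finset.mem_product, mem_resd, Fintype.mem_piFinset] at h
    obtain ⟨⟨hr, hL⟩, hb⟩ := h
    rw [Finset.mem_coe, Finset.mem_filter, mem_box]
    refine ⟨fun i => ?_, ?_⟩
    · have h2 := Finset.mem_Ico.1 (hb i)
      have h3 := hr i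
      simp only at h2 h3 ⊢
      constructor
      · nlinarith
      · have : b i + 1 ≤ 2 * 2 ^ s i := h2.2
        nlinarith
    · refine (inL_congr (v := r) fun i => ?_).2 hL
      push_cast
      exact ⟨b i, by ring⟩
  · rintro ⟨r, b⟩ h ⟨r', b'⟩ h' he
    rw [Finset.mem_coe, Finset.mem_product, mem_resd] at h h'
    have h3 : ∀ i, r i = r' i ∧ b i = b' i := by
      intro i
      have h4 := congrFun he i
      simp only at h4
      have h5 := h.1.1 i
      have h6 := h'.1.1 i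
      simp only at h5 h6
      have h7 : r i = r' i := by
        have := congrArg (· % g) h4
        simp only [Nat.mul_add_mod] at this
        rwa [Nat.mod_eq_of_lt h5, Nat.mod_eq_of_lt h6] at this
      refine ⟨h7, ?_⟩
      rw [h7] at h4
      exact Nat.eq_of_mul_eq_mul_left hg (by omega)
    rw [Prod.mk.injEq]
    exact ⟨funext fun i => (h3 i).1, funext fun i => (h3 i).2⟩

open Classical in
/-- the multiples of `c` -/
noncomputable def mult (g : ℕ) (α : Fin k → ℤ) (s : Fin k → ℕ) (c : ℕ) : Finset (Fin k → ℕ) :=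
  (box g s).filter fun m => ∃ v : Fin k → ℕ, (∀ i, m i = c * v i) ∧ inL g α v

theorem one_dim (g c A r : ℕ) (s : ℕ) (hc : 0 < c) (hg : 0 < g) (hA : A = g * 2 ^ s) (X : ℕ) :
    #((range X).filter fun b => A ≤ c * (g * b + r) ∧ c * (g * b + r) < 2 * A) ≤ (2 ^ s - 1) / c + 1 := by
  set S := (range X).filter fun b => A ≤ c * (g * b + r) ∧ c * (g * b + r) < 2 * A with hS
  rcases S.eq_empty_or_nonempty with h | h
  · rw [h]; simp
  · have hmin := Finset.min'_mem S h
    set b0 := S.min' h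
    have hb0 := (Finset.mem_filter.1 hmin).2
    have : S ⊆ Finset.Icc b0 (b0 + (2 ^ s - 1) / c) := by
      intro b hb
      have hle := Finset.min'_le S b hb
      have hb' := (Finset.mem_filter.1 hb).2
      rw [Finset.mem_Icc]
      refine ⟨hle, ?_⟩
      obtain ⟨t, ht⟩ := Nat.exists_eq_add_of_le hle
      have h1 : c * t < 2 ^ s := by
        have e1 : c * (g * b + r) < A + A := by linarith [hb'.2]
        have e2 : c * (g * b + r) = c * (g * b0 + r) + g * (c * t) := by rw [ht]; ring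
        have e3 : g * (c * t) < g * 2 ^ s := by
          rw [← hA]
          have := hb0.1
          omega
        exact Nat.lt_of_mul_lt_mul_left e3
      have h2 : t ≤ (2 ^ s - 1) / c := by
        rw [Nat.le_div_iff_mul_le hc, mul_comm]
        omega
      omega
    calc #S ≤ #(Finset.Icc b0 (b0 + (2 ^ s - 1) / c)) := Finset.card_le_card this
      _ = (2 ^ s - 1) / c + 1 := by rw [Nat.card_Icc, add_assoc, Nat.add_sub_cancel_left]

open Classical in
theorem card_mult {g : ℕ} (hg : 0 < g) (α : Fin k → ℤ) (s : Fin k → ℕ) {c : ℕ} (hc : 0 < c) :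
    #(mult g α s c) ≤ #(resd g α) * ∏ i, ((2 ^ s i - 1) / c + 1) := by
  set T : (Fin k → ℕ) → Finset (Fin k → ℕ) := fun r => Fintype.piFinset fun i =>
    (range (2 * (g * 2 ^ s i) + 1)).filter fun b => g * 2 ^ s i ≤ c * (g * b + r i) ∧
      c * (g * b + r i) < 2 * (g * 2 ^ s i) with hT
  have h1 : #(mult g α s c) ≤ #((resd g α).sigma T) := by
    apply Finset.card_le_card_of_injOn (fun m => (⟨fun i => (m i / c) % g, fun i => (m i / c) / g⟩ :
      Sigma fun _ : Fin k → ℕ => (Fin k → ℕ)))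
    · intro m hm
      rw [Finset.mem_coe] at hm
      unfold mult at hm
      rw [Finset.mem_filter, mem_box] at hm
      obtain ⟨hb, v, hv, hL⟩ := hm
      have hdv : ∀ i, m i / c = v i := fun i => by rw [hv i, Nat.mul_div_cancel_left _ hc]
      rw [Finset.mem_coe, Finset.mem_sigma, mem_resd]
      refine ⟨⟨fun i => Nat.mod_lt _ hg, ?_⟩, ?_⟩
      · refine (inL_congr fun i => ?_).2 hL
        show (g : ℤ) ∣ (((m i / c) % g : ℕ) : ℤ) - (v i : ℤ)
        rw [hdv i]
        have := Int.emod_add_mul_ediv (v i : ℤ) g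
        push_cast
        exact ⟨-((v i : ℤ) / g), by linarith⟩
      · rw [hT, Fintype.mem_piFinset]
        intro i
        rw [Finset.mem_filter, Finset.mem_range]
        simp only
        have e1 : g * (m i / c / g) + m i / c % g = m i / c := Nat.div_add_mod _ _
        have e2 : c * (m i / c) = m i := by rw [hdv i, hv i]
        rw [e1, e2]
        refine ⟨?_, hb i⟩
        have : m i / c / g ≤ m i := (Nat.div_le_self _ _).trans (Nat.div_le_self _ _)
        have := (hb i).2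
        omega
    · intro m hm m' hm' he
      rw [Finset.mem_coe] at hm hm'
      unfold mult at hm hm'
      rw [Finset.mem_filter] at hm hm'
      obtain ⟨-, v, hv, -⟩ := hm
      obtain ⟨-, v', hv', -⟩ := hm'
      simp only [Sigma.mk.injEq, heq_eq_eq] at he
      funext i
      have e1 := congrFun he.1 i
      have e2 := congrFun he.2 i
      have e3 : m i / c = m' i / c := by
        rw [← Nat.div_add_mod (m i / c) g, ← Nat.div_add_mod (m' i / c) g, e1, e2]
      rw [hv i, hv' i, Nat.mul_div_cancel_left _ hc, Nat.mul_div_cancel_left _ hc] at e3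
      rw [hv i, hv' i, e3]
  refine h1.trans ?_
  rw [Finset.card_sigma]
  calc ∑ r ∈ resd g α, #(T r) ≤ ∑ _r ∈ resd g α, ∏ i, ((2 ^ s i - 1) / c + 1) := by
        refine Finset.sum_le_sum fun r _ => ?_
        rw [hT, Fintype.card_piFinset]
        exact Finset.prod_le_prod (fun _ _ => Nat.zero_le _) fun i _ =>
          one_dim g c (g * 2 ^ s i) (r i) (s i) hc hg rfl _
    _ = _ := by rw [Finset.sum_const, smul_eq_mul]

end Pool.Agent.V8H55.LD
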