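import Pool.Agent.V8H55.LD.Prim

/-!
# Primitive vectors of a lattice in a dyadic box: the count
-/

set_option autoImplicit false

namespace Pool.Agent.V8H55.LD

open Finset

theorem sum_inv_sq (n : ℕ) : ∑ c ∈ Finset.Ico 2 (n + 3), (1 : ℝ) / (c : ℝ) ^ 2 ≤ 3 / 4 - 1 / (n + 2) := by
  induction n with
  | zero => norm_num [Finset.sum_Ico_succ_top]
  | succ n ih =>
    rw [Finset.sum_Ico_succ_top (by omega)]
    have h1 : (1 : ℝ) / ((n + 3 : ℕ) : ℝ) ^ 2 ≤ 1 / (n + 2) - 1 / (n + 3) := by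
      push_cast
      rw [div_sub_div _ _ (by positivity) (by positivity), div_le_div_iff₀ (by positivity) (by positivity)]
      nlinarith
    push_cast at h1 ⊢
    have e1 : (n : ℝ) + 1 + 2 = n + 3 := by ring
    rw [e1]
    linarith

theorem sum_inv_sq' (C : ℕ) : ∑ c ∈ Finset.Ico 2 C, (1 : ℝ) / (c : ℝ) ^ 2 ≤ 3 / 4 := by
  have h := sum_inv_sq C
  have h2 : ∑ c ∈ Finset.Ico 2 C, (1 : ℝ) / (c : ℝ) ^ 2 ≤ ∑ c ∈ Finset.Ico 2 (C + 3), (1 : ℝ) / (c : ℝ) ^ 2 :=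
    Finset.sum_le_sum_of_subset_of_nonneg (Finset.Ico_subset_Ico_right (by omega)) fun _ _ _ => by positivity
  have : (0 : ℝ) ≤ 1 / (C + 2) := by positivity
  linarith

theorem sum_bound {g σ C : ℕ} (h : 440 * g ≤ 2 ^ σ) (hC : C ≤ 2 * (g * 2 ^ σ)) :
    ∑ c ∈ Finset.Ico 2 C, (1 / (c : ℝ) + 1 / 2 ^ σ) ^ 2 ≤ 7 / 8 := by
  have h1 : ∀ c ∈ Finset.Ico 2 C, (1 / (c : ℝ) + 1 / 2 ^ σ) ^ 2 ≤
      11 / 10 * (1 / (c : ℝ) ^ 2) + 11 * (1 / 2 ^ σ) ^ 2 := by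
    intro c _
    have e : (1 : ℝ) / (c : ℝ) ^ 2 = (1 / (c : ℝ)) ^ 2 := by rw [div_pow, one_pow]
    rw [e]
    nlinarith [sq_nonneg (1 / (c : ℝ) - 10 * (1 / 2 ^ σ))]
  refine (Finset.sum_le_sum h1).trans ?_
  rw [Finset.sum_add_distrib, ← Finset.mul_sum, Finset.sum_const, nsmul_eq_mul]
  have h2 := sum_inv_sq' C
  have h3 : ((#(Finset.Ico 2 C) : ℕ) : ℝ) ≤ 2 * (g * 2 ^ σ) := by
    rw [Nat.card_Ico]
    have : C - 2 ≤ 2 * (g * 2 ^ σ) := by omega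
    exact_mod_cast this
  have h4 : (440 : ℝ) * g ≤ 2 ^ σ := by exact_mod_cast h
  have hp : (0 : ℝ) < 2 ^ σ := by positivity
  have h5 : ((#(Finset.Ico 2 C) : ℕ) : ℝ) * (11 * (1 / (2 : ℝ) ^ σ) ^ 2) ≤ 1 / 20 := by
    calc ((#(Finset.Ico 2 C) : ℕ) : ℝ) * (11 * (1 / (2 : ℝ) ^ σ) ^ 2)
        ≤ 2 * ((g : ℝ) * (2 : ℝ) ^ σ) * (11 * (1 / (2 : ℝ) ^ σ) ^ 2) := by
          gcongr
      _ = 22 * (g : ℝ) / (2 : ℝ) ^ σ := by field_simp; ring
      _ ≤ 1 / 20 := by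
          rw [div_le_div_iff₀ hp (by norm_num)]
          linarith
  linarith

variable {k : ℕ}

theorem prod_bound (s : Fin k → ℕ) {σ : ℕ} (hσ : ∀ i, σ ≤ s i) {i0 i1 : Fin k} (h01 : i0 ≠ i1) {c : ℕ}
    (hc : 0 < c) :
    ((∏ i, ((2 ^ s i - 1) / c + 1) : ℕ) : ℝ) ≤ (∏ i, (2 : ℝ) ^ s i) * (1 / (c : ℝ) + 1 / 2 ^ σ) ^ 2 := by
  have h1 : (1 / (c : ℝ) + 1 / 2 ^ σ) ^ 2 =
      ∏ i, (if i = i0 ∨ i = i1 then (1 / (c : ℝ) + 1 / 2 ^ σ) else 1) := by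
    rw [Finset.prod_ite, Finset.prod_const_one, mul_one, Finset.prod_const]
    congr 1
    have : (Finset.univ.filter fun i : Fin k => i = i0 ∨ i = i1) = {i0, i1} := by
      ext i; simp
    rw [this, Finset.card_pair h01]
  rw [h1, ← Finset.prod_mul_distrib]
  push_cast
  refine Finset.prod_le_prod (fun i _ => by positivity) fun i _ => ?_
  have hp : (1 : ℝ) ≤ 2 ^ s i := one_le_pow₀ (by norm_num)
  have hq : ((2 ^ s i - 1 : ℕ) : ℝ) = 2 ^ s i - 1 := by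
    rw [Nat.cast_sub Nat.one_le_two_pow]; push_cast; ring
  split_ifs with hi
  · have h2 : (((2 ^ s i - 1) / c : ℕ) : ℝ) ≤ ((2 ^ s i - 1 : ℕ) : ℝ) / c := Nat.cast_div_le
    rw [hq] at h2
    have h3 : ((2 : ℝ) ^ s i - 1) / c ≤ 2 ^ s i * (1 / c) := by
      rw [mul_one_div]
      gcongr
      linarith
    have h4 : (1 : ℝ) ≤ 2 ^ s i * (1 / 2 ^ σ) := by
      rw [mul_one_div, le_div_iff₀ (by positivity), one_mul]
      exact pow_le_pow_right₀ (by norm_num) (hσ i)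
    rw [mul_add]
    linarith
  · have h2 : (((2 ^ s i - 1) / c : ℕ) : ℝ) ≤ ((2 ^ s i - 1 : ℕ) : ℝ) := by
      exact_mod_cast Nat.div_le_self _ _
    rw [hq] at h2
    linarith

open Classical in
theorem card_prim {g : ℕ} (hg : 0 < g) (α : Fin k → ℤ) (s : Fin k → ℕ) {σ : ℕ} (hσ : ∀ i, σ ≤ s i)
    {i0 i1 : Fin k} (h01 : i0 ≠ i1) (hi0 : s i0 = σ) (h440 : 440 * g ≤ 2 ^ σ) :
    g ^ (k - 1) * ∏ i, 2 ^ s i ≤ 8 * #((box g s).filter (prim g α)) := by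
  have hk : 1 ≤ k := by have := i0.2; omega
  set C := 2 * (g * 2 ^ σ) with hC
  have h1 : (box g s).filter (inL g α) ⊆ (box g s).filter (prim g α) ∪
      (Finset.Ico 2 C).biUnion (mult g α s) := by
    intro m hm
    rw [Finset.mem_filter] at hm
    rw [Finset.mem_union]
    by_cases hp : prim g α m
    · left; rw [Finset.mem_filter]; exact ⟨hm.1, hp⟩
    · right
      have : ∃ c : ℕ, 2 ≤ c ∧ ∃ v : Fin k → ℕ, (∀ i, m i = c * v i) ∧ inL g α v := by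
        by_contra hcon
        apply hp
        refine ⟨hm.2, fun c hc v hv hL => hcon ⟨c, hc, v, hv, hL⟩⟩
      obtain ⟨c, hc, v, hv, hL⟩ := this
      rw [Finset.mem_biUnion]
      refine ⟨c, ?_, ?_⟩
      · rw [Finset.mem_Ico]
        refine ⟨hc, ?_⟩
        have h2 := mem_box.1 hm.1 i0
        rw [hi0] at h2
        have h3 : 0 < v i0 := by
          rcases Nat.eq_zero_or_pos (v i0) with h | h
          · rw [hv i0, h] at h2
            have : 0 < g * 2 ^ σ := by positivity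
            omega
          · exact h
        have : c ≤ m i0 := by rw [hv i0]; exact Nat.le_mul_of_pos_right _ h3
        omega
      · unfold mult
        rw [Finset.mem_filter]
        exact ⟨hm.1, v, hv, hL⟩
  have h2 := (Finset.card_le_card h1).trans (Finset.card_union_le _ _)
  have h3 : #((Finset.Ico 2 C).biUnion (mult g α s)) ≤ ∑ c ∈ Finset.Ico 2 C, #(mult g α s c) :=
    Finset.card_biUnion_le
  have h4 : ((∑ c ∈ Finset.Ico 2 C, #(mult g α s c) : ℕ) : ℝ) ≤ 7 / 8 * (#(resd g α) * ∏ i, (2 : ℝ) ^ s i) := by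
    push_cast
    calc ∑ c ∈ Finset.Ico 2 C, (#(mult g α s c) : ℝ)
        ≤ ∑ c ∈ Finset.Ico 2 C, (#(resd g α) * ∏ i, (2 : ℝ) ^ s i) * (1 / (c : ℝ) + 1 / 2 ^ σ) ^ 2 := by
          refine Finset.sum_le_sum fun c hc => ?_
          have hc0 : 0 < c := by have := (Finset.mem_Ico.1 hc).1; omega
          have h5 := card_mult hg α s hc0
          have h6 := prod_bound s hσ h01 hc0
          calc (#(mult g α s c) : ℝ) ≤ ((#(resd g α) * ∏ i, ((2 ^ s i - 1) / c + 1) : ℕ) : ℝ) := by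
                exact_mod_cast h5
            _ = #(resd g α) * ((∏ i, ((2 ^ s i - 1) / c + 1) : ℕ) : ℝ) := by push_cast; ring
            _ ≤ #(resd g α) * ((∏ i, (2 : ℝ) ^ s i) * (1 / (c : ℝ) + 1 / 2 ^ σ) ^ 2) := by gcongr
            _ = _ := by ring
      _ = (#(resd g α) * ∏ i, (2 : ℝ) ^ s i) * ∑ c ∈ Finset.Ico 2 C, (1 / (c : ℝ) + 1 / 2 ^ σ) ^ 2 := by
          rw [Finset.mul_sum]
      _ ≤ (#(resd g α) * ∏ i, (2 : ℝ) ^ s i) * (7 / 8) := by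
          gcongr
          exact sum_bound h440 le_rfl
      _ = _ := by ring
  have h5 := card_inL hg α s
  have h6 := card_resd hg α hk
  have h7 : ((#(resd g α) * ∏ i, 2 ^ s i : ℕ) : ℝ) ≤ #((box g s).filter (prim g α)) +
      7 / 8 * (#(resd g α) * ∏ i, (2 : ℝ) ^ s i) := by
    calc ((#(resd g α) * ∏ i, 2 ^ s i : ℕ) : ℝ) ≤ ((#((box g s).filter (inL g α)) : ℕ) : ℝ) := by exact_mod_cast h5
      _ ≤ ((#((box g s).filter (prim g α)) + #((Finset.Ico 2 C).biUnion (mult g α s)) : ℕ) : ℝ) := by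
          exact_mod_cast h2
      _ ≤ ((#((box g s).filter (prim g α)) + ∑ c ∈ Finset.Ico 2 C, #(mult g α s c) : ℕ) : ℝ) := by
          exact_mod_cast Nat.add_le_add_left h3 _
      _ ≤ _ := by rw [Nat.cast_add]; linarith
  have h8 : ((g ^ (k - 1) * ∏ i, 2 ^ s i : ℕ) : ℝ) ≤ #(resd g α) * ∏ i, (2 : ℝ) ^ s i := by
    have : ((g ^ (k - 1) : ℕ) : ℝ) ≤ #(resd g α) := by exact_mod_cast h6
    calc ((g ^ (k - 1) * ∏ i, 2 ^ s i : ℕ) : ℝ) = ((g ^ (k - 1) : ℕ) : ℝ) * ∏ i, (2 : ℝ) ^ s i := by push_cast; ring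
      _ ≤ _ := by gcongr
  have h9 : ((g ^ (k - 1) * ∏ i, 2 ^ s i : ℕ) : ℝ) ≤ ((8 * #((box g s).filter (prim g α)) : ℕ) : ℝ) := by
    push_cast at h7 h8 ⊢
    linarith
  exact_mod_cast h9

theorem exists_fam {g : ℕ} (hg : 0 < g) (hk : 2 ≤ k) (α : Fin k → ℤ) (s : Fin k → ℕ)
    (h440 : ∀ i, 440 * g ≤ 2 ^ s i) :
    ∃ F : Finset (Fin k → ℕ), (∀ m ∈ F, m ∈ box g s ∧ prim g α m) ∧
      8 * #F = g ^ (k - 1) * ∏ i, 2 ^ s i := by
  classical
  have hne : (Finset.univ : Finset (Fin k)).Nonempty := ⟨⟨0, by omega⟩, Finset.mem_univ _⟩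
  obtain ⟨i0, -, hi0⟩ := Finset.exists_min_image Finset.univ s hne
  obtain ⟨i1, hi1⟩ : ∃ i1 : Fin k, i0 ≠ i1 := by
    by_cases h : i0 = ⟨0, by omega⟩
    · exact ⟨⟨1, by omega⟩, by rw [h]; simp⟩
    · exact ⟨⟨0, by omega⟩, h⟩
  have h1 := card_prim hg α s (σ := s i0) (fun i => hi0 i (Finset.mem_univ _)) hi1 rfl (h440 i0)
  have h8 : 8 ∣ ∏ i, 2 ^ s i := by
    have h3 : 3 ≤ s i0 := by
      by_contra h
      have : 2 ^ s i0 ≤ 2 ^ 2 := Nat.pow_le_pow_right (by norm_num) (by omega)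
      have := h440 i0
      omega
    exact (dvd_trans (pow_dvd_pow 2 h3 : 2 ^ 3 ∣ 2 ^ s i0) (Finset.dvd_prod_of_mem _ (Finset.mem_univ i0)))
  obtain ⟨q, hq⟩ := h8
  have h2 : g ^ (k - 1) * q ≤ #((box g s).filter (prim g α)) := by
    rw [hq] at h1
    have : 8 * (g ^ (k - 1) * q) ≤ 8 * #((box g s).filter (prim g α)) := by
      calc 8 * (g ^ (k - 1) * q) = g ^ (k - 1) * (8 * q) := by ring
        _ ≤ _ := h1
    omega
  obtain ⟨F, hF, hc⟩ := Finset.exists_subset_card_eq h2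
  refine ⟨F, fun m hm => ?_, ?_⟩
  · have := hF hm
    rw [Finset.mem_filter] at this
    exact this
  · rw [hc, hq]; ring

end Pool.Agent.V8H55.LD
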