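import Pool.Agent.V8H55.LD.Stm

/-!
# Rounding
-/

set_option autoImplicit false

namespace Pool.Agent.V8H55.LD

open Finset

variable {k : ℕ}

/-- the dual vector of `w` -/
def mv (N g : ℕ) (b : Fin k → ℕ) (w : (Fin k → ℤ) × ℤ) : Fin (k + 1) → ℤ :=
  Fin.cons (-((∑ i, w.1 i * (b i : ℤ) - N * w.2) / g)) w.1

theorem mv_zero (N g : ℕ) (b : Fin k → ℕ) (w : (Fin k → ℤ) × ℤ) :
    mv N g b w 0 = -((∑ i, w.1 i * (b i : ℤ) - N * w.2) / g) := rfl

theorem mv_succ (N g : ℕ) (b : Fin k → ℕ) (w : (Fin k → ℤ) × ℤ) (i : Fin k) :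
    mv N g b w i.succ = w.1 i := rfl

theorem mv_dvd {N g : ℕ} {b : Fin k → ℕ} {α : Fin k → ℤ} {w : (Fin k → ℤ) × ℤ} (hgN : g ∣ N)
    (hα : ∀ i, (g : ℤ) ∣ (b i : ℤ) - α i) (hw : (g : ℤ) ∣ ∑ i, w.1 i * α i) :
    (g : ℤ) ∣ ∑ i, w.1 i * (b i : ℤ) - N * w.2 := by
  apply dvd_sub
  · have : (g : ℤ) ∣ ∑ i, w.1 i * (b i : ℤ) - ∑ i, w.1 i * α i := by
      rw [← Finset.sum_sub_distrib]
      refine Finset.dvd_sum fun i _ => ?_
      rw [← mul_sub]
      exact Dvd.dvd.mul_left (hα i) _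
    exact (dvd_iff_dvd_of_dvd_sub this).2 hw
  · exact Dvd.dvd.mul_right (Int.natCast_dvd_natCast.2 hgN) _

theorem mv_eq {N g : ℕ} {b : Fin k → ℕ} {α : Fin k → ℤ} {w : (Fin k → ℤ) × ℤ} (hgN : g ∣ N)
    (hα : ∀ i, (g : ℤ) ∣ (b i : ℤ) - α i) (hw : (g : ℤ) ∣ ∑ i, w.1 i * α i) :
    mv N g b w 0 * g + ∑ i, mv N g b w (Fin.succ i) * (b i : ℤ) = N * w.2 := by
  have h := mv_dvd hgN hα hw
  simp only [mv_zero, mv_succ]
  have := Int.ediv_mul_cancel h
  linarith

theorem abs_mv {N g : ℕ} {b : Fin k → ℕ} {α : Fin k → ℤ} {w : (Fin k → ℤ) × ℤ} (hgN : g ∣ N) (hg : 0 < g)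
    (hN : 0 < N) (hα : ∀ i, (g : ℤ) ∣ (b i : ℤ) - α i) (hw : (g : ℤ) ∣ ∑ i, w.1 i * α i) :
    |(mv N g b w 0 : ℝ)| = (N : ℝ) / g * |∑ i, (w.1 i : ℝ) * ((b i : ℝ) / N) - w.2| := by
  have h := mv_eq hgN hα hw
  simp only [mv_succ] at h
  have hR : (mv N g b w 0 : ℝ) * g + ∑ i, (w.1 i : ℝ) * (b i : ℝ) = N * w.2 := by exact_mod_cast h
  have hgR : (0 : ℝ) < g := by exact_mod_cast hg
  have hNR : (0 : ℝ) < N := by exact_mod_cast hN
  have e1 : ∑ i, (w.1 i : ℝ) * ((b i : ℝ) / N) = (∑ i, (w.1 i : ℝ) * (b i : ℝ)) / N := by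
    rw [Finset.sum_div]; refine Finset.sum_congr rfl fun i _ => ?_; ring
  have e2 : (mv N g b w 0 : ℝ) = -((N : ℝ) / g * (∑ i, (w.1 i : ℝ) * ((b i : ℝ) / N) - w.2)) := by
    rw [e1]; field_simp; linarith
  rw [e2, abs_neg, abs_mul, abs_of_pos (by positivity : (0 : ℝ) < (N : ℝ) / g)]

/-- the rounding lemma -/
theorem round {c L : ℝ} {N g : ℕ} {b : Fin k → ℕ} {α : Fin k → ℤ} {x : Fin k → ℝ}
    {V : Finset ((Fin k → ℤ) × ℤ)} (hk : 1 ≤ k) (hgN : g ∣ N) (hg : 0 < g) (hN : 0 < N)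
    (hL : L = Real.log N) (hL1 : 1 ≤ L) (hc : 0 < c)
    (hbig : 8 * k * Real.exp (L / 4) * L ^ (k + 1) ≤ Real.exp L)
    (hα : ∀ i, (g : ℤ) ∣ (b i : ℤ) - α i)
    (hx : ∀ i, |x i - (b i : ℝ) / N| ≤ (g : ℝ) / N) (hV : GoodR c L g α x V) :
    ∃ H : Finset (Fin (k + 1) → ℤ), (∀ m ∈ H, (N : ℤ) ∣ m 0 * g + ∑ i, m (Fin.succ i) * (b i : ℤ)) ∧
      ∀ a : Fin (k + 1) → Fin N, (∀ m ∈ H, Dual a m) → Good (c / 2) a H := by
  classical
  have hgR : (0 : ℝ) < g := by exact_mod_cast hg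
  have hNR : (0 : ℝ) < N := by exact_mod_cast hN
  have hkR : (1 : ℝ) ≤ k := by exact_mod_cast hk
  have hexpL : Real.exp L = N := by rw [hL, Real.exp_log hNR]
  have hL0 : 0 < L := by linarith
  have hprd0 : ∀ w ∈ V, 0 < prd w := by
    intro w hw
    unfold prd
    refine Finset.prod_pos fun i _ => abs_pos.2 ?_
    exact_mod_cast hV.ne w hw i
  have hdel0 : ∀ w ∈ V, 0 < del x w := by
    intro w hw
    have h1 := hV.lo w hw
    have h2 := hprd0 w hw
    have h3 : 0 < 2 * (g : ℝ) / L ^ (k + 1) := by positivity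
    by_contra hcon
    push Not at hcon
    have := mul_nonpos_of_nonpos_of_nonneg hcon h2.le
    linarith
  have hprd1 : ∀ w ∈ V, prd w ≤ Real.exp (L / 8) := by
    intro w hw
    unfold prd
    calc ∏ i, |(w.1 i : ℝ)| ≤ ∏ _i : Fin k, Real.exp (L / (8 * k)) :=
          Finset.prod_le_prod (fun _ _ => abs_nonneg _) fun i _ => hV.size w hw i
      _ = Real.exp (L / 8) := by
          rw [Finset.prod_const, Finset.card_univ, Fintype.card_fin, ← Real.exp_nat_mul]
          congr 1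
          field_simp
  have hclose : ∀ w ∈ V, |(|(mv N g b w 0 : ℝ)| - (N : ℝ) / g * del x w)| ≤ 1 / 4 * ((N : ℝ) / g * del x w) := by
    intro w hw
    rw [abs_mv hgN hg hN hα (hV.dvd w hw), ← mul_sub, abs_mul, abs_of_pos (by positivity : (0 : ℝ) < (N : ℝ) / g)]
    have h1 : |(|∑ i, (w.1 i : ℝ) * ((b i : ℝ) / N) - w.2| - del x w)| ≤ k * Real.exp (L / 8) * (g / N) := by
      unfold del
      refine (abs_abs_sub_abs_le _ _).trans ?_
      have e : ∑ i, (w.1 i : ℝ) * ((b i : ℝ) / N) - w.2 - (∑ i, (w.1 i : ℝ) * x i - w.2) =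
          ∑ i, (w.1 i : ℝ) * ((b i : ℝ) / N - x i) := by
        rw [Finset.sum_congr rfl fun i _ => mul_sub _ _ _, Finset.sum_sub_distrib]; ring
      rw [e]
      refine (Finset.abs_sum_le_sum_abs _ _).trans ?_
      calc ∑ i, |(w.1 i : ℝ) * ((b i : ℝ) / N - x i)| ≤ ∑ _i : Fin k, Real.exp (L / 8) * (g / N) := by
            refine Finset.sum_le_sum fun i _ => ?_
            rw [abs_mul]
            apply mul_le_mul ((hV.size w hw i).trans _) _ (abs_nonneg _) (Real.exp_pos _).le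
            · apply Real.exp_le_exp.2
              apply div_le_div_of_nonneg_left hL0.le (by norm_num)
              linarith
            · rw [abs_sub_comm]; exact hx i
        _ = k * Real.exp (L / 8) * (g / N) := by
            rw [Finset.sum_const, Finset.card_univ, Fintype.card_fin, nsmul_eq_mul]; ring
    have h2 : k * Real.exp (L / 8) * (g / N) ≤ 1 / 4 * del x w := by
      have h3 := hV.lo w hw
      have h4 := hprd1 w hw
      have h5 := hprd0 w hw
      have h6 := hdel0 w hw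
      have h7 : 2 * (g : ℝ) / L ^ (k + 1) ≤ del x w * Real.exp (L / 8) := h3.trans (by gcongr)
      have h8 : Real.exp (L / 4) = Real.exp (L / 8) * Real.exp (L / 8) := by rw [← Real.exp_add]; congr 1; ring
      have h9 : 2 * (g : ℝ) / (L ^ (k + 1) * Real.exp (L / 8)) ≤ del x w := by
        rw [div_le_iff₀ (by positivity)]
        rw [div_le_iff₀ (by positivity)] at h7
        linarith
      refine le_trans ?_ (mul_le_mul_of_nonneg_left h9 (by norm_num : (0:ℝ) ≤ 1 / 4))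
      rw [mul_div_assoc', mul_div_assoc', div_le_div_iff₀ (by positivity) (by positivity), ← hexpL]
      calc k * Real.exp (L / 8) * g * (L ^ (k + 1) * Real.exp (L / 8))
          = (8 * k * Real.exp (L / 4) * L ^ (k + 1)) * (g / 8) := by rw [h8]; ring
        _ ≤ Real.exp L * (g / 8) := by gcongr
        _ ≤ 1 / 4 * (2 * g) * Real.exp L := by nlinarith [Real.exp_pos L]
    calc (N : ℝ) / g * |(|∑ i, (w.1 i : ℝ) * ((b i : ℝ) / N) - w.2| - del x w)|
        ≤ (N : ℝ) / g * (1 / 4 * del x w) := by gcongr; exact h1.trans h2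
      _ = _ := by ring
  have hlow : ∀ w ∈ V, 3 / 4 * ((N : ℝ) / g * del x w) ≤ |(mv N g b w 0 : ℝ)| := by
    intro w hw; have := abs_le.1 (hclose w hw); linarith
  have hupp : ∀ w ∈ V, |(mv N g b w 0 : ℝ)| ≤ 5 / 4 * ((N : ℝ) / g * del x w) := by
    intro w hw; have := abs_le.1 (hclose w hw); linarith
  have hprod : ∀ w : (Fin k → ℤ) × ℤ, ∏ i, |(mv N g b w i : ℝ)| = |(mv N g b w 0 : ℝ)| * prd w := by
    intro w
    rw [Fin.prod_univ_succ]
    rfl
  have hinj : Set.InjOn (mv N g b) (V : Set ((Fin k → ℤ) × ℤ)) := by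
    intro w hw w' hw' h
    rw [Finset.mem_coe] at hw hw'
    have h1 := mv_eq hgN hα (hV.dvd w hw)
    have h2 := mv_eq hgN hα (hV.dvd w' hw')
    rw [h, h2] at h1
    have hN' : (N : ℤ) ≠ 0 := by exact_mod_cast hN.ne'
    have h3 := mul_left_cancel₀ hN' h1
    refine Prod.ext ?_ h3.symm
    funext i
    have := congrFun h (Fin.succ i)
    simpa [mv_succ] using this
  have hes : 5 / 3 ≤ Real.exp (L ^ (1 / 2 : ℝ)) := by
    have h1 : (1 : ℝ) ≤ L ^ (1 / 2 : ℝ) := Real.one_le_rpow hL1 (by norm_num)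
    have h2 := Real.exp_one_gt_d9
    have h3 : Real.exp 1 ≤ Real.exp (L ^ (1 / 2 : ℝ)) := Real.exp_le_exp.2 h1
    linarith
  have he2 : Real.exp (2 * L ^ (1 / 2 : ℝ)) = Real.exp (L ^ (1 / 2 : ℝ)) * Real.exp (L ^ (1 / 2 : ℝ)) := by
    rw [← Real.exp_add]; congr 1; ring
  refine ⟨V.image (mv N g b), ?_, ?_⟩
  · intro m hm
    obtain ⟨w, hw, rfl⟩ := Finset.mem_image.1 hm
    exact ⟨w.2, mv_eq hgN hα (hV.dvd w hw)⟩
  · intro a hdual
    refine ⟨hdual, ?_, ?_, ?_, ?_, ?_⟩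
    · intro m hm
      obtain ⟨w, hw, rfl⟩ := Finset.mem_image.1 hm
      rw [hprod, ← hL]
      have h1 := hV.lo w hw
      have h2 := hlow w hw
      have h3 := hprd0 w hw
      calc (N : ℝ) / L ^ (k + 1) ≤ 3 / 4 * ((N : ℝ) / g * (2 * g / L ^ (k + 1))) := by
            have : 3 / 4 * ((N : ℝ) / g * (2 * g / L ^ (k + 1))) = 3 / 2 * (N / L ^ (k + 1)) := by
              field_simp; ring
            rw [this]
            have : 0 ≤ (N : ℝ) / L ^ (k + 1) := by positivity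
            linarith
        _ ≤ 3 / 4 * ((N : ℝ) / g * (del x w * prd w)) := by gcongr
        _ = 3 / 4 * ((N : ℝ) / g * del x w) * prd w := by ring
        _ ≤ _ := by gcongr
    · intro m hm
      obtain ⟨w, hw, rfl⟩ := Finset.mem_image.1 hm
      rw [hprod]
      have h1 := hV.hi w hw
      have h2 := hupp w hw
      have h3 := hprd0 w hw
      calc |(mv N g b w 0 : ℝ)| * prd w ≤ 5 / 4 * ((N : ℝ) / g * del x w) * prd w := by gcongr
        _ = 5 / 4 * ((N : ℝ) / g * (del x w * prd w)) := by ring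
        _ ≤ 5 / 4 * ((N : ℝ) / g * (g / 2)) := by gcongr
        _ = 5 / 8 * N := by field_simp; ring
        _ ≤ N := by linarith
    · intro m hm m' hm' hne i
      obtain ⟨w, hw, rfl⟩ := Finset.mem_image.1 hm
      obtain ⟨w', hw', rfl⟩ := Finset.mem_image.1 hm'
      have hww : w ≠ w' := fun h => hne (by rw [h])
      rw [← hL]
      refine Fin.cases ?_ (fun j => ?_) i
      · have key : ∀ w ∈ V, ∀ w' ∈ V, Real.exp (2 * L ^ (1 / 2 : ℝ)) * del x w ≤ del x w' →
            Real.exp (L ^ (1 / 2 : ℝ)) * |(mv N g b w 0 : ℝ)| ≤ |(mv N g b w' 0 : ℝ)| := by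
          intro w hw w' hw' h
          rw [he2] at h
          have h1 := hupp w hw
          have h2 := hlow w' hw'
          have h3 := hdel0 w hw
          refine le_trans ?_ h2
          calc Real.exp (L ^ (1 / 2 : ℝ)) * |(mv N g b w 0 : ℝ)|
              ≤ Real.exp (L ^ (1 / 2 : ℝ)) * (5 / 4 * ((N : ℝ) / g * del x w)) := by gcongr
            _ = 3 / 4 * ((N : ℝ) / g * ((5 / 3) * (Real.exp (L ^ (1 / 2 : ℝ)) * del x w))) := by ring
            _ ≤ 3 / 4 * ((N : ℝ) / g * (Real.exp (L ^ (1 / 2 : ℝ)) * (Real.exp (L ^ (1 / 2 : ℝ)) * del x w))) := by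
                gcongr
            _ = 3 / 4 * ((N : ℝ) / g * (Real.exp (L ^ (1 / 2 : ℝ)) * Real.exp (L ^ (1 / 2 : ℝ)) * del x w)) := by ring
            _ ≤ _ := by gcongr
        rcases hV.sep' w hw w' hw' hww with h | h
        · left; exact key w hw w' hw' h
        · right; exact key w' hw' w hw h
      · have hle : Real.exp (L ^ (1 / 2 : ℝ)) ≤ Real.exp (2 * L ^ (1 / 2 : ℝ)) := by
          rw [he2]
          nlinarith
        simp only [mv_succ]
        rcases hV.sep w hw w' hw' hww j with h | h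
        · left; exact (mul_le_mul_of_nonneg_right hle (abs_nonneg _)).trans h
        · right; exact (mul_le_mul_of_nonneg_right hle (abs_nonneg _)).trans h
    · rw [← hL]
      exact (by exact_mod_cast Finset.card_image_le :
        ((#(V.image (mv N g b)) : ℕ) : ℝ) ≤ #V).trans hV.card
    · rw [← hL, Nat.add_sub_cancel, Finset.sum_image (fun w hw w' hw' h => hinj hw hw' h), Finset.mul_sum]
      have h1 := hV.sum
      have h2 : ∀ w ∈ V, 1 / 2 * ((g : ℝ) / (del x w * prd w)) ≤ N * (1 / ∏ i, |(mv N g b w i : ℝ)|) := by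
        intro w hw
        rw [hprod]
        have h3 := hdel0 w hw
        have h4 := hprd0 w hw
        have h5 := hupp w hw
        have h6 := hlow w hw
        have h7 : 0 < |(mv N g b w 0 : ℝ)| := lt_of_lt_of_le (by positivity) h6
        rw [mul_one_div, mul_div_assoc', div_le_div_iff₀ (by positivity) (by positivity)]
        calc 1 / 2 * (g : ℝ) * (|(mv N g b w 0 : ℝ)| * prd w)
            ≤ 1 / 2 * g * ((5 / 4 * ((N : ℝ) / g * del x w)) * prd w) := by gcongr
          _ = 5 / 8 * (N * (del x w * prd w)) := by field_simp; ring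
          _ ≤ N * (del x w * prd w) := by
              have : 0 ≤ (N : ℝ) * (del x w * prd w) := by positivity
              linarith
      refine le_trans ?_ (Finset.sum_le_sum h2)
      rw [← Finset.mul_sum]
      linarith

end Pool.Agent.V8H55.LD
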