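import Mathlib

/-!
# One-dimensional sums
-/

set_option autoImplicit false

namespace Pool.Agent.V8H55.LD

open Finset

variable {Q : ℕ} [NeZero Q]

/-- the character -/
noncomputable def psi (x : ZMod Q) : ℂ := ZMod.stdAddChar x

theorem psi_add (x y : ZMod Q) : psi (x + y) = psi x * psi y := AddChar.map_add_eq_mul _ _ _

theorem psi_zero : psi (0 : ZMod Q) = 1 := AddChar.map_zero_eq_one _

theorem psi_norm (x : ZMod Q) : ‖psi x‖ = 1 := AddChar.norm_apply _ _

theorem psi_neg (x : ZMod Q) : psi (-x) = (starRingEnd ℂ) (psi x) := by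
  unfold psi
  rw [AddChar.map_neg_eq_conj]

theorem psi_sum {ι : Type*} (s : Finset ι) (f : ι → ZMod Q) : psi (∑ i ∈ s, f i) = ∏ i ∈ s, psi (f i) := by
  classical
  induction s using Finset.induction_on with
  | empty => simp [psi_zero]
  | insert a s ha ih => rw [Finset.sum_insert ha, Finset.prod_insert ha, psi_add, ih]

theorem psi_nsmul (n : ℕ) (x : ZMod Q) : psi ((n : ZMod Q) * x) = psi x ^ n := by
  unfold psi
  rw [← nsmul_eq_mul, AddChar.map_nsmul_eq_pow]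

theorem sum_psi {k : ZMod Q} (hk : k ≠ 0) : ∑ x : ZMod Q, psi (k * x) = 0 := by
  unfold psi
  have := AddChar.sum_mulShift k (ZMod.isPrimitive_stdAddChar Q)
  simp only [mul_comm _ k, hk, if_false] at this
  simpa using this

theorem psi_int (j : ℤ) : psi (j : ZMod Q) = Complex.exp (Complex.I * ((2 * Real.pi * j / Q : ℝ) : ℂ)) := by
  unfold psi
  rw [ZMod.stdAddChar_coe]
  congr 1
  push_cast
  ring

/-- the interval -/
def Jn (t : ℕ) (y : ZMod Q) : ℝ := if y.val < t then 1 else 0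

/-- the Fourier coefficient of the interval -/
noncomputable def Gt (t : ℕ) (k : ZMod Q) : ℂ := (1 / (Q : ℂ)) * ∑ y : ZMod Q, (Jn t y : ℂ) * psi (-(k * y))

theorem sum_J (t : ℕ) (ht : t ≤ Q) (f : ZMod Q → ℂ) :
    ∑ y : ZMod Q, (Jn t y : ℂ) * f y = ∑ v ∈ range t, f (v : ZMod Q) := by
  have h1 : ∑ y : ZMod Q, (Jn t y : ℂ) * f y = ∑ y ∈ (Finset.univ.filter fun y : ZMod Q => y.val < t), f y := by
    rw [Finset.sum_filter]
    refine Finset.sum_congr rfl fun y _ => ?_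
    unfold Jn
    split_ifs <;> simp
  rw [h1]
  refine Finset.sum_nbij' (fun y => y.val) (fun v => (v : ZMod Q)) ?_ ?_ ?_ ?_ ?_
  · intro y hy
    rw [Finset.mem_filter] at hy
    exact Finset.mem_range.2 hy.2
  · intro v hv
    rw [Finset.mem_range] at hv
    rw [Finset.mem_filter, ZMod.val_natCast, Nat.mod_eq_of_lt (by omega)]
    exact ⟨Finset.mem_univ _, hv⟩
  · intro y _
    exact ZMod.natCast_zmod_val y
  · intro v hv
    rw [Finset.mem_range] at hv
    rw [ZMod.val_natCast, Nat.mod_eq_of_lt (by omega)]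
  · intro y _
    rw [ZMod.natCast_zmod_val]

theorem Gt_zero (t : ℕ) (ht : t ≤ Q) : Gt t (0 : ZMod Q) = (t : ℂ) / Q := by
  unfold Gt
  rw [sum_J t ht]
  simp [psi_zero]
  ring

theorem norm_Gt {t : ℕ} (ht : t ≤ Q) {k : ℤ} (h1 : 0 < |k|) (h2 : 2 * |k| ≤ Q) :
    ‖Gt t (k : ZMod Q)‖ = |Real.sin (Real.pi * k * t / Q)| / (Q * |Real.sin (Real.pi * k / Q)|) := by
  have hQ : (0 : ℝ) < Q := by exact_mod_cast NeZero.pos Q
  unfold Gt
  rw [sum_J t ht]
  set r : ℂ := psi (-(k : ZMod Q)) with hr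
  have e1 : ∀ v ∈ range t, psi (-((k : ZMod Q) * (v : ZMod Q))) = r ^ v := by
    intro v _
    rw [hr, ← psi_nsmul]; congr 1; ring
  rw [Finset.sum_congr rfl e1]
  have e2 : ∀ j : ℤ, ‖psi (j : ZMod Q) - 1‖ = 2 * |Real.sin (Real.pi * j / Q)| := by
    intro j
    rw [psi_int, Complex.norm_exp_I_mul_ofReal_sub_one, norm_mul, Real.norm_eq_abs, Real.norm_eq_abs,
      abs_of_pos (by norm_num : (0:ℝ) < 2)]
    congr 3
    ring
  have e3 : r = psi ((-k : ℤ) : ZMod Q) := by rw [hr]; push_cast; rfl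
  have e4 : r ^ t = psi ((-(k * t) : ℤ) : ZMod Q) := by
    rw [hr, ← psi_nsmul]; congr 1; push_cast; ring
  have hsin : 0 < |Real.sin (Real.pi * k / Q)| := by
    rw [abs_pos]
    intro h0
    have hk' : (k : ℝ) ≠ 0 := by
      have : k ≠ 0 := abs_pos.1 h1
      exact_mod_cast this
    rw [Real.sin_eq_zero_iff] at h0
    obtain ⟨n, hn⟩ := h0
    have hpi := Real.pi_pos
    have h3 : (n : ℝ) * Q = k := by
      field_simp at hn
      linarith
    have h4 : n * (Q : ℤ) = k := by exact_mod_cast h3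
    have hn0 : n ≠ 0 := by
      rintro rfl
      apply hk'
      rw [← h4]; simp
    have h5 : 1 ≤ |n| := Int.one_le_abs hn0
    have h6 : |k| = |n| * Q := by rw [← h4, abs_mul, Nat.abs_cast]
    have h7 : (0 : ℤ) < Q := by exact_mod_cast NeZero.pos Q
    nlinarith
  have hne : r ≠ 1 := by
    intro h0
    have := e2 (-k)
    rw [← e3, h0, sub_self, norm_zero] at this
    push_cast at this
    rw [mul_neg, neg_div, Real.sin_neg, abs_neg] at this
    linarith
  rw [geom_sum_eq hne, norm_mul, norm_div, norm_div, e4, e3, e2, e2, norm_one]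
  have e5 : ‖(Q : ℂ)‖ = Q := by simp
  rw [e5]
  push_cast
  have e6 : Real.pi * -(k * t : ℝ) / Q = -(Real.pi * k * t / Q) := by ring
  have e7 : Real.pi * -(k : ℝ) / Q = -(Real.pi * k / Q) := by ring
  rw [e6, e7, Real.sin_neg, Real.sin_neg, abs_neg, abs_neg]
  field_simp

theorem norm_Gt_le {t : ℕ} (ht : t ≤ Q) {k : ℤ} (h1 : 0 < |k|) (h2 : 2 * |k| ≤ Q) :
    ‖Gt t (k : ZMod Q)‖ ≤ 1 / (2 * |(k : ℝ)|) := by
  have hQ : (0 : ℝ) < Q := by exact_mod_cast NeZero.pos Q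
  have hk : (0 : ℝ) < |(k : ℝ)| := by exact_mod_cast h1
  have hk2 : 2 * |(k : ℝ)| ≤ Q := by exact_mod_cast h2
  rw [norm_Gt ht h1 h2]
  have h3 : 2 * |(k : ℝ)| / Q ≤ |Real.sin (Real.pi * k / Q)| := by
    have e : |Real.sin (Real.pi * k / Q)| = |Real.sin (Real.pi * |(k : ℝ)| / Q)| := by
      rcases abs_cases (k : ℝ) with ⟨h, _⟩ | ⟨h, _⟩
      · rw [h]
      · rw [h]
        have : Real.pi * -(k : ℝ) / Q = -(Real.pi * k / Q) := by ring
        rw [this, Real.sin_neg, abs_neg]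
    rw [e]
    refine le_trans ?_ (le_abs_self _)
    have h4 : 2 / Real.pi * (Real.pi * |(k : ℝ)| / Q) ≤ Real.sin (Real.pi * |(k : ℝ)| / Q) := by
      apply Real.mul_le_sin
      · positivity
      · rw [div_le_div_iff₀ hQ (by norm_num)]
        nlinarith [Real.pi_pos]
    have e2 : 2 / Real.pi * (Real.pi * |(k : ℝ)| / Q) = 2 * |(k : ℝ)| / Q := by field_simp
    rwa [e2] at h4
  have h5 : |Real.sin (Real.pi * k * t / Q)| ≤ 1 := Real.abs_sin_le_one _
  have h6 : 0 < 2 * |(k : ℝ)| / Q := by positivity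
  calc |Real.sin (Real.pi * k * t / Q)| / (Q * |Real.sin (Real.pi * k / Q)|)
      ≤ 1 / (Q * (2 * |(k : ℝ)| / Q)) := by gcongr
    _ = _ := by field_simp

theorem le_norm_Gt {t : ℕ} (ht : t ≤ Q) {k : ℤ} (h1 : 0 < |k|) (h2 : 2 * |k| ≤ Q) :
    Real.sin (Real.pi * k * t / Q) ^ 2 / (Real.pi * |(k : ℝ)|) ≤ ‖Gt t (k : ZMod Q)‖ := by
  have hQ : (0 : ℝ) < Q := by exact_mod_cast NeZero.pos Q
  have hk : (0 : ℝ) < |(k : ℝ)| := by exact_mod_cast h1
  have hup := norm_Gt_le ht h1 h2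
  rw [norm_Gt ht h1 h2]
  have hpi := Real.pi_pos
  have h3 : |Real.sin (Real.pi * k / Q)| ≤ Real.pi * |(k : ℝ)| / Q := by
    refine (Real.abs_sin_le_abs).trans ?_
    rw [abs_div, abs_mul, abs_of_pos hpi, Nat.abs_cast]
  have h5 : |Real.sin (Real.pi * k * t / Q)| ≤ 1 := Real.abs_sin_le_one _
  have h6 : Real.sin (Real.pi * k * t / Q) ^ 2 ≤ |Real.sin (Real.pi * k * t / Q)| := by
    rw [← sq_abs]; nlinarith [abs_nonneg (Real.sin (Real.pi * k * t / Q))]
  rcases eq_or_lt_of_le (abs_nonneg (Real.sin (Real.pi * k / Q))) with h0 | h0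
  · exfalso
    have : (2 : ℝ) * |(k : ℝ)| / Q ≤ 0 := by
      rw [h0]
      have e : |Real.sin (Real.pi * k / Q)| = |Real.sin (Real.pi * |(k : ℝ)| / Q)| := by
        rcases abs_cases (k : ℝ) with ⟨h, _⟩ | ⟨h, _⟩
        · rw [h]
        · rw [h]
          have : Real.pi * -(k : ℝ) / Q = -(Real.pi * k / Q) := by ring
          rw [this, Real.sin_neg, abs_neg]
      rw [e]
      refine le_trans ?_ (le_abs_self _)
      have hk2 : 2 * |(k : ℝ)| ≤ Q := by exact_mod_cast h2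
      have h4 : 2 / Real.pi * (Real.pi * |(k : ℝ)| / Q) ≤ Real.sin (Real.pi * |(k : ℝ)| / Q) := by
        apply Real.mul_le_sin
        · positivity
        · rw [div_le_div_iff₀ hQ (by norm_num)]
          nlinarith [Real.pi_pos]
      have e2 : 2 / Real.pi * (Real.pi * |(k : ℝ)| / Q) = 2 * |(k : ℝ)| / Q := by field_simp
      rwa [e2] at h4
    have : 0 < 2 * |(k : ℝ)| / Q := by positivity
    linarith
  · calc Real.sin (Real.pi * k * t / Q) ^ 2 / (Real.pi * |(k : ℝ)|)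
        ≤ |Real.sin (Real.pi * k * t / Q)| / (Q * (Real.pi * |(k : ℝ)| / Q)) := by
          have : (Q : ℝ) * (Real.pi * |(k : ℝ)| / Q) = Real.pi * |(k : ℝ)| := by field_simp
          rw [this]; gcongr
      _ ≤ _ := by gcongr

theorem sum_sin_sq {k : ℤ} (h1 : 0 < |k|) (h2 : 2 * |k| ≤ Q) :
    ∑ τ : ZMod Q, Real.sin (Real.pi * k * (τ.val : ℕ) / Q) ^ 2 = Q / 2 := by
  have hk : (k : ZMod Q) ≠ 0 := by
    rw [Ne, ZMod.intCast_zmod_eq_zero_iff_dvd]
    intro h
    have := Int.le_of_dvd h1 ((dvd_abs _ _).2 h)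
    omega
  have h3 := congrArg Complex.re (sum_psi hk)
  rw [Complex.re_sum, Complex.zero_re] at h3
  have e : ∀ τ : ZMod Q, Real.sin (Real.pi * k * (τ.val : ℕ) / Q) ^ 2 =
      1 / 2 - (psi ((k : ZMod Q) * τ)).re / 2 := by
    intro τ
    have e1 : (k : ZMod Q) * τ = ((k * (τ.val : ℕ) : ℤ) : ZMod Q) := by
      push_cast; rw [ZMod.natCast_zmod_val]
    rw [e1, psi_int, mul_comm Complex.I, Complex.exp_ofReal_mul_I_re]
    have e2 : (2 * Real.pi * ((k * (τ.val : ℕ) : ℤ) : ℝ) / Q) = 2 * (Real.pi * k * (τ.val : ℕ) / Q) := by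
      push_cast; ring
    rw [e2, Real.cos_two_mul, Real.sin_sq]
    ring
  have h4 : ∑ τ : ZMod Q, (psi ((k : ZMod Q) * τ)).re / 2 = 0 := by rw [← Finset.sum_div, h3, zero_div]
  rw [Finset.sum_congr rfl fun τ _ => e τ, Finset.sum_sub_distrib, h4, Finset.sum_const,
    Finset.card_univ, ZMod.card, nsmul_eq_mul]
  ring

end Pool.Agent.V8H55.LD
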