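import Pool.Agent.V8H55.LD.Rz1
import Pool.Agent.V8H55.LD.Asm

/-!
# Wrapped boxes
-/

set_option autoImplicit false

namespace Pool.Agent.V8H55.LD

open Finset

theorem J_split {Q : ℕ} [NeZero Q] (x u : ZMod Q) {t : ℕ} (ht : t ≤ Q) :
    Jn t (x - u) = (if u.val ≤ x.val ∧ x.val < min Q (u.val + t) then 1 else 0) +
      (if x.val < u.val + t - Q then 1 else 0) := by
  have hx := ZMod.val_lt x
  have hu := ZMod.val_lt u
  unfold Jn
  rcases le_or_gt u.val x.val with h | h
  · rw [ZMod.val_sub h]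
    have h2 : ¬ x.val < u.val + t - Q := by omega
    rw [if_neg h2, add_zero]
    by_cases h3 : x.val - u.val < t
    · rw [if_pos h3, if_pos ⟨h, lt_min hx (by omega)⟩]
    · rw [if_neg h3, if_neg]
      rintro ⟨-, h4⟩
      have := lt_min_iff.1 h4
      omega
  · have h1 : (x - u).val = Q + x.val - u.val := by
      have e : x - u = -(u - x) := by ring
      have hne : u - x ≠ 0 := by
        intro h0
        have := congrArg ZMod.val h0
        rw [ZMod.val_sub h.le, ZMod.val_zero] at this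
        omega
      rw [e, ZMod.neg_val, if_neg hne, ZMod.val_sub h.le]
      omega
    rw [h1, if_neg (by omega : ¬ (u.val ≤ x.val ∧ x.val < min Q (u.val + t))), zero_add]
    by_cases h3 : Q + x.val - u.val < t
    · rw [if_pos h3, if_pos (by omega)]
    · rw [if_neg h3, if_neg (by omega)]

variable {d N M : ℕ}

/-- the points mod `Q` -/
def Xp (M : ℕ) (a : Fin d → Fin N) (n : ℕ) (j : Fin d) : ZMod (N * M) := ((M * (n * (a j : ℕ)) : ℕ) : ZMod (N * M))

theorem Xp_val (hN : 0 < N) (hM : 0 < M) (a : Fin d → Fin N) (n : ℕ) (j : Fin d) :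
    ((Xp M a n j).val : ℝ) / ((N * M : ℕ) : ℝ) = pt a n j := by
  have hNR : (0 : ℝ) < N := by exact_mod_cast hN
  have hMR : (0 : ℝ) < M := by exact_mod_cast hM
  unfold Xp pt
  rw [ZMod.val_natCast, mul_comm N M, Nat.mul_mod_mul_left]
  have : (n : ℝ) * ((a j : ℕ) : ℝ) / (N : ℝ) = ((n * (a j : ℕ) : ℕ) : ℝ) / (N : ℝ) := by push_cast; ring
  rw [this, Int.fract_div_natCast_eq_div_natCast_mod]
  push_cast
  field_simp

/-- the local discrepancy of a wrapped box -/
noncomputable def Fd (M : ℕ) [NeZero (N * M)] (a : Fin d → Fin N) (t : Fin d → ℕ) (u : Fin d → ZMod (N * M)) : ℝ :=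
  (∑ n ∈ range N, ∏ j, Jn (t j) (Xp M a n j - u j)) / N - ∏ j, ((t j : ℝ) / ((N * M : ℕ) : ℝ))

/-- endpoints -/
noncomputable def lo (Q : ℕ) (u : ZMod Q) (b : Bool) : ℝ := if b then (u.val : ℝ) / Q else 0

/-- endpoints -/
noncomputable def hi (Q : ℕ) (t : ℕ) (u : ZMod Q) (b : Bool) : ℝ :=
  if b then ((min Q (u.val + t) : ℕ) : ℝ) / Q else ((u.val + t - Q : ℕ) : ℝ) / Q

theorem box_ok {Q : ℕ} [NeZero Q] (t : ℕ) (ht : t ≤ Q) (u : ZMod Q) (b : Bool) :
    0 ≤ lo Q u b ∧ lo Q u b ≤ hi Q t u b ∧ hi Q t u b ≤ 1 := by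
  have hQ : (0 : ℝ) < Q := by exact_mod_cast NeZero.pos Q
  have hu := ZMod.val_lt u
  unfold lo hi
  cases b
  · simp only [Bool.false_eq_true, if_false]
    refine ⟨le_rfl, by positivity, ?_⟩
    rw [div_le_one hQ]
    have : u.val + t - Q ≤ Q := by omega
    exact_mod_cast this
  · simp only [if_true]
    refine ⟨by positivity, ?_, ?_⟩
    · gcongr
      omega
    · rw [div_le_one hQ]
      exact_mod_cast min_le_left _ _

theorem len_sum {Q : ℕ} [NeZero Q] (t : ℕ) (ht : t ≤ Q) (u : ZMod Q) :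
    ∑ b : Bool, (hi Q t u b - lo Q u b) = (t : ℝ) / Q := by
  have hQ : (0 : ℝ) < Q := by exact_mod_cast NeZero.pos Q
  have hu := ZMod.val_lt u
  rw [Fintype.sum_bool]
  unfold lo hi
  simp only [if_true, Bool.false_eq_true, if_false]
  have h : (min Q (u.val + t)) + (u.val + t - Q) = t + u.val := by omega
  have h' : ((min Q (u.val + t) : ℕ) : ℝ) + ((u.val + t - Q : ℕ) : ℝ) = t + u.val := by exact_mod_cast h
  rw [sub_zero]
  field_simp
  linarith

open Classical in
theorem J_ind {Q : ℕ} [NeZero Q] (x u : ZMod Q) {t : ℕ} (ht : t ≤ Q) :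
    Jn t (x - u) = ∑ b : Bool, if lo Q u b ≤ (x.val : ℝ) / Q ∧ (x.val : ℝ) / Q < hi Q t u b then (1 : ℝ) else 0 := by
  have hQ : (0 : ℝ) < Q := by exact_mod_cast NeZero.pos Q
  rw [J_split x u ht, Fintype.sum_bool]
  unfold lo hi
  simp only [if_true, Bool.false_eq_true, if_false]
  have e1 : ((u.val : ℝ) / Q ≤ (x.val : ℝ) / Q ∧ (x.val : ℝ) / Q < ((min Q (u.val + t) : ℕ) : ℝ) / Q) ↔
      (u.val ≤ x.val ∧ x.val < min Q (u.val + t)) := by
    rw [div_le_div_iff_of_pos_right hQ, div_lt_div_iff_of_pos_right hQ, Nat.cast_le, Nat.cast_lt]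
  have e2 : ((0 : ℝ) ≤ (x.val : ℝ) / Q ∧ (x.val : ℝ) / Q < ((u.val + t - Q : ℕ) : ℝ) / Q) ↔
      x.val < u.val + t - Q := by
    rw [div_lt_div_iff_of_pos_right hQ, Nat.cast_lt]
    constructor
    · exact fun h => h.2
    · exact fun h => ⟨by positivity, h⟩
  rw [if_congr e1 rfl rfl, if_congr e2 rfl rfl]

theorem abs_Fd_le (hN : 0 < N) (hM : 0 < M) [NeZero (N * M)] (a : Fin d → Fin N) {t : Fin d → ℕ}
    (ht : ∀ j, t j ≤ N * M) (u : Fin d → ZMod (N * M)) : |Fd M a t u| ≤ 2 ^ d * disc a := by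
  classical
  have hNR : (0 : ℝ) < N := by exact_mod_cast hN
  have key : Fd M a t u = ∑ c : Fin d → Bool, ((cnt a (fun j => lo (N * M) (u j) (c j))
      (fun j => hi (N * M) (t j) (u j) (c j)) : ℝ) / N -
        ∏ j, (hi (N * M) (t j) (u j) (c j) - lo (N * M) (u j) (c j))) := by
    rw [Finset.sum_sub_distrib, ← Finset.sum_div]
    unfold Fd
    congr 2
    · have e1 : ∀ n ∈ range N, ∏ j, Jn (t j) (Xp M a n j - u j) = ∑ c : Fin d → Bool,
          ∏ j, (if lo (N * M) (u j) (c j) ≤ pt a n j ∧ pt a n j < hi (N * M) (t j) (u j) (c j) then (1 : ℝ) else 0) := by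
        intro n _
        have e2 : ∀ j ∈ (Finset.univ : Finset (Fin d)), Jn (t j) (Xp M a n j - u j) =
            ∑ b ∈ (Finset.univ : Finset Bool), (if lo (N * M) (u j) b ≤ pt a n j ∧
              pt a n j < hi (N * M) (t j) (u j) b then (1 : ℝ) else 0) := by
          intro j _
          rw [J_ind _ _ (ht j), Xp_val hN hM]
        rw [Finset.prod_congr rfl e2, Finset.prod_univ_sum, Fintype.piFinset_univ]
      rw [Finset.sum_congr rfl e1, Finset.sum_comm]
      refine Finset.sum_congr rfl fun c _ => ?_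
      unfold cnt
      rw [Finset.card_filter]
      push_cast
      refine Finset.sum_congr rfl fun n _ => ?_
      rw [Finset.prod_ite_zero]
      simp
    · have e2 : ∀ j ∈ (Finset.univ : Finset (Fin d)), ((t j : ℝ) / ((N * M : ℕ) : ℝ)) =
          ∑ b ∈ (Finset.univ : Finset Bool), (hi (N * M) (t j) (u j) b - lo (N * M) (u j) b) := by
        intro j _
        exact (len_sum (t j) (ht j) (u j)).symm
      rw [Finset.prod_congr rfl e2, Finset.prod_univ_sum, Fintype.piFinset_univ]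
  rw [key]
  refine (Finset.abs_sum_le_sum_abs _ _).trans ?_
  calc ∑ c : Fin d → Bool, |((cnt a (fun j => lo (N * M) (u j) (c j))
      (fun j => hi (N * M) (t j) (u j) (c j)) : ℝ) / N -
        ∏ j, (hi (N * M) (t j) (u j) (c j) - lo (N * M) (u j) (c j)))| ≤ ∑ _c : Fin d → Bool, disc a := by
        refine Finset.sum_le_sum fun c _ => ?_
        exact le_disc hN a fun j => box_ok (t j) (ht j) (u j) (c j)
    _ = 2 ^ d * disc a := by
        rw [Finset.sum_const, Finset.card_univ, nsmul_eq_mul]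
        simp

end Pool.Agent.V8H55.LD
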