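import Pool.Agent.V8H55.LD.Rz2

/-!
# The Riesz product
-/

set_option autoImplicit false

namespace Pool.Agent.V8H55.LD

open Finset

/-- lacunary sums -/
theorem lac {β : Type*} [DecidableEq β] (x : β → ℤ) : ∀ (n : ℕ) (S : Finset β), #S = n →
    (∀ a ∈ S, ∀ b ∈ S, a ≠ b → 3 * |x a| ≤ |x b| ∨ 3 * |x b| ≤ |x a|) →
    ∀ b ∈ S, (∀ a ∈ S, |x a| ≤ |x b|) → 2 * ∑ a ∈ S.erase b, |x a| ≤ |x b| := by
  intro n
  induction n with
  | zero =>
    intro S hS _ b hb _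
    rw [Finset.card_eq_zero] at hS
    rw [hS] at hb
    exact absurd hb (Finset.notMem_empty _)
  | succ n ih =>
    intro S hS h b hb hmax
    rcases (S.erase b).eq_empty_or_nonempty with he | he
    · rw [he, Finset.sum_empty, mul_zero]; exact abs_nonneg _
    · obtain ⟨b', hb', hmax'⟩ := Finset.exists_max_image (S.erase b) (fun a => |x a|) he
      have h1 := ih (S.erase b) (by rw [Finset.card_erase_of_mem hb, hS]; rfl)
        (fun a ha c hc hac => h a (Finset.mem_of_mem_erase ha) c (Finset.mem_of_mem_erase hc) hac) b' hb' hmax'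
      rw [← Finset.add_sum_erase _ _ hb']
      have h2 := h b' (Finset.mem_of_mem_erase hb') b hb (Finset.ne_of_mem_erase hb')
      have h3 := hmax b' (Finset.mem_of_mem_erase hb')
      have h4 := abs_nonneg (x b)
      have h5 := abs_nonneg (x b')
      rcases h2 with h2 | h2 <;> omega

theorem lac' {β : Type*} [DecidableEq β] (x : β → ℤ) (S T : Finset β) (hT : T ⊆ S)
    (h : ∀ a ∈ S, ∀ b ∈ S, a ≠ b → 3 * |x a| ≤ |x b| ∨ 3 * |x b| ≤ |x a|) {c : β} (hc : c ∈ S) :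
    |x c| ≤ 2 * |∑ a ∈ T, x a - ∑ a ∈ S \ T, x a| := by
  obtain ⟨b, hb, hmax⟩ := Finset.exists_max_image S (fun a => |x a|) ⟨c, hc⟩
  have h1 := lac x _ S rfl h b hb hmax
  have h2 := hmax c hc
  have e : ∑ a ∈ T, x a - ∑ a ∈ S \ T, x a = ∑ a ∈ S, (if a ∈ T then 1 else -1) * x a := by
    rw [← Finset.sum_sdiff hT]
    have e1 : ∑ a ∈ S \ T, (if a ∈ T then 1 else -1) * x a = - ∑ a ∈ S \ T, x a := by
      rw [← Finset.sum_neg_distrib]
      refine Finset.sum_congr rfl fun a ha => ?_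
      rw [if_neg (Finset.mem_sdiff.1 ha).2]; ring
    have e2 : ∑ a ∈ T, (if a ∈ T then 1 else -1) * x a = ∑ a ∈ T, x a := by
      refine Finset.sum_congr rfl fun a ha => ?_
      rw [if_pos ha]; ring
    rw [e1, e2]; ring
  rw [e, ← Finset.add_sum_erase _ _ hb]
  have h3 : |∑ a ∈ S.erase b, (if a ∈ T then 1 else -1) * x a| ≤ ∑ a ∈ S.erase b, |x a| := by
    refine (Finset.abs_sum_le_sum_abs _ _).trans (Finset.sum_le_sum fun a _ => ?_)
    rw [abs_mul]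
    split_ifs <;> simp
  have h4 : |(if b ∈ T then 1 else -1) * x b| = |x b| := by
    rw [abs_mul]; split_ifs <;> simp
  have h5 := abs_sub_abs_le_abs_sub ((if b ∈ T then 1 else -1) * x b)
    (-(∑ a ∈ S.erase b, (if a ∈ T then 1 else -1) * x a))
  rw [sub_neg_eq_add, abs_neg, h4] at h5
  omega

theorem lac_le {β : Type*} [DecidableEq β] (x : β → ℤ) (S T : Finset β) (hT : T ⊆ S) :
    |∑ a ∈ T, x a - ∑ a ∈ S \ T, x a| ≤ ∑ a ∈ S, |x a| := by
  refine (abs_sub _ _).trans ?_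
  rw [← Finset.sum_sdiff hT, add_comm]
  exact add_le_add (Finset.abs_sum_le_sum_abs _ _) (Finset.abs_sum_le_sum_abs _ _)

section

variable {d Q : ℕ} [NeZero Q]

/-- the character of the torus -/
noncomputable def ph (k : Fin d → ℤ) (u : Fin d → ZMod Q) : ℂ := psi (∑ j, (k j : ZMod Q) * u j)

theorem ph_norm (k : Fin d → ℤ) (u : Fin d → ZMod Q) : ‖ph k u‖ = 1 := psi_norm _

theorem ph_add (k l : Fin d → ℤ) (u : Fin d → ZMod Q) : ph (k + l) u = ph k u * ph l u := by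
  unfold ph
  rw [← psi_add, ← Finset.sum_add_distrib]
  congr 1
  refine Finset.sum_congr rfl fun j _ => ?_
  rw [Pi.add_apply]; push_cast; ring

theorem ph_zero (u : Fin d → ZMod Q) : ph (0 : Fin d → ℤ) u = 1 := by
  unfold ph
  simp [psi_zero]

theorem ph_neg (k : Fin d → ℤ) (u : Fin d → ZMod Q) : ph (-k) u = (starRingEnd ℂ) (ph k u) := by
  unfold ph
  rw [← psi_neg, ← Finset.sum_neg_distrib]
  congr 1
  refine Finset.sum_congr rfl fun j _ => ?_
  rw [Pi.neg_apply]; push_cast; ring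

theorem ph_sum {β : Type*} [DecidableEq β] (S : Finset β) (f : β → Fin d → ℤ) (u : Fin d → ZMod Q) :
    ph (∑ a ∈ S, f a) u = ∏ a ∈ S, ph (f a) u := by
  induction S using Finset.induction_on with
  | empty => simp [ph_zero]
  | insert a s ha ih => rw [Finset.sum_insert ha, Finset.prod_insert ha, ph_add, ih]

theorem ph_prod (k : Fin d → ℤ) (u : Fin d → ZMod Q) : ph k u = ∏ j, psi ((k j : ZMod Q) * u j) := by
  unfold ph; exact psi_sum _ _

theorem sum_ph {k : Fin d → ℤ} {j : Fin d} (h : (k j : ZMod Q) ≠ 0) : ∑ u : Fin d → ZMod Q, ph k u = 0 := by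
  classical
  have h1 : ∑ u : Fin d → ZMod Q, ph k u = ∏ j, ∑ x : ZMod Q, psi ((k j : ZMod Q) * x) := by
    rw [Finset.prod_univ_sum, Fintype.piFinset_univ]
    exact Finset.sum_congr rfl fun u _ => ph_prod k u
  rw [h1]
  exact Finset.prod_eq_zero (Finset.mem_univ j) (sum_psi h)

end

section

variable {d N M : ℕ} [NeZero (N * M)]

/-- the Fourier coefficient -/
noncomputable def Fh (M : ℕ) [NeZero (N * M)] (a : Fin d → Fin N) (t : Fin d → ℕ) (k : Fin d → ℤ) : ℂ :=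
  ∑ u : Fin d → ZMod (N * M), (Fd M a t u : ℂ) * ph k u

theorem one_sum (t : ℕ) (k X : ZMod (N * M)) : ∑ u : ZMod (N * M), (Jn t (X - u) : ℂ) * psi (k * u) =
    psi (k * X) * (((N * M : ℕ) : ℂ) * Gt t k) := by
  have hQ : ((N * M : ℕ) : ℂ) ≠ 0 := by exact_mod_cast NeZero.ne (N * M)
  unfold Gt
  rw [← mul_assoc ((N * M : ℕ) : ℂ), mul_one_div, div_self hQ, one_mul, Finset.mul_sum]
  refine Fintype.sum_equiv (Equiv.subLeft X) (fun u => (Jn t (X - u) : ℂ) * psi (k * u))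
    (fun y => psi (k * X) * ((Jn t y : ℂ) * psi (-(k * y)))) fun u => ?_
  rw [Equiv.subLeft_apply]
  have : psi (k * u) = psi (k * X) * psi (-(k * (X - u))) := by
    rw [← psi_add]; congr 1; ring
  rw [this]; ring

theorem Fh_eq (hN : 0 < N) (a : Fin d → Fin N) (t : Fin d → ℕ) (k : Fin d → ℤ) : Fh M a t k =
    (∑ n ∈ range N, ∏ j, psi ((k j : ZMod (N * M)) * Xp M a n j)) / N *
      ∏ j, (((N * M : ℕ) : ℂ) * Gt (t j) (k j : ZMod (N * M))) -
      (∏ j, ((t j : ℂ) / ((N * M : ℕ) : ℂ))) * ∑ u : Fin d → ZMod (N * M), ph k u := by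
  classical
  unfold Fh
  have e1 : ∀ u : Fin d → ZMod (N * M), (Fd M a t u : ℂ) * ph k u =
      (∑ n ∈ range N, ∏ j, ((Jn (t j) (Xp M a n j - u j) : ℂ) * psi ((k j : ZMod (N * M)) * u j))) / N -
      (∏ j, ((t j : ℂ) / ((N * M : ℕ) : ℂ))) * ph k u := by
    intro u
    unfold Fd
    push_cast
    have e3 : ∀ n ∈ range N, (∏ j, (Jn (t j) (Xp M a n j - u j) : ℂ)) * ph k u =
        ∏ j, ((Jn (t j) (Xp M a n j - u j) : ℂ) * psi ((k j : ZMod (N * M)) * u j)) := by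
      intro n _
      rw [ph_prod, Finset.prod_mul_distrib]
    rw [sub_mul, div_mul_eq_mul_div, Finset.sum_mul, Finset.sum_congr rfl e3]
  rw [Finset.sum_congr rfl fun u _ => e1 u, Finset.sum_sub_distrib, ← Finset.mul_sum, ← Finset.sum_div,
    Finset.sum_comm, div_mul_eq_mul_div, Finset.sum_mul]
  congr 2
  refine Finset.sum_congr rfl fun n _ => ?_
  rw [← Finset.prod_mul_distrib]
  have e2 : ∀ j ∈ (Finset.univ : Finset (Fin d)), psi ((k j : ZMod (N * M)) * Xp M a n j) *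
      (((N * M : ℕ) : ℂ) * Gt (t j) (k j : ZMod (N * M))) =
      ∑ x ∈ (Finset.univ : Finset (ZMod (N * M))), (Jn (t j) (Xp M a n j - x) : ℂ) * psi ((k j : ZMod (N * M)) * x) :=
    fun j _ => (one_sum (t j) _ _).symm
  rw [Finset.prod_congr rfl e2, Finset.prod_univ_sum, Fintype.piFinset_univ]

theorem Fh_zero (hN : 0 < N) (a : Fin d → Fin N) {t : Fin d → ℕ} (ht : ∀ j, t j ≤ N * M) :
    Fh M a t 0 = 0 := by
  have hQ : ((N * M : ℕ) : ℂ) ≠ 0 := by exact_mod_cast NeZero.ne (N * M)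
  have hNC : (N : ℂ) ≠ 0 := by exact_mod_cast hN.ne'
  rw [Fh_eq hN]
  have e1 : ∀ j : Fin d, ((N * M : ℕ) : ℂ) * Gt (t j) (((0 : Fin d → ℤ) j : ℤ) : ZMod (N * M)) = t j := by
    intro j
    rw [Pi.zero_apply, Int.cast_zero, Gt_zero _ (ht j)]
    field_simp
  rw [Finset.prod_congr rfl fun j _ => e1 j]
  have e2 : ∀ n ∈ range N, ∏ j, psi ((((0 : Fin d → ℤ) j : ℤ) : ZMod (N * M)) * Xp M a n j) = 1 := by
    intro n _
    simp [psi_zero]
  rw [Finset.sum_congr rfl e2, Finset.sum_const, Finset.card_range, Finset.sum_congr rfl fun u _ => ph_zero u,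
    Finset.sum_const, Finset.card_univ, Fintype.card_fun, ZMod.card, Fintype.card_fin, Finset.prod_div_distrib,
    Finset.prod_const, Finset.card_univ, Fintype.card_fin]
  simp only [nsmul_eq_mul, mul_one, Nat.cast_pow]
  field_simp
  simp

omit [NeZero (N * M)] in
theorem pow_eq_prod (c : ℝ) : c ^ d = ∏ _j : Fin d, c := by simp

theorem zmod_ne {k : ℤ} (h1 : 0 < |k|) (h2 : 2 * |k| ≤ ((N * M : ℕ) : ℤ)) : (k : ZMod (N * M)) ≠ 0 := by
  rw [Ne, ZMod.intCast_zmod_eq_zero_iff_dvd]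
  intro h
  have := Int.le_of_dvd h1 ((dvd_abs _ _).2 h)
  omega

theorem Fh_norm_le (hd : 1 ≤ d) (hN : 0 < N) (a : Fin d → Fin N) {t : Fin d → ℕ} (ht : ∀ j, t j ≤ N * M)
    {k : Fin d → ℤ} (h1 : ∀ j, 0 < |k j|) (h2 : ∀ j, 2 * |k j| ≤ ((N * M : ℕ) : ℤ)) :
    ‖Fh M a t k‖ ≤ ((N * M : ℕ) : ℝ) ^ d * ∏ j, (1 / (2 * |(k j : ℝ)|)) := by
  have hNR : (0 : ℝ) < N := by exact_mod_cast hN
  rw [Fh_eq hN, sum_ph (zmod_ne (h1 ⟨0, by omega⟩) (h2 ⟨0, by omega⟩)), mul_zero, sub_zero, norm_mul, norm_div]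
  have e1 : ‖∑ n ∈ range N, ∏ j, psi ((k j : ZMod (N * M)) * Xp M a n j)‖ ≤ N := by
    refine (norm_sum_le _ _).trans ?_
    have : ∀ n ∈ range N, ‖∏ j, psi ((k j : ZMod (N * M)) * Xp M a n j)‖ = 1 := by
      intro n _
      rw [norm_prod]
      exact Finset.prod_eq_one fun j _ => psi_norm _
    rw [Finset.sum_congr rfl this]; simp
  have e2 : ‖(N : ℂ)‖ = N := by simp
  rw [e2]
  have e3 : ‖∏ j, (((N * M : ℕ) : ℂ) * Gt (t j) (k j : ZMod (N * M)))‖ ≤
      ((N * M : ℕ) : ℝ) ^ d * ∏ j, (1 / (2 * |(k j : ℝ)|)) := by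
    rw [norm_prod, pow_eq_prod, ← Finset.prod_mul_distrib]
    refine Finset.prod_le_prod (fun _ _ => norm_nonneg _) fun j _ => ?_
    rw [norm_mul]
    have : ‖((N * M : ℕ) : ℂ)‖ = ((N * M : ℕ) : ℝ) := Complex.norm_natCast _
    rw [this]
    exact mul_le_mul_of_nonneg_left (norm_Gt_le (ht j) (h1 j) (h2 j)) (by positivity)
  calc _ ≤ (N : ℝ) / N * (((N * M : ℕ) : ℝ) ^ d * ∏ j, (1 / (2 * |(k j : ℝ)|))) := by gcongr
    _ = _ := by rw [div_self hNR.ne', one_mul]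

theorem Fh_dual (hd : 1 ≤ d) (hN : 0 < N) {a : Fin d → Fin N} {t : Fin d → ℕ} (ht : ∀ j, t j ≤ N * M)
    {m : Fin d → ℤ} (hm : Dual a m) (h1 : ∀ j, 0 < |m j|) (h2 : ∀ j, 2 * |m j| ≤ ((N * M : ℕ) : ℤ)) :
    ((N * M : ℕ) : ℝ) ^ d * ∏ j, (Real.sin (Real.pi * m j * t j / ((N * M : ℕ) : ℝ)) ^ 2 / (Real.pi * |(m j : ℝ)|)) ≤
      ‖Fh M a t m‖ := by
  have hNR : (0 : ℝ) < N := by exact_mod_cast hN
  have hNC : (N : ℂ) ≠ 0 := by exact_mod_cast hN.ne'
  rw [Fh_eq hN, sum_ph (zmod_ne (h1 ⟨0, by omega⟩) (h2 ⟨0, by omega⟩)), mul_zero, sub_zero]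
  have e1 : ∀ n ∈ range N, ∏ j, psi ((m j : ZMod (N * M)) * Xp M a n j) = 1 := by
    intro n _
    rw [← psi_sum]
    have : ∑ j, (m j : ZMod (N * M)) * Xp M a n j = 0 := by
      obtain ⟨q, hq⟩ := hm
      unfold Xp
      have e2 : ∑ j, (m j : ZMod (N * M)) * ((M * (n * (a j : ℕ)) : ℕ) : ZMod (N * M)) =
          ((M * n * ∑ j, m j * ((a j : ℕ) : ℤ) : ℤ) : ZMod (N * M)) := by
        push_cast
        rw [Finset.mul_sum]
        refine Finset.sum_congr rfl fun j _ => ?_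
        ring
      rw [e2, hq, ZMod.intCast_zmod_eq_zero_iff_dvd]
      exact ⟨n * q, by push_cast; ring⟩
    rw [this, psi_zero]
  rw [Finset.sum_congr rfl e1, Finset.sum_const, Finset.card_range, nsmul_eq_mul, mul_one, div_self hNC, one_mul,
    norm_prod]
  rw [pow_eq_prod, ← Finset.prod_mul_distrib]
  refine Finset.prod_le_prod (fun _ _ => by have := Real.pi_pos; positivity) fun j _ => ?_
  rw [norm_mul]
  have : ‖((N * M : ℕ) : ℂ)‖ = ((N * M : ℕ) : ℝ) := Complex.norm_natCast _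
  rw [this]
  exact mul_le_mul_of_nonneg_left (le_norm_Gt (ht j) (h1 j) (h2 j)) (by positivity)

end

end Pool.Agent.V8H55.LD
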