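import Pool.Agent.V8H55.LD.Rz3

/-!
# The Riesz product bound
-/

set_option autoImplicit false

namespace Pool.Agent.V8H55.LD

open Finset

section

variable {d Q : ℕ} [NeZero Q]

/-- one factor -/
noncomputable def zf (ζ : (Fin d → ℤ) → ℂ) (m : Fin d → ℤ) (u : Fin d → ZMod Q) : ℝ := (ζ m * ph m u).re

/-- the frequency -/
def kk (S T : Finset (Fin d → ℤ)) : Fin d → ℤ := ∑ m ∈ T, m + ∑ m ∈ S \ T, (-m)

omit [NeZero Q] in
theorem kk_apply (S T : Finset (Fin d → ℤ)) (j : Fin d) : kk S T j = ∑ m ∈ T, m j - ∑ m ∈ S \ T, m j := by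
  unfold kk
  rw [Pi.add_apply, Finset.sum_apply, Finset.sum_apply]
  simp [sub_eq_add_neg]

theorem zf_prod (ζ : (Fin d → ℤ) → ℂ) (S : Finset (Fin d → ℤ)) (u : Fin d → ZMod Q) :
    ((∏ m ∈ S, zf ζ m u : ℝ) : ℂ) = ∑ T ∈ S.powerset, ((1 / 2 : ℂ) ^ #S *
      ((∏ m ∈ T, ζ m) * ∏ m ∈ S \ T, (starRingEnd ℂ) (ζ m))) * ph (kk S T) u := by
  classical
  push_cast
  have h1 : ∀ m ∈ S, ((zf ζ m u : ℝ) : ℂ) = (1 / 2) * (ζ m * ph m u + (starRingEnd ℂ) (ζ m * ph m u)) := by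
    intro m _
    unfold zf
    rw [Complex.re_eq_add_conj]; ring
  rw [Finset.prod_congr rfl h1, Finset.prod_mul_distrib, Finset.prod_const, Finset.prod_add, Finset.mul_sum]
  refine Finset.sum_congr rfl fun T _ => ?_
  unfold kk
  rw [ph_add, ph_sum, ph_sum, Finset.prod_mul_distrib]
  have h2 : ∏ m ∈ S \ T, (starRingEnd ℂ) (ζ m * ph m u) =
      (∏ m ∈ S \ T, (starRingEnd ℂ) (ζ m)) * ∏ m ∈ S \ T, ph (-m) u := by
    rw [← Finset.prod_mul_distrib]
    refine Finset.prod_congr rfl fun m _ => ?_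
    rw [map_mul, ph_neg]
  rw [h2]; ring

theorem coef_norm {ζ : (Fin d → ℤ) → ℂ} (hζ : ∀ m, ‖ζ m‖ = 1) (S T : Finset (Fin d → ℤ)) :
    ‖(1 / 2 : ℂ) ^ #S * ((∏ m ∈ T, ζ m) * ∏ m ∈ S \ T, (starRingEnd ℂ) (ζ m))‖ = (1 / 2) ^ #S := by
  rw [norm_mul, norm_mul, norm_prod, norm_prod, Finset.prod_eq_one fun m _ => hζ m,
    Finset.prod_eq_one fun m _ => by rw [RCLike.norm_conj]; exact hζ m, norm_pow]
  norm_num

theorem mean_zero {ζ : (Fin d → ℤ) → ℂ} {S : Finset (Fin d → ℤ)} {j : Fin d}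
    (h : ∀ T ⊆ S, ((kk S T j : ℤ) : ZMod Q) ≠ 0) :
    ∑ u : Fin d → ZMod Q, ∏ m ∈ S, zf ζ m u = 0 := by
  have h1 : ((∑ u : Fin d → ZMod Q, ∏ m ∈ S, zf ζ m u : ℝ) : ℂ) = 0 := by
    rw [Complex.ofReal_sum, Finset.sum_congr rfl fun u _ => zf_prod ζ S u, Finset.sum_comm]
    refine Finset.sum_eq_zero fun T hT => ?_
    rw [← Finset.mul_sum, sum_ph (h T (Finset.mem_powerset.1 hT)), mul_zero]
  exact_mod_cast h1

end

section

variable {d N M : ℕ} [NeZero (N * M)]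

theorem pair_bound (a : Fin d → Fin N) (t : Fin d → ℕ) {ζ : (Fin d → ℤ) → ℂ} (hζ : ∀ m, ‖ζ m‖ = 1)
    {S : Finset (Fin d → ℤ)} {B : ℝ} (h : ∀ T ⊆ S, ‖Fh M a t (kk S T)‖ ≤ B) :
    |∑ u : Fin d → ZMod (N * M), Fd M a t u * ∏ m ∈ S, zf ζ m u| ≤ B := by
  have h1 : ((∑ u : Fin d → ZMod (N * M), Fd M a t u * ∏ m ∈ S, zf ζ m u : ℝ) : ℂ) =
      ∑ T ∈ S.powerset, ((1 / 2 : ℂ) ^ #S * ((∏ m ∈ T, ζ m) * ∏ m ∈ S \ T, (starRingEnd ℂ) (ζ m))) *
        Fh M a t (kk S T) := by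
    rw [Complex.ofReal_sum]
    have e1 : ∀ u ∈ (Finset.univ : Finset (Fin d → ZMod (N * M))),
        ((Fd M a t u * ∏ m ∈ S, zf ζ m u : ℝ) : ℂ) = ∑ T ∈ S.powerset, ((1 / 2 : ℂ) ^ #S *
        ((∏ m ∈ T, ζ m) * ∏ m ∈ S \ T, (starRingEnd ℂ) (ζ m))) * ((Fd M a t u : ℂ) * ph (kk S T) u) := by
      intro u _
      rw [Complex.ofReal_mul, zf_prod, Finset.mul_sum]
      refine Finset.sum_congr rfl fun T _ => ?_
      ring
    rw [Finset.sum_congr rfl e1, Finset.sum_comm]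
    refine Finset.sum_congr rfl fun T _ => ?_
    rw [← Finset.mul_sum]; rfl
  rw [← Real.norm_eq_abs, ← Complex.norm_real, h1]
  refine (norm_sum_le _ _).trans ?_
  calc ∑ T ∈ S.powerset, ‖((1 / 2 : ℂ) ^ #S * ((∏ m ∈ T, ζ m) * ∏ m ∈ S \ T, (starRingEnd ℂ) (ζ m))) *
        Fh M a t (kk S T)‖ ≤ ∑ _T ∈ S.powerset, (1 / 2 : ℝ) ^ #S * B := by
        refine Finset.sum_le_sum fun T hT => ?_
        rw [norm_mul, coef_norm hζ]
        exact mul_le_mul_of_nonneg_left (h T (Finset.mem_powerset.1 hT)) (by positivity)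
    _ = B := by
        rw [Finset.sum_const, Finset.card_powerset, nsmul_eq_mul]
        push_cast
        rw [← mul_assoc, ← mul_pow]; norm_num

theorem single_val (a : Fin d → Fin N) (t : Fin d → ℕ) (ζ : (Fin d → ℤ) → ℂ) (m : Fin d → ℤ) :
    ∑ u : Fin d → ZMod (N * M), Fd M a t u * zf ζ m u = (ζ m * Fh M a t m).re := by
  unfold Fh zf
  rw [Finset.mul_sum, Complex.re_sum]
  refine Finset.sum_congr rfl fun u _ => ?_
  have : ζ m * ((Fd M a t u : ℂ) * ph m u) = (Fd M a t u : ℂ) * (ζ m * ph m u) := by ring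
  rw [this, Complex.re_ofReal_mul]

open Classical in
/-- the unimodular factors -/
noncomputable def zeta (M : ℕ) [NeZero (N * M)] (a : Fin d → Fin N) (t : Fin d → ℕ) (m : Fin d → ℤ) : ℂ :=
  if Fh M a t m = 0 then 1 else (starRingEnd ℂ) (Fh M a t m) / ‖Fh M a t m‖

theorem zeta_norm (a : Fin d → Fin N) (t : Fin d → ℕ) (m : Fin d → ℤ) : ‖zeta M a t m‖ = 1 := by
  unfold zeta
  split_ifs with h
  · simp
  · have : ‖Fh M a t m‖ ≠ 0 := norm_ne_zero_iff.2 h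
    rw [norm_div, RCLike.norm_conj, Complex.norm_real, norm_norm, div_self this]

theorem zeta_mul (a : Fin d → Fin N) (t : Fin d → ℕ) (m : Fin d → ℤ) :
    (zeta M a t m * Fh M a t m).re = ‖Fh M a t m‖ := by
  unfold zeta
  split_ifs with h
  · rw [h]; simp
  · have h0 : ‖Fh M a t m‖ ≠ 0 := norm_ne_zero_iff.2 h
    have h1 : (starRingEnd ℂ) (Fh M a t m) * Fh M a t m = ((‖Fh M a t m‖ ^ 2 : ℝ) : ℂ) := by
      rw [Complex.conj_mul']; push_cast; rfl
    rw [div_mul_eq_mul_div, h1, ← Complex.ofReal_div, Complex.ofReal_re]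
    field_simp

theorem one_t (hd : 1 ≤ d) (hN : 0 < N) (hM : 0 < M) (a : Fin d → Fin N) {t : Fin d → ℕ}
    (ht : ∀ j, t j ≤ N * M) {H : Finset (Fin d → ℤ)} {W : ℝ} (hW : 0 ≤ W) (hne : ∀ m ∈ H, ∀ i, m i ≠ 0)
    (hsep : ∀ m ∈ H, ∀ n ∈ H, m ≠ n → ∀ i, 3 * |m i| ≤ |n i| ∨ 3 * |n i| ≤ |m i|)
    (hWb : ∀ m ∈ H, ∀ n ∈ H, m ≠ n → 1 / ∏ i, max |(m i : ℝ)| |(n i : ℝ)| ≤ W)
    (hB : ∀ j, 2 * ∑ m ∈ H, |m j| ≤ ((N * M : ℕ) : ℤ)) :
    ∑ m ∈ H, ‖Fh M a t m‖ ≤ ((N * M : ℕ) : ℝ) ^ d * (2 ^ d * disc a + 2 ^ #H * W) := by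
  classical
  set Qd : ℝ := ((N * M : ℕ) : ℝ) ^ d with hQd
  have hQd0 : 0 ≤ Qd := by positivity
  set ζ := zeta M a t with hζd
  have hζ : ∀ m, ‖ζ m‖ = 1 := zeta_norm a t
  have hcard : (Fintype.card (Fin d → ZMod (N * M)) : ℝ) = Qd := by
    rw [Fintype.card_fun, ZMod.card, Fintype.card_fin, Nat.cast_pow]
  -- coordinates of the frequencies
  have hk1 : ∀ S ⊆ H, ∀ T ⊆ S, ∀ m ∈ S, ∀ j, |m j| ≤ 2 * |kk S T j| := by
    intro S hS T hT m hm j
    rw [kk_apply]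
    exact lac' (fun m : Fin d → ℤ => m j) S T hT
      (fun a ha b hb hab => hsep a (hS ha) b (hS hb) hab j) hm
  have hk0 : ∀ S ⊆ H, ∀ T ⊆ S, S.Nonempty → ∀ j, 0 < |kk S T j| := by
    intro S hS T hT hSn j
    obtain ⟨m, hm⟩ := hSn
    have h1 := hk1 S hS T hT m hm j
    have h2 : 0 < |m j| := abs_pos.2 (hne m (hS hm) j)
    omega
  have hk2 : ∀ S ⊆ H, ∀ T ⊆ S, ∀ j, 2 * |kk S T j| ≤ ((N * M : ℕ) : ℤ) := by
    intro S hS T hT j
    rw [kk_apply]
    have h1 := lac_le (fun m : Fin d → ℤ => m j) S T hT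
    have h2 : ∑ m ∈ S, |m j| ≤ ∑ m ∈ H, |m j| :=
      Finset.sum_le_sum_of_subset_of_nonneg hS fun _ _ _ => abs_nonneg _
    have h3 := hB j
    omega
  -- the total
  set P : (Fin d → ZMod (N * M)) → ℝ := fun u => ∏ m ∈ H, (1 + zf ζ m u) with hP
  have hPexp : ∀ u, P u = ∑ S ∈ H.powerset, ∏ m ∈ S, zf ζ m u := fun u => Finset.prod_one_add H
  have hzf : ∀ m (u : Fin d → ZMod (N * M)), -1 ≤ zf ζ m u := by
    intro m u
    unfold zf
    have h1 : |(ζ m * ph m u).re| ≤ ‖ζ m * ph m u‖ := Complex.abs_re_le_norm _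
    rw [norm_mul, hζ, ph_norm, mul_one] at h1
    linarith [(abs_le.1 h1).1]
  have hP0 : ∀ u, 0 ≤ P u := fun u => Finset.prod_nonneg fun m _ => by linarith [hzf m u]
  have hPsum : ∑ u, P u = Qd := by
    rw [Finset.sum_congr rfl fun u _ => hPexp u, Finset.sum_comm, ← Finset.add_sum_erase _ _ (Finset.empty_mem_powerset H)]
    have h1 : ∑ S ∈ H.powerset.erase ∅, ∑ u : Fin d → ZMod (N * M), ∏ m ∈ S, zf ζ m u = 0 := by
      refine Finset.sum_eq_zero fun S hS => ?_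
      rw [Finset.mem_erase, Finset.mem_powerset] at hS
      apply mean_zero (j := ⟨0, by omega⟩)
      intro T hT
      exact zmod_ne (hk0 S hS.2 T hT (Finset.nonempty_iff_ne_empty.2 hS.1) _) (hk2 S hS.2 T hT _)
    rw [h1]
    simp only [Finset.prod_empty, Finset.sum_const, Finset.card_univ, nsmul_eq_mul, mul_one, add_zero]
    exact hcard
  have hup : ∑ u, Fd M a t u * P u ≤ 2 ^ d * disc a * Qd := by
    rw [← hPsum, Finset.mul_sum]
    refine Finset.sum_le_sum fun u _ => ?_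
    exact mul_le_mul_of_nonneg_right ((le_abs_self _).trans (abs_Fd_le hN hM a ht u)) (hP0 u)
  set f : Finset (Fin d → ℤ) → ℝ := fun S => ∑ u : Fin d → ZMod (N * M), Fd M a t u * ∏ m ∈ S, zf ζ m u with hf
  have hexp : ∑ u, Fd M a t u * P u = ∑ S ∈ H.powerset, f S := by
    rw [hf]
    simp only
    rw [Finset.sum_comm]
    refine Finset.sum_congr rfl fun u _ => ?_
    rw [hPexp, Finset.mul_sum]
  have hf0 : f ∅ = 0 := by
    rw [hf]
    simp only [Finset.prod_empty, mul_one]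
    have h1 := Fh_zero (M := M) hN a ht
    unfold Fh at h1
    rw [Finset.sum_congr rfl fun u _ => by rw [ph_zero, mul_one]] at h1
    exact_mod_cast h1
  have hf2 : ∀ S ⊆ H, 2 ≤ #S → |f S| ≤ Qd * W := by
    intro S hS h2
    apply pair_bound a t hζ
    intro T hT
    obtain ⟨m, hm, n, hn, hmn⟩ := Finset.one_lt_card.1 h2
    have hne' : S.Nonempty := ⟨m, hm⟩
    refine (Fh_norm_le hd hN a ht (hk0 S hS T hT hne') (hk2 S hS T hT)).trans ?_
    refine mul_le_mul_of_nonneg_left ?_ hQd0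
    refine le_trans ?_ (hWb m (hS hm) n (hS hn) hmn)
    have h0 : (1 : ℝ) / ∏ i, max |(m i : ℝ)| |(n i : ℝ)| = ∏ i, (1 / max |(m i : ℝ)| |(n i : ℝ)|) := by
      rw [Finset.prod_div_distrib, Finset.prod_const_one]
    rw [h0]
    refine Finset.prod_le_prod (fun _ _ => by positivity) fun j _ => ?_
    have h3 : 0 < |(m j : ℝ)| := by
      have : m j ≠ 0 := hne m (hS hm) j
      positivity
    apply one_div_le_one_div_of_le (lt_max_of_lt_left h3)
    have h4 := hk1 S hS T hT m hm j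
    have h5 := hk1 S hS T hT n hn j
    apply max_le
    · exact_mod_cast h4
    · exact_mod_cast h5
  have hf1 : ∀ m, f {m} = ‖Fh M a t m‖ := by
    intro m
    rw [hf]
    simp only [Finset.prod_singleton]
    rw [single_val, hζd, zeta_mul]
  have hlow : ∑ m ∈ H, ‖Fh M a t m‖ - 2 ^ #H * (Qd * W) ≤ ∑ S ∈ H.powerset, f S := by
    set P1 := H.image fun m => ({m} : Finset (Fin d → ℤ)) with hP1
    have hsub : P1 ⊆ H.powerset := by
      intro S hS
      rw [hP1, Finset.mem_image] at hS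
      obtain ⟨m, hm, rfl⟩ := hS
      rw [Finset.mem_powerset, Finset.singleton_subset_iff]; exact hm
    rw [← Finset.sum_sdiff hsub]
    have e1 : ∑ S ∈ P1, f S = ∑ m ∈ H, ‖Fh M a t m‖ := by
      rw [hP1, Finset.sum_image (fun m _ n _ h => Finset.singleton_injective h)]
      exact Finset.sum_congr rfl fun m _ => hf1 m
    have e2 : -(2 ^ #H * (Qd * W)) ≤ ∑ S ∈ H.powerset \ P1, f S := by
      have e3 : ∀ S ∈ H.powerset \ P1, -(Qd * W) ≤ f S := by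
        intro S hS
        rw [Finset.mem_sdiff, Finset.mem_powerset] at hS
        have hQW : 0 ≤ Qd * W := mul_nonneg hQd0 hW
        rcases S.eq_empty_or_nonempty with he | he
        · rw [he, hf0]; linarith
        · have h2 : 2 ≤ #S := by
            by_contra hcon
            have h1 : #S = 1 := by have := Finset.card_pos.2 he; omega
            obtain ⟨m, rfl⟩ := Finset.card_eq_one.1 h1
            apply hS.2
            rw [hP1, Finset.mem_image]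
            exact ⟨m, Finset.singleton_subset_iff.1 hS.1, rfl⟩
          exact (abs_le.1 (hf2 S hS.1 h2)).1
      have e4 : ∑ _S ∈ H.powerset \ P1, -(Qd * W) ≤ ∑ S ∈ H.powerset \ P1, f S := Finset.sum_le_sum e3
      rw [Finset.sum_const, nsmul_eq_mul] at e4
      have e5 : ((#(H.powerset \ P1) : ℕ) : ℝ) ≤ 2 ^ #H := by
        have : #(H.powerset \ P1) ≤ 2 ^ #H := (Finset.card_le_card Finset.sdiff_subset).trans (Finset.card_powerset H).le
        exact_mod_cast this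
      have hQW : 0 ≤ Qd * W := mul_nonneg hQd0 hW
      nlinarith
    rw [e1]; linarith
  rw [← hexp] at hlow
  nlinarith

theorem riesz : Riesz := by
  classical
  intro d N a H W hd hN hdual hne hsep hW hWb
  set M : ℕ := (∑ m ∈ H, ∑ j, |m j|).toNat * 2 + 1 with hMd
  have hM : 0 < M := by omega
  have : NeZero (N * M) := ⟨(Nat.mul_pos hN hM).ne'⟩
  have hQ : (0 : ℝ) < ((N * M : ℕ) : ℝ) := by exact_mod_cast Nat.mul_pos hN hM
  have hB : ∀ j, 2 * ∑ m ∈ H, |m j| ≤ ((N * M : ℕ) : ℤ) := by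
    intro j
    have h1 : ∑ m ∈ H, |m j| ≤ ∑ m ∈ H, ∑ j, |m j| := Finset.sum_le_sum fun m _ =>
      Finset.single_le_sum (f := fun j => |m j|) (fun _ _ => abs_nonneg _) (Finset.mem_univ j)
    have h2 : ∑ m ∈ H, ∑ j, |m j| ≤ ((∑ m ∈ H, ∑ j, |m j|).toNat : ℤ) := Int.self_le_toNat _
    have h3 : (M : ℤ) ≤ ((N * M : ℕ) : ℤ) := by
      have : M ≤ N * M := Nat.le_mul_of_pos_left _ hN
      exact_mod_cast this
    have h4 : (M : ℤ) = ((∑ m ∈ H, ∑ j, |m j|).toNat : ℤ) * 2 + 1 := by rw [hMd]; push_cast; ring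
    linarith
  have hm1 : ∀ m ∈ H, ∀ j, 0 < |m j| := fun m hm j => abs_pos.2 (hne m hm j)
  have hm2 : ∀ m ∈ H, ∀ j, 2 * |m j| ≤ ((N * M : ℕ) : ℤ) := by
    intro m hm j
    have h1 : |m j| ≤ ∑ m ∈ H, |m j| := Finset.single_le_sum (f := fun m : Fin d → ℤ => |m j|)
      (fun _ _ => abs_nonneg _) hm
    have := hB j
    omega
  have hpi := Real.pi_pos
  set Qd : ℝ := ((N * M : ℕ) : ℝ) ^ d with hQd
  have hQd0 : 0 < Qd := by positivity
  have hcard : (Fintype.card (Fin d → ZMod (N * M)) : ℝ) = Qd := by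
    rw [Fintype.card_fun, ZMod.card, Fintype.card_fin, Nat.cast_pow]
  -- for every t
  have ht : ∀ τ : Fin d → ZMod (N * M), ∑ m ∈ H, (Qd * ∏ j,
      (Real.sin (Real.pi * m j * ((τ j).val : ℕ) / ((N * M : ℕ) : ℝ)) ^ 2 / (Real.pi * |(m j : ℝ)|))) ≤
      Qd * (2 ^ d * disc a + 2 ^ #H * W) := by
    intro τ
    refine le_trans ?_ (one_t hd hN hM a (t := fun j => (τ j).val) (fun j => (ZMod.val_lt _).le) hW hne hsep hWb hB)
    exact Finset.sum_le_sum fun m hm => Fh_dual hd hN (fun j => (ZMod.val_lt _).le) (hdual m hm) (hm1 m hm) (hm2 m hm)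
  have hsum := Finset.sum_le_sum fun τ (_ : τ ∈ (Finset.univ : Finset (Fin d → ZMod (N * M)))) => ht τ
  rw [Finset.sum_const, Finset.card_univ, nsmul_eq_mul, hcard, Finset.sum_comm] at hsum
  have e1 : ∀ m ∈ H, ∑ τ : Fin d → ZMod (N * M), (Qd * ∏ j,
      (Real.sin (Real.pi * m j * ((τ j).val : ℕ) / ((N * M : ℕ) : ℝ)) ^ 2 / (Real.pi * |(m j : ℝ)|))) =
      Qd * (Qd * ((1 / (2 * Real.pi)) ^ d * (1 / ∏ j, |(m j : ℝ)|))) := by
    intro m hm
    rw [← Finset.mul_sum]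
    congr 1
    have e2 : ∑ τ : Fin d → ZMod (N * M), ∏ j,
        (Real.sin (Real.pi * m j * ((τ j).val : ℕ) / ((N * M : ℕ) : ℝ)) ^ 2 / (Real.pi * |(m j : ℝ)|)) =
        ∏ j, ∑ x : ZMod (N * M), (Real.sin (Real.pi * m j * (x.val : ℕ) / ((N * M : ℕ) : ℝ)) ^ 2 /
          (Real.pi * |(m j : ℝ)|)) := by
      rw [Finset.prod_univ_sum, Fintype.piFinset_univ]
    rw [e2]
    have e3 : ∀ j : Fin d, ∑ x : ZMod (N * M), (Real.sin (Real.pi * m j * (x.val : ℕ) / ((N * M : ℕ) : ℝ)) ^ 2 /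
          (Real.pi * |(m j : ℝ)|)) = ((N * M : ℕ) : ℝ) * ((1 / (2 * Real.pi)) * (1 / |(m j : ℝ)|)) := by
      intro j
      rw [← Finset.sum_div, sum_sin_sq (hm1 m hm j) (hm2 m hm j)]
      have : 0 < |(m j : ℝ)| := by exact_mod_cast hm1 m hm j
      field_simp
    rw [Finset.prod_congr rfl fun j _ => e3 j, Finset.prod_mul_distrib, Finset.prod_mul_distrib,
      Finset.prod_const, Finset.prod_const, Finset.prod_div_distrib, Finset.prod_const_one, Finset.card_univ,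
      Fintype.card_fin]
  rw [Finset.sum_congr rfl e1, ← Finset.mul_sum, ← Finset.mul_sum, ← Finset.mul_sum] at hsum
  have h5 := le_of_mul_le_mul_left hsum hQd0
  have h6 := le_of_mul_le_mul_left h5 hQd0
  have h7 : (2 : ℝ) ^ #H * W ≤ 3 ^ #H * W := by
    gcongr; norm_num
  linarith

end

end Pool.Agent.V8H55.LD
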