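import Pool.Agent.V8H55.LD.Rnd
import Pool.Agent.H353R2.Z2

/-!
# Counting for the transfer
-/

set_option autoImplicit false

namespace Pool.Agent.V8H55.LD

open Finset MeasureTheory

open Classical in
theorem card_mult_fin {N h : ℕ} (hN : h ∣ N) (h0 : 0 < h) :
    #{a : Fin N | h ∣ (a : ℕ)} ≤ N / h := by
  calc #{a : Fin N | h ∣ (a : ℕ)} ≤ #(range (N / h)) := by
        apply Finset.card_le_card_of_injOn (fun a : Fin N => (a : ℕ) / h)
        · intro a ha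
          rw [Finset.mem_coe, Finset.mem_range]
          exact Nat.div_lt_div_of_lt_of_dvd hN a.2
        · intro a ha b hb hab
          rw [Finset.mem_coe, Finset.mem_filter] at ha hb
          simp only at hab
          apply Fin.ext
          rw [← Nat.div_mul_cancel ha.2, ← Nat.div_mul_cancel hb.2, hab]
    _ = N / h := Finset.card_range _

open Classical in
theorem cntA {N : ℕ} (hN : 0 < N) {z : ℝ} (hz : 0 < z) :
    (#{a : Fin N | ∃ h : ℕ, h ∣ N ∧ z < h ∧ h ∣ (a : ℕ)} : ℝ) ≤ N.divisors.card * (N / z) := by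
  have h1 : ({a : Fin N | ∃ h : ℕ, h ∣ N ∧ z < h ∧ h ∣ (a : ℕ)} : Finset (Fin N)) ⊆
      (N.divisors.filter fun h : ℕ => z < h).biUnion fun h => ({a : Fin N | h ∣ (a : ℕ)} : Finset (Fin N)) := by
    intro a ha
    rw [Finset.mem_filter] at ha
    obtain ⟨-, h, h1, h2, h3⟩ := ha
    rw [Finset.mem_biUnion]
    exact ⟨h, Finset.mem_filter.2 ⟨Nat.mem_divisors.2 ⟨h1, hN.ne'⟩, h2⟩, Finset.mem_filter.2 ⟨Finset.mem_univ _, h3⟩⟩
  have h2 : (#{a : Fin N | ∃ h : ℕ, h ∣ N ∧ z < h ∧ h ∣ (a : ℕ)} : ℝ) ≤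
      ∑ h ∈ N.divisors.filter (fun h : ℕ => z < h), (#{a : Fin N | h ∣ (a : ℕ)} : ℝ) := by
    have := (Finset.card_le_card h1).trans Finset.card_biUnion_le
    exact_mod_cast this
  refine h2.trans ?_
  calc ∑ h ∈ N.divisors.filter (fun h : ℕ => z < h), (#{a : Fin N | h ∣ (a : ℕ)} : ℝ)
      ≤ ∑ _h ∈ N.divisors.filter (fun h : ℕ => z < h), (N : ℝ) / z := by
        refine Finset.sum_le_sum fun h hh => ?_
        rw [Finset.mem_filter, Nat.mem_divisors] at hh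
        have h0 : 0 < h := Nat.pos_of_dvd_of_pos hh.1.1 hN
        have h3 := card_mult_fin hh.1.1 h0
        calc (#{a : Fin N | h ∣ (a : ℕ)} : ℝ) ≤ ((N / h : ℕ) : ℝ) := by exact_mod_cast h3
          _ ≤ (N : ℝ) / h := Nat.cast_div_le
          _ ≤ N / z := div_le_div_of_nonneg_left (by positivity) hz hh.2.le
    _ = (#(N.divisors.filter fun h : ℕ => z < h) : ℝ) * (N / z) := by rw [Finset.sum_const, nsmul_eq_mul]
    _ ≤ _ := by
        gcongr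
        exact Finset.filter_subset _ _

open Classical in
theorem cntB {N d Z : ℕ} (hN : 0 < N) (hd : 2 ≤ d) (hZ : 1 ≤ Z) :
    (#{a : Fin d → Fin N | ∃ h : ℕ, h ∣ N ∧ Z < h ∧ ∀ i, h ∣ (a i : ℕ)} : ℝ) ≤ N ^ d / Z := by
  have hNR : (0 : ℝ) < N := by exact_mod_cast hN
  have hZR : (0 : ℝ) < Z := by exact_mod_cast hZ
  have h1 : ({a : Fin d → Fin N | ∃ h : ℕ, h ∣ N ∧ Z < h ∧ ∀ i, h ∣ (a i : ℕ)} : Finset (Fin d → Fin N)) ⊆
      ((Finset.Ioc Z N).filter fun h => h ∣ N).biUnion fun h =>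
        Fintype.piFinset fun _ : Fin d => ({a : Fin N | h ∣ (a : ℕ)} : Finset (Fin N)) := by
    intro a ha
    rw [Finset.mem_filter] at ha
    obtain ⟨-, h, h1, h2, h3⟩ := ha
    rw [Finset.mem_biUnion]
    refine ⟨h, Finset.mem_filter.2 ⟨Finset.mem_Ioc.2 ⟨h2, Nat.le_of_dvd hN h1⟩, h1⟩, ?_⟩
    rw [Fintype.mem_piFinset]
    exact fun i => Finset.mem_filter.2 ⟨Finset.mem_univ _, h3 i⟩
  have h2 : (#{a : Fin d → Fin N | ∃ h : ℕ, h ∣ N ∧ Z < h ∧ ∀ i, h ∣ (a i : ℕ)} : ℝ) ≤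
      ∑ h ∈ (Finset.Ioc Z N).filter (fun h => h ∣ N), (N : ℝ) ^ d * ((h : ℝ) ^ 2)⁻¹ := by
    have := (Finset.card_le_card h1).trans Finset.card_biUnion_le
    calc _ ≤ ((∑ h ∈ (Finset.Ioc Z N).filter (fun h => h ∣ N), #(Fintype.piFinset fun _ : Fin d =>
          ({a : Fin N | h ∣ (a : ℕ)} : Finset (Fin N))) : ℕ) : ℝ) := by exact_mod_cast this
      _ ≤ _ := by
        push_cast
        refine Finset.sum_le_sum fun h hh => ?_
        rw [Finset.mem_filter, Finset.mem_Ioc] at hh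
        have h0 : 0 < h := by omega
        have h0R : (1 : ℝ) ≤ h := by exact_mod_cast h0
        rw [Fintype.card_piFinset, Finset.prod_const, Finset.card_univ, Fintype.card_fin]
        have h3 := card_mult_fin hh.2 h0
        have h4 : (#{a : Fin N | h ∣ (a : ℕ)} : ℝ) ≤ N / h :=
          ((by exact_mod_cast h3 : (#{a : Fin N | h ∣ (a : ℕ)} : ℝ) ≤ ((N / h : ℕ) : ℝ))).trans Nat.cast_div_le
        push_cast
        calc (#{a : Fin N | h ∣ (a : ℕ)} : ℝ) ^ d ≤ ((N : ℝ) / h) ^ d := by gcongr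
          _ = N ^ d * ((h : ℝ) ^ d)⁻¹ := by rw [div_pow, div_eq_mul_inv]
          _ ≤ N ^ d * ((h : ℝ) ^ 2)⁻¹ := by gcongr
  refine h2.trans ?_
  rw [← Finset.mul_sum, div_eq_mul_inv]
  gcongr
  rcases le_or_gt Z N with hle | hlt
  · calc ∑ h ∈ (Finset.Ioc Z N).filter (fun h => h ∣ N), ((h : ℝ) ^ 2)⁻¹
        ≤ ∑ h ∈ Finset.Ioc Z N, ((h : ℝ) ^ 2)⁻¹ :=
          Finset.sum_le_sum_of_subset_of_nonneg (Finset.filter_subset _ _) fun _ _ _ => by positivity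
      _ ≤ (Z : ℝ)⁻¹ - (N : ℝ)⁻¹ := sum_Ioc_inv_sq_le_sub (by omega) hle
      _ ≤ (Z : ℝ)⁻¹ := by
          have : (0 : ℝ) ≤ (N : ℝ)⁻¹ := by positivity
          linarith
  · rw [Finset.Ioc_eq_empty_of_le hlt.le]
    simp

/-- the predicate on `b` -/
def PB (N g k : ℕ) (c : ℝ) (b : Fin k → ℕ) : Prop :=
  ∃ H : Finset (Fin (k + 1) → ℤ), (∀ m ∈ H, (N : ℤ) ∣ m 0 * g + ∑ i, m (Fin.succ i) * (b i : ℤ)) ∧
      ∀ a : Fin (k + 1) → Fin N, (∀ m ∈ H, Dual a m) → Good c a H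

/-- the cell -/
def cell (N g k : ℕ) (b : Fin k → Fin N) : Set (Fin k → ℝ) :=
  Set.pi Set.univ fun i => Set.Ico ((g : ℝ) * ((b i : ℕ) / g : ℕ) / N) ((g : ℝ) * (((b i : ℕ) / g : ℕ) + 1) / N)

theorem cell_volume {N g k : ℕ} (b : Fin k → Fin N) :
    volume (cell N g k b) = ENNReal.ofReal ((g : ℝ) / N) ^ k := by
  unfold cell
  rw [Real.volume_pi_Ico]
  have : ∀ i : Fin k, ENNReal.ofReal ((g : ℝ) * (((b i : ℕ) / g : ℕ) + 1) / N - (g : ℝ) * ((b i : ℕ) / g : ℕ) / N) =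
      ENNReal.ofReal ((g : ℝ) / N) := by
    intro i; congr 1; ring
  rw [Finset.prod_congr rfl fun i _ => this i, Finset.prod_const, Finset.card_univ, Fintype.card_fin]

theorem cell_near {N g k : ℕ} (hN : 0 < N) (hg : 0 < g) {b : Fin k → Fin N} {x : Fin k → ℝ}
    (hx : x ∈ cell N g k b) (i : Fin k) : |x i - ((b i : ℕ) : ℝ) / N| ≤ (g : ℝ) / N := by
  unfold cell at hx
  have h1 := hx i (Set.mem_univ _)
  rw [Set.mem_Ico] at h1
  have hNR : (0 : ℝ) < N := by exact_mod_cast hN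
  have h2 : ((b i : ℕ) : ℝ) = g * ((b i : ℕ) / g : ℕ) + ((b i : ℕ) % g : ℕ) := by
    exact_mod_cast (Nat.div_add_mod _ _).symm
  have h3 : (((b i : ℕ) % g : ℕ) : ℝ) ≤ g := by exact_mod_cast (Nat.mod_lt _ hg).le
  have h4 : (0 : ℝ) ≤ (((b i : ℕ) % g : ℕ) : ℝ) := Nat.cast_nonneg _
  set q : ℝ := (((b i : ℕ) / g : ℕ) : ℝ)
  set r : ℝ := (((b i : ℕ) % g : ℕ) : ℝ)
  rw [h2]
  have e1 : (g * q + r) / N = g * q / N + r / N := by ring
  have e2 : (g : ℝ) * (q + 1) / N = g * q / N + g / N := by ring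
  rw [e2] at h1
  rw [e1, abs_le]
  have h5 : r / N ≤ g / N := by gcongr
  have h6 : 0 ≤ r / N := by positivity
  constructor <;> linarith [h1.1, h1.2]

theorem cell_unit {N g k : ℕ} (hgN : g ∣ N) (hN : 0 < N) (hg : 0 < g) {b : Fin k → Fin N} {x : Fin k → ℝ}
    (hx : x ∈ cell N g k b) (i : Fin k) : x i ∈ Set.Icc (0 : ℝ) 1 := by
  unfold cell at hx
  have h1 := hx i (Set.mem_univ _)
  rw [Set.mem_Ico] at h1
  have hNR : (0 : ℝ) < N := by exact_mod_cast hN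
  have h2 : (b i : ℕ) / g < N / g := Nat.div_lt_div_of_lt_of_dvd hgN (b i).2
  have h3 : g * ((b i : ℕ) / g + 1) ≤ N := by
    calc g * ((b i : ℕ) / g + 1) ≤ g * (N / g) := Nat.mul_le_mul_left _ h2
      _ = N := Nat.mul_div_cancel' hgN
  have h4 : (g : ℝ) * (((b i : ℕ) / g : ℕ) + 1) ≤ N := by exact_mod_cast h3
  refine ⟨le_trans (by positivity) h1.1, ?_⟩
  have h5 : (g : ℝ) * (((b i : ℕ) / g : ℕ) + 1) / N ≤ 1 := by rw [div_le_one hNR]; exact h4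
  linarith [h1.2]

theorem cell_disj {N g k : ℕ} (hN : 0 < N) (hg : 0 < g) {b b' : Fin k → Fin N}
    (hm : ∀ i, (b i : ℕ) % g = (b' i : ℕ) % g) (hne : b ≠ b') : Disjoint (cell N g k b) (cell N g k b') := by
  have hNR : (0 : ℝ) < N := by exact_mod_cast hN
  have hgR : (0 : ℝ) < g := by exact_mod_cast hg
  obtain ⟨i, hi⟩ : ∃ i, (b i : ℕ) / g ≠ (b' i : ℕ) / g := by
    by_contra hcon
    push Not at hcon
    apply hne
    funext i
    apply Fin.ext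
    rw [← Nat.div_add_mod (b i : ℕ) g, ← Nat.div_add_mod (b' i : ℕ) g, hcon i, hm i]
  rw [Set.disjoint_left]
  intro x hx hx'
  have h1 := hx i (Set.mem_univ _)
  have h2 := hx' i (Set.mem_univ _)
  rw [Set.mem_Ico] at h1 h2
  have key : ∀ p q : ℕ, p < q → (g : ℝ) * (p + 1) / N ≤ g * q / N := by
    intro p q h
    have : ((p : ℝ) + 1) ≤ q := by exact_mod_cast h
    gcongr
  rcases lt_or_gt_of_ne hi with h | h
  · have := key _ _ h
    linarith [h1.2, h2.1]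
  · have := key _ _ h
    linarith [h2.2, h1.1]

open Classical in
/-- The count for a fixed residue class. -/
theorem count_alpha {k N g : ℕ} {c L ε : ℝ} (hk : 1 ≤ k) (hgN : g ∣ N) (hg : 0 < g) (hN : 0 < N)
    (hL : L = Real.log N) (hL1 : 1 ≤ L) (hc : 0 < c) (hε : 0 < ε)
    (hbig : 8 * k * Real.exp (L / 4) * L ^ (k + 1) ≤ Real.exp L) (α : Fin k → Fin g)
    (hvol : volume {x : Fin k → ℝ | (∀ i, x i ∈ Set.Icc (0 : ℝ) 1) ∧
      ¬ ∃ V : Finset ((Fin k → ℤ) × ℤ), GoodR c L g (fun i => ((α i : ℕ) : ℤ)) x V} ≤ ENNReal.ofReal ε) :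
    (#{b : Fin k → Fin N | (∀ i, (b i : ℕ) % g = α i) ∧ ¬ PB N g k (c / 2) (fun i => (b i : ℕ))} : ℝ) ≤
      ε * ((N : ℝ) / g) ^ k := by
  set S : Finset (Fin k → Fin N) :=
    {b : Fin k → Fin N | (∀ i, (b i : ℕ) % g = α i) ∧ ¬ PB N g k (c / 2) (fun i => (b i : ℕ))} with hS
  have hsub : (⋃ b ∈ S, cell N g k b) ⊆ {x : Fin k → ℝ | (∀ i, x i ∈ Set.Icc (0 : ℝ) 1) ∧
      ¬ ∃ V : Finset ((Fin k → ℤ) × ℤ), GoodR c L g (fun i => ((α i : ℕ) : ℤ)) x V} := by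
    intro x hx
    rw [Set.mem_iUnion₂] at hx
    obtain ⟨b, hb, hx⟩ := hx
    rw [hS, Finset.mem_filter] at hb
    refine ⟨cell_unit hgN hN hg hx, ?_⟩
    rintro ⟨V, hV⟩
    apply hb.2.2
    refine round hk hgN hg hN hL hL1 hc hbig (fun i => ?_) (cell_near hN hg hx) hV
    have h1 := hb.2.1 i
    rw [← h1]
    have := Nat.div_add_mod (b i : ℕ) g
    have h2 : ((b i : ℕ) : ℤ) - (((b i : ℕ) % g : ℕ) : ℤ) = g * (((b i : ℕ) / g : ℕ) : ℤ) := by
      have : (g : ℤ) * (((b i : ℕ) / g : ℕ) : ℤ) + (((b i : ℕ) % g : ℕ) : ℤ) = ((b i : ℕ) : ℤ) := by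
        exact_mod_cast this
      linarith
    rw [h2]
    exact Dvd.intro _ rfl
  have hdisj : (S : Set (Fin k → Fin N)).PairwiseDisjoint (cell N g k) := by
    intro b hb b' hb' hne
    rw [Finset.mem_coe, hS, Finset.mem_filter] at hb hb'
    exact cell_disj hN hg (fun i => by rw [hb.2.1 i, hb'.2.1 i]) hne
  have hmeas : ∀ b ∈ S, MeasurableSet (cell N g k b) := fun b _ =>
    MeasurableSet.univ_pi fun i => measurableSet_Ico
  have h1 := (measure_mono hsub).trans hvol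
  rw [measure_biUnion_finset hdisj hmeas, Finset.sum_congr rfl fun b _ => cell_volume b,
    Finset.sum_const, nsmul_eq_mul, ← ENNReal.ofReal_pow (by positivity)] at h1
  have hgR : (0 : ℝ) < g := by exact_mod_cast hg
  have hNR : (0 : ℝ) < N := by exact_mod_cast hN
  have h2 : (#S : ℝ) * ((g : ℝ) / N) ^ k ≤ ε := by
    have h3 : ((#S : ℕ) : ENNReal) * ENNReal.ofReal (((g : ℝ) / N) ^ k) =
        ENNReal.ofReal ((#S : ℝ) * ((g : ℝ) / N) ^ k) := by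
      rw [ENNReal.ofReal_mul (by positivity), ENNReal.ofReal_natCast]
    rw [h3] at h1
    exact (ENNReal.ofReal_le_ofReal_iff hε.le).1 h1
  have h4 : ((g : ℝ) / N) ^ k * ((N : ℝ) / g) ^ k = 1 := by
    have h5 : (g : ℝ) / N * ((N : ℝ) / g) = 1 := by field_simp
    rw [← mul_pow, h5, one_pow]
  calc (#S : ℝ) = (#S : ℝ) * (((g : ℝ) / N) ^ k * ((N : ℝ) / g) ^ k) := by rw [h4, mul_one]
    _ = (#S : ℝ) * ((g : ℝ) / N) ^ k * ((N : ℝ) / g) ^ k := by ring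
    _ ≤ _ := by gcongr

end Pool.Agent.V8H55.LD
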